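import Pool.Agent.Lib.MP_8dfcc7_al.Words

/-!
# The divisor criterion
-/

set_option autoImplicit false

namespace Pool.Agent.Lib.MP_8dfcc7_al

theorem word_mem (s t y m m' n₁ n₂ c : ℤ) (ht : t ≠ 0) (hy : y ≠ 0)
    (h₁ : 1 + s * n₁ * m = t * y) (h₂ : 1 + s * n₂ * m' = t * y) (h₃ : m + m' = y * c) :
    upper (((n₁ : ℝ) + n₂) / (t * y)) ∈ Gam ((s : ℝ) / t) := by
  have ht' : (t : ℝ) ≠ 0 := by exact_mod_cast ht
  have hy' : (y : ℝ) ≠ 0 := by exact_mod_cast hy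
  have e := word_identity s t y m m' n₁ n₂ c ht' hy' (by exact_mod_cast h₁) (by exact_mod_cast h₂)
    (by exact_mod_cast h₃)
  rw [← e]
  have l1 : ∀ k : ℤ, lower ((s : ℝ) * k) ∈ Gam ((s : ℝ) / t) := by
    intro k
    have := lower_int_mem ((s : ℝ) / t) (t * k)
    have e : ((t * k : ℤ) : ℝ) * ((s : ℝ) / t) = s * k := by
      push_cast; field_simp
    rwa [e] at this
  have l2 : lower (-(c : ℝ) * ((s : ℝ) / t)) ∈ Gam ((s : ℝ) / t) := by
    have := lower_int_mem ((s : ℝ) / t) (-c)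
    rwa [Int.cast_neg] at this
  exact (Gam _).mul_mem ((Gam _).mul_mem ((Gam _).mul_mem ((Gam _).mul_mem (l1 m')
    (upper_int_mem _ n₂)) l2) (upper_int_mem _ n₁)) (l1 m)

/-- The divisor criterion. -/
theorem upperNe_of_dvd (s t y m m' : ℤ) (ht : t ≠ 0) (h₁ : s * m ∣ t * y - 1)
    (h₂ : s * m' ∣ t * y - 1) (h₃ : y ∣ m + m') (h₄ : ¬ t * y ∣ m + m') :
    UpperNe ((s : ℝ) / t) := by
  obtain ⟨n₁, hn₁⟩ := h₁
  obtain ⟨n₂, hn₂⟩ := h₂
  obtain ⟨c, hc⟩ := h₃
  have hy : y ≠ 0 := by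
    rintro rfl
    rw [zero_mul] at hc
    rw [hc] at h₄
    exact h₄ (dvd_zero _)
  refine upperNe_of_mem _ _ (word_mem s t y m m' n₁ n₂ c ht hy (by linear_combination -hn₁)
    (by linear_combination -hn₂) hc) ?_
  intro k hk
  apply h₄
  have ht' : (t : ℝ) ≠ 0 := by exact_mod_cast ht
  have hy' : (y : ℝ) ≠ 0 := by exact_mod_cast hy
  rw [eq_div_iff (mul_ne_zero ht' hy')] at hk
  have hk' : k * (t * y) = n₁ + n₂ := by exact_mod_cast hk
  have h5 : t * y ∣ (m + m') * (t * y - 1) := by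
    refine ⟨k * s * m * m', ?_⟩
    linear_combination m' * hn₁ + m * hn₂ - (s * m * m') * hk'
  have h6 : IsCoprime (t * y) (t * y - 1) := ⟨1, -1, by ring⟩
  exact h6.dvd_of_dvd_mul_right h5

/-- `upper (1 / t)` lies in the group when `t + 1` has a divisor congruent to `t` modulo `s`. -/
theorem upper_inv_mem (s t n k : ℤ) (ht : t ≠ 0) (hk1 : k ≠ 1)
    (h : (t - s * n) * k = t + 1) : upper (1 / (t : ℝ)) ∈ Gam ((s : ℝ) / t) := by
  have ht' : (t : ℝ) ≠ 0 := by exact_mod_cast ht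
  have hk : k - 1 ≠ 0 := sub_ne_zero.mpr hk1
  have h1 := word_mem s t (k - 1) (-1) k (-(k * n)) n 1 ht hk (by linear_combination -h)
    (by linear_combination -h) (by ring)
  have hk2 : (k : ℝ) - 1 ≠ 0 := by exact_mod_cast hk
  have e : (((-(k * n) : ℤ) : ℝ) + (n : ℝ)) / ((t : ℝ) * ((k - 1 : ℤ) : ℝ)) = - ((n : ℝ) / t) := by
    push_cast
    field_simp
    ring
  rw [e] at h1
  have h2 := upper_mem_zpow _ _ h1 (s * k)
  have h3 := (Gam ((s : ℝ) / t)).mul_mem h2 (upper_int_mem _ (k - 1))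
  rw [upper_mul] at h3
  have e2 : ((s * k : ℤ) : ℝ) * -((n : ℝ) / t) + ((k - 1 : ℤ) : ℝ) = 1 / (t : ℝ) := by
    have h' : ((t : ℝ) - s * n) * k = t + 1 := by exact_mod_cast h
    push_cast
    field_simp
    linear_combination h'
  rwa [e2] at h3

/-- conjugation by `diag (1, t)`. -/
noncomputable def dil (t : ℝ) (ht : t ≠ 0) : SL2 →* SL2 where
  toFun g := ⟨!![g.1 0 0, g.1 0 1 / t; g.1 1 0 * t, g.1 1 1], by
    have := g.2
    rw [Matrix.det_fin_two] at this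
    rw [Matrix.det_fin_two_of]
    field_simp
    linear_combination this⟩
  map_one' := by
    apply sl_ext
    change !![(1 : Matrix (Fin 2) (Fin 2) ℝ) 0 0, (1 : Matrix (Fin 2) (Fin 2) ℝ) 0 1 / t;
      (1 : Matrix (Fin 2) (Fin 2) ℝ) 1 0 * t, (1 : Matrix (Fin 2) (Fin 2) ℝ) 1 1] = 1
    ext i j
    fin_cases i <;> fin_cases j <;> simp
  map_mul' g h := by
    apply sl_ext
    change !![(g.1 * h.1) 0 0, (g.1 * h.1) 0 1 / t; (g.1 * h.1) 1 0 * t, (g.1 * h.1) 1 1] =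
      !![g.1 0 0, g.1 0 1 / t; g.1 1 0 * t, g.1 1 1] * !![h.1 0 0, h.1 0 1 / t; h.1 1 0 * t, h.1 1 1]
    ext i j
    fin_cases i <;> fin_cases j <;> simp [Matrix.mul_apply, Fin.sum_univ_two] <;> field_simp

theorem dil_upper (t : ℝ) (ht : t ≠ 0) (x : ℝ) : dil t ht (upper x) = upper (x / t) := by
  apply sl_ext
  change !![(upper x).1 0 0, (upper x).1 0 1 / t; (upper x).1 1 0 * t, (upper x).1 1 1] = _
  rw [coe_upper]
  simp [upper]

theorem dil_lower (t : ℝ) (ht : t ≠ 0) (x : ℝ) : dil t ht (lower x) = lower (x * t) := by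
  apply sl_ext
  change !![(lower x).1 0 0, (lower x).1 0 1 / t; (lower x).1 1 0 * t, (lower x).1 1 1] = _
  rw [coe_lower]
  simp [lower]

/-- conjugation by a matrix exchanging the two generators. -/
noncomputable def swp (q : ℝ) (hq : q ≠ 0) : SL2 →* SL2 where
  toFun g := ⟨!![g.1 1 1, g.1 1 0 / q; g.1 0 1 * q, g.1 0 0], by
    have := g.2
    rw [Matrix.det_fin_two] at this
    rw [Matrix.det_fin_two_of]
    field_simp
    linear_combination this⟩
  map_one' := by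
    apply sl_ext
    change !![(1 : Matrix (Fin 2) (Fin 2) ℝ) 1 1, (1 : Matrix (Fin 2) (Fin 2) ℝ) 1 0 / q;
      (1 : Matrix (Fin 2) (Fin 2) ℝ) 0 1 * q, (1 : Matrix (Fin 2) (Fin 2) ℝ) 0 0] = 1
    ext i j
    fin_cases i <;> fin_cases j <;> simp
  map_mul' g h := by
    apply sl_ext
    change !![(g.1 * h.1) 1 1, (g.1 * h.1) 1 0 / q; (g.1 * h.1) 0 1 * q, (g.1 * h.1) 0 0] =
      !![g.1 1 1, g.1 1 0 / q; g.1 0 1 * q, g.1 0 0] * !![h.1 1 1, h.1 1 0 / q; h.1 0 1 * q, h.1 0 0]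
    ext i j
    fin_cases i <;> fin_cases j <;> simp [Matrix.mul_apply, Fin.sum_univ_two] <;> field_simp <;> ring

theorem swp_upper (q : ℝ) (hq : q ≠ 0) (x : ℝ) : swp q hq (upper x) = lower (x * q) := by
  apply sl_ext
  change !![(upper x).1 1 1, (upper x).1 1 0 / q; (upper x).1 0 1 * q, (upper x).1 0 0] = _
  rw [coe_upper]
  simp [lower]

theorem swp_lower (q : ℝ) (hq : q ≠ 0) (x : ℝ) : swp q hq (lower x) = upper (x / q) := by
  apply sl_ext
  change !![(lower x).1 1 1, (lower x).1 1 0 / q; (lower x).1 0 1 * q, (lower x).1 0 0] = _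
  rw [coe_lower]
  simp [upper]

theorem swp_mem (q : ℝ) (hq : q ≠ 0) {g : SL2} (hg : g ∈ Gam q) : swp q hq g ∈ Gam q := by
  have h : Gam q ≤ (Gam q).comap (swp q hq) := by
    unfold Gam
    rw [Subgroup.closure_le]
    rintro x (rfl | rfl)
    · change swp q hq (upper 1) ∈ Gam q
      rw [swp_upper, one_mul]
      exact Subgroup.subset_closure (by simp)
    · change swp q hq (lower q) ∈ Gam q
      rw [swp_lower, div_self hq]
      exact Subgroup.subset_closure (by simp)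
  exact h hg

theorem dil_mem (s t : ℤ) (ht : (t : ℝ) ≠ 0) (h : upper (1 / (t : ℝ)) ∈ Gam ((s : ℝ) / t))
    {g : SL2} (hg : g ∈ Gam ((s : ℝ) / t)) : dil t ht g ∈ Gam ((s : ℝ) / t) := by
  have h : Gam ((s : ℝ) / t) ≤ (Gam ((s : ℝ) / t)).comap (dil t ht) := by
    conv_lhs => unfold Gam
    rw [Subgroup.closure_le]
    rintro x (rfl | rfl)
    · change dil t ht (upper 1) ∈ Gam _
      rw [dil_upper]
      exact h
    · change dil t ht (lower _) ∈ Gam _
      rw [dil_lower]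
      have := lower_int_mem ((s : ℝ) / t) t
      rwa [mul_comm] at this
  exact h hg

/-- Once `upper (1 / t)` lies in the group, all elementary matrices do. -/
theorem upper_pow_mem (s t : ℤ) (ht : t ≠ 0) (h : upper (1 / (t : ℝ)) ∈ Gam ((s : ℝ) / t))
    (a : ℤ) (j : ℕ) : upper ((a : ℝ) / (t : ℝ) ^ j) ∈ Gam ((s : ℝ) / t) := by
  have ht' : (t : ℝ) ≠ 0 := by exact_mod_cast ht
  have key : ∀ j : ℕ, upper (1 / (t : ℝ) ^ j) ∈ Gam ((s : ℝ) / t) := by
    intro j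
    induction j with
    | zero =>
      have := upper_int_mem ((s : ℝ) / t) 1
      simpa using this
    | succ j ih =>
      have := dil_mem s t ht' h ih
      rw [dil_upper] at this
      rw [pow_succ, ← div_div]
      exact this
  have := upper_mem_zpow _ _ (key j) a
  rwa [mul_one_div] at this

theorem lower_pow_mem (s t : ℤ) (hs : s ≠ 0) (ht : t ≠ 0)
    (h : upper (1 / (t : ℝ)) ∈ Gam ((s : ℝ) / t))
    (a : ℤ) (j : ℕ) : lower ((s : ℝ) * ((a : ℝ) / (t : ℝ) ^ j)) ∈ Gam ((s : ℝ) / t) := by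
  have ht' : (t : ℝ) ≠ 0 := by exact_mod_cast ht
  have hs' : (s : ℝ) ≠ 0 := by exact_mod_cast hs
  have hq : (s : ℝ) / t ≠ 0 := div_ne_zero hs' ht'
  have h1 := swp_mem _ hq (upper_pow_mem s t ht h (a * t) j)
  rw [swp_upper] at h1
  have e : ((a * t : ℤ) : ℝ) / (t : ℝ) ^ j * ((s : ℝ) / t) = (s : ℝ) * ((a : ℝ) / (t : ℝ) ^ j) := by
    push_cast
    field_simp
  rwa [e] at h1

end Pool.Agent.Lib.MP_8dfcc7_al
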