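import Mathlib

/-!
# Groups generated by two opposite unipotent matrices: definitions
-/

set_option autoImplicit false

namespace Pool.Agent.Lib.MP_8dfcc7_al

/-- `SL(2, ℝ)`. -/
abbrev SL2 : Type := Matrix.SpecialLinearGroup (Fin 2) ℝ

/-- the upper unipotent matrix with rows `(1, x)` and `(0, 1)`. -/
def upper (x : ℝ) : SL2 := ⟨!![1, x; 0, 1], by simp [Matrix.det_fin_two]⟩

/-- the lower unipotent matrix with rows `(1, 0)` and `(y, 1)`. -/
def lower (y : ℝ) : SL2 := ⟨!![1, 0; y, 1], by simp [Matrix.det_fin_two]⟩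

/-- the group `Γ_q` generated by `A = upper 1` and `B_q = lower q`. -/
def Gam (q : ℝ) : Subgroup SL2 := Subgroup.closure {upper 1, lower q}

/-- `U_q ≠ H`: the group `Γ_q` contains an upper triangular matrix outside the group generated
by `A`. -/
def UpperNe (q : ℝ) : Prop :=
  ∃ g ∈ Gam q, (g : Matrix (Fin 2) (Fin 2) ℝ) 1 0 = 0 ∧ g ∉ Subgroup.zpowers (upper 1)

/-- `x` lies in `ℤ[1/t]`: some `x * t ^ j` is an integer. -/
def InZt (t : ℤ) (x : ℝ) : Prop := ∃ (a : ℤ) (j : ℕ), x * (t : ℝ) ^ j = a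

/-- `x` and `y` are congruent modulo `s ℤ[1/t]`. -/
def CongMod (s t : ℤ) (x y : ℝ) : Prop := ∃ u : ℝ, InZt t u ∧ x - y = s * u

/-- `Γ_1^{(t)}(s)`: the matrices in `SL(2, ℝ)` with entries in `ℤ[1/t]` whose diagonal entries are
congruent to `1` and whose lower left entry is congruent to `0` modulo `s ℤ[1/t]`. -/
def GamOne (s t : ℤ) : Set SL2 :=
  {g | (∀ i j : Fin 2, InZt t ((g : Matrix (Fin 2) (Fin 2) ℝ) i j)) ∧
    CongMod s t ((g : Matrix (Fin 2) (Fin 2) ℝ) 0 0) 1 ∧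
    CongMod s t ((g : Matrix (Fin 2) (Fin 2) ℝ) 1 1) 1 ∧
    CongMod s t ((g : Matrix (Fin 2) (Fin 2) ℝ) 1 0) 0}

end Pool.Agent.Lib.MP_8dfcc7_al
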