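import Pool.Agent.Lib.MP_8dfcc7_al.Equality

/-!
# Generation of the congruence group by integral and elementary matrices
-/

set_option autoImplicit false

namespace Pool.Agent.Lib.MP_8dfcc7_al

open Matrix CongruenceSubgroup

/-- extension of scalars from `ℤ` to `ℝ`. -/
noncomputable def toReal : Matrix.SpecialLinearGroup (Fin 2) ℤ →* SL2 :=
  Matrix.SpecialLinearGroup.map (Int.castRingHom ℝ)

theorem toReal_apply (γ : Matrix.SpecialLinearGroup (Fin 2) ℤ) (i j : Fin 2) :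
    (toReal γ).1 i j = ((γ.1 i j : ℤ) : ℝ) := rfl

/-- splitting off the part of an integer made of primes dividing `t`. -/
theorem exists_split (t : ℤ) (n : ℕ) (hn : n ≠ 0) :
    ∃ (u v : ℤ) (k : ℕ), (n : ℤ) = u * v ∧ u ∣ t ^ k ∧ IsCoprime v t := by
  induction n using Nat.strong_induction_on with
  | _ n ih =>
    by_cases hc : IsCoprime (n : ℤ) t
    · exact ⟨1, n, 0, by ring, by simp, hc⟩
    · have h1 : Int.gcd n t ≠ 1 := by
        intro h
        exact hc (Int.isCoprime_iff_gcd_eq_one.mpr h)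
      obtain ⟨p, hp, hpd⟩ := Nat.exists_prime_and_dvd h1
      have hpn : p ∣ n := by
        have := hpd.trans (Int.gcd_dvd_natAbs_left (n : ℤ) t)
        simpa using this
      have hpt : (p : ℤ) ∣ t := by
        have := hpd.trans (Int.gcd_dvd_natAbs_right (n : ℤ) t)
        exact Int.natCast_dvd.mpr this
      obtain ⟨m, rfl⟩ := hpn
      have hm : m ≠ 0 := by
        rintro rfl
        simp at hn
      have hlt : m < p * m := by
        have := hp.two_le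
        nlinarith [Nat.pos_of_ne_zero hm]
      obtain ⟨u, v, k, h1, h2, h3⟩ := ih m hlt hm
      refine ⟨p * u, v, k + 1, by push_cast; rw [h1]; ring, ?_, h3⟩
      rw [pow_succ, mul_comm (t ^ k)]
      exact mul_dvd_mul hpt h2

theorem exists_split_int (t W : ℤ) (hW : W ≠ 0) :
    ∃ (u v : ℤ) (k : ℕ), W = u * v ∧ u ∣ t ^ k ∧ IsCoprime v t := by
  obtain ⟨u, v, k, h1, h2, h3⟩ := exists_split t W.natAbs (Int.natAbs_ne_zero.mpr hW)
  rcases Int.natAbs_eq W with h | h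
  · exact ⟨u, v, k, by rw [h, h1], h2, h3⟩
  · exact ⟨-u, v, k, by rw [h, h1]; ring, (neg_dvd).mpr h2, h3⟩

theorem mem_step {s t : ℤ} {e g : SL2} (he : e ∈ Gam ((s : ℝ) / t))
    (h : e * g ∈ Gam ((s : ℝ) / t)) : g ∈ Gam ((s : ℝ) / t) :=
  (Subgroup.mul_mem_cancel_left _ he).mp h

/-- integral first column. -/
theorem mem_of_int {s t : ℤ} (hs : s ≠ 0) (ht : t ≠ 0) (hcop : IsCoprime s t)
    (hE : upper (1 / (t : ℝ)) ∈ Gam ((s : ℝ) / t))
    (hΓ : ∀ γ ∈ Gamma1 s.natAbs, toReal γ ∈ Gam ((s : ℝ) / t))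
    {g : SL2} (hg : g ∈ GamOne s t) (a w : ℤ) (ha : g.1 0 0 = a) (hw : g.1 1 0 = s * w)
    (hat : IsCoprime a t) : g ∈ Gam ((s : ℝ) / t) := by
  have ht' : (t : ℝ) ≠ 0 := by exact_mod_cast ht
  have hs' : (s : ℝ) ≠ 0 := by exact_mod_cast hs
  obtain ⟨g1, g2, g3, g4⟩ := hg
  -- coprimality
  have hcop2 : IsCoprime a (s * w) := by
    obtain ⟨D, i, hD⟩ := g1 1 1
    obtain ⟨B, j, hB⟩ := g1 0 1
    have hdet := g.2
    rw [Matrix.det_fin_two, ha, hw] at hdet
    have h1 : a * (D * t ^ j) - (s * w) * (B * t ^ i) = t ^ (i + j) := by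
      have : (a : ℝ) * (D * t ^ j) - (s * w) * (B * t ^ i) = (t : ℝ) ^ (i + j) := by
        rw [← hD, ← hB, pow_add]
        linear_combination (t : ℝ) ^ i * (t : ℝ) ^ j * hdet
      exact_mod_cast this
    obtain ⟨u, v, huv⟩ := hat.pow_right (n := i + j)
    refine ⟨u + v * (D * t ^ j), -v * (B * t ^ i), ?_⟩
    rw [← h1] at huv
    linear_combination huv
  -- congruence
  have hsa : s ∣ a - 1 := by
    obtain ⟨u, ⟨U, i, hU⟩, hu⟩ := g2
    rw [ha] at hu
    have h1 : (a - 1) * t ^ i = s * U := by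
      have : ((a : ℝ) - 1) * (t : ℝ) ^ i = s * U := by
        rw [hu, ← hU]; ring
      exact_mod_cast this
    have h2 : s ∣ (a - 1) * t ^ i := ⟨U, h1⟩
    exact (hcop.pow_right (n := i)).dvd_of_dvd_mul_right h2
  obtain ⟨d, b, hdb⟩ := hcop2
  -- `d * a + b * (s * w) = 1`
  obtain ⟨a', ha'⟩ := hsa
  have hsd : s ∣ d - 1 := by
    refine ⟨-(d * a') - b * w, ?_⟩
    have : a = 1 + s * a' := by linarith
    rw [this] at hdb
    linear_combination hdb
  set γ : Matrix.SpecialLinearGroup (Fin 2) ℤ := ⟨!![a, -b; s * w, d], by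
    rw [Matrix.det_fin_two_of]; linear_combination hdb⟩ with hγ
  have hγm : γ ∈ Gamma1 s.natAbs := by
    rw [Gamma1_mem]
    have key : ∀ n : ℤ, s ∣ n - 1 → ((n : ℤ) : ZMod s.natAbs) = 1 := by
      intro n hn
      have : ((n - 1 : ℤ) : ZMod s.natAbs) = 0 := by
        rw [ZMod.intCast_zmod_eq_zero_iff_dvd, Int.natAbs_dvd]
        exact hn
      push_cast at this
      exact sub_eq_zero.mp this
    refine ⟨key a ⟨a', ha'⟩, key d hsd, ?_⟩
    change ((s * w : ℤ) : ZMod s.natAbs) = 0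
    rw [ZMod.intCast_zmod_eq_zero_iff_dvd, Int.natAbs_dvd]
    exact dvd_mul_right _ _
  have hγR := hΓ γ hγm
  have hinv : ((toReal γ)⁻¹).1 = !![(d : ℝ), (b : ℝ); -((s : ℝ) * w), (a : ℝ)] := by
    rw [coe_inv]
    have e00 : (toReal γ).1 0 0 = a := rfl
    have e01 : (toReal γ).1 0 1 = ((-b : ℤ) : ℝ) := rfl
    have e10 : (toReal γ).1 1 0 = ((s * w : ℤ) : ℝ) := rfl
    have e11 : (toReal γ).1 1 1 = d := rfl
    rw [e00, e01, e10, e11]
    push_cast
    simp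
  have hdb' : (d : ℝ) * a + b * (s * w) = 1 := by exact_mod_cast hdb
  refine mem_of_mul ht hE ((Gam _).inv_mem hγR) g1 ?_ ?_
  · rw [mul_apply00, hinv, ha, hw]
    change (d : ℝ) * a + b * (s * w) = 1
    exact hdb'
  · rw [mul_apply10, hinv, ha, hw]
    change -((s : ℝ) * w) * a + a * (s * w) = 0
    ring

theorem mem_of_ne {s t : ℤ} (hs : s ≠ 0) (ht : t ≠ 0) (hcop : IsCoprime s t)
    (hE : upper (1 / (t : ℝ)) ∈ Gam ((s : ℝ) / t))
    (hΓ : ∀ γ ∈ Gamma1 s.natAbs, toReal γ ∈ Gam ((s : ℝ) / t))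
    {g : SL2} (hg : g ∈ GamOne s t) (hne : g.1 1 0 ≠ 0) : g ∈ Gam ((s : ℝ) / t) := by
  have ht' : (t : ℝ) ≠ 0 := by exact_mod_cast ht
  have hs' : (s : ℝ) ≠ 0 := by exact_mod_cast hs
  obtain ⟨w, hwR, hw⟩ := hg.2.2.2
  rw [sub_zero] at hw
  obtain ⟨W, j, hW⟩ := hwR.eq_div ht
  obtain ⟨A, i, hA⟩ := (hg.1 0 0).eq_div ht
  change g.1 0 0 = _ at hA
  change g.1 1 0 = _ at hw
  have hW0 : W ≠ 0 := by
    rintro rfl
    rw [hW] at hw
    apply hne
    rw [hw]; simp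
  obtain ⟨W1, W2, k, hW12, ⟨W1', hW1'⟩, hW2⟩ := exists_split_int t W hW0
  have hW10 : W1 ≠ 0 := by rintro rfl; rw [zero_mul] at hW12; exact hW0 hW12
  have hW1R : (W1 : ℝ) ≠ 0 := by exact_mod_cast hW10
  have hsW : IsCoprime (s * W2) t := hcop.mul_left hW2
  obtain ⟨v, u, hu⟩ := hsW.pow_right (n := i)
  obtain ⟨p, r, hpr⟩ := hsW
  -- `u * t ^ i + v * (s * W2) = 1`, `p * (s * W2) + r * t = 1`
  set a' : ℤ := A * u * (r * t) + p * (s * W2) with ha'
  have ha't : IsCoprime a' t := by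
    refine ⟨1, r - A * u * r, ?_⟩
    rw [ha']
    linear_combination hpr
  obtain ⟨K, hK⟩ : ∃ K, a' * t ^ i - A = s * W2 * K := by
    refine ⟨p * t ^ i - A * p * u * t ^ i - A * v, ?_⟩
    rw [ha']
    linear_combination (A * u * t ^ i) * hpr + A * hu
  set x : ℝ := ((K * t ^ j * W1' : ℤ) : ℝ) / (t : ℝ) ^ (i + k) with hx
  have hxR : InZt t x := inZt_div_pow ht _ _
  have hxe : g.1 0 0 + x * g.1 1 0 = a' := by
    rw [hw, hW, hA, hx, hW12]
    have hK' : (a' : ℝ) * (t : ℝ) ^ i - A = s * W2 * K := by exact_mod_cast hK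
    have h1' : (t : ℝ) ^ k = W1 * W1' := by exact_mod_cast hW1'
    have hti : (t : ℝ) ^ i ≠ 0 := pow_ne_zero _ ht'
    have hW1'0 : (W1' : ℝ) ≠ 0 := by
      intro h
      rw [h, mul_zero] at h1'
      exact pow_ne_zero _ ht' h1'
    rw [pow_add, h1']
    push_cast
    field_simp
    linear_combination -hK'
  set g' : SL2 := upper x * g with hg'
  have hg'1 : g' ∈ GamOne s t := gamOne_mul (upper_mem_gamOne hxR) hg
  have hg'a : g'.1 0 0 = a' := by rw [hg', upper_mul_00, hxe]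
  have hg'c : g'.1 1 0 = s * w := by rw [hg', upper_mul_10, hw]
  -- second step
  obtain ⟨v', T, hT⟩ := ha't.pow_right (n := j)
  -- `v' * a' + T * t ^ j = 1`
  set y : ℝ := ((-(W * v') : ℤ) : ℝ) / (t : ℝ) ^ j with hy
  have hyR : InZt t y := inZt_div_pow ht _ _
  set g'' : SL2 := lower (s * y) * g' with hg''
  have hg''1 : g'' ∈ GamOne s t := gamOne_mul (lower_mem_gamOne hyR) hg'1
  have hg''a : g''.1 0 0 = a' := by rw [hg'', lower_mul_00, hg'a]
  have hg''c : g''.1 1 0 = s * ((W * T : ℤ) : ℝ) := by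
    rw [hg'', lower_mul_10, hg'a, hg'c, hW, hy]
    have hT' : (v' : ℝ) * a' + T * (t : ℝ) ^ j = 1 := by exact_mod_cast hT
    have htj : (t : ℝ) ^ j ≠ 0 := pow_ne_zero _ ht'
    push_cast
    field_simp
    linear_combination -hT'
  have h1 := mem_of_int hs ht hcop hE hΓ hg''1 a' (W * T) hg''a hg''c ha't
  have h2 : g' ∈ Gam ((s : ℝ) / t) := mem_step (lower_mem_of_inZt hs ht hE hyR) h1
  exact mem_step (upper_mem_of_inZt ht hE hxR) h2

theorem gamOne_subset {s t : ℤ} (hs : s ≠ 0) (ht : t ≠ 0) (hcop : IsCoprime s t)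
    (hE : upper (1 / (t : ℝ)) ∈ Gam ((s : ℝ) / t))
    (hΓ : ∀ γ ∈ Gamma1 s.natAbs, toReal γ ∈ Gam ((s : ℝ) / t))
    {g : SL2} (hg : g ∈ GamOne s t) : g ∈ Gam ((s : ℝ) / t) := by
  by_cases hne : g.1 1 0 = 0
  · have h1 : lower ((s : ℝ) * 1) * g ∈ GamOne s t := gamOne_mul (lower_mem_gamOne inZt_one) hg
    refine mem_step (lower_mem_of_inZt hs ht hE inZt_one) (mem_of_ne hs ht hcop hE hΓ h1 ?_)
    rw [lower_mul_10, hne, add_zero, mul_one]
    have hs' : (s : ℝ) ≠ 0 := by exact_mod_cast hs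
    apply mul_ne_zero hs'
    intro h0
    have hdet := g.2
    rw [Matrix.det_fin_two, hne, h0] at hdet
    simp at hdet
  · exact mem_of_ne hs ht hcop hE hΓ hg hne

/-- The equality of the two groups, given the two membership conditions. -/
theorem gam_eq {s t : ℤ} (hs : s ≠ 0) (ht : t ≠ 0) (hcop : IsCoprime s t)
    (hE : upper (1 / (t : ℝ)) ∈ Gam ((s : ℝ) / t))
    (hΓ : ∀ γ ∈ Gamma1 s.natAbs, toReal γ ∈ Gam ((s : ℝ) / t)) :
    (Gam ((s : ℝ) / t) : Set SL2) = GamOne s t := by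
  ext g
  exact ⟨fun h => gam_subset s t ht h, fun h => gamOne_subset hs ht hcop hE hΓ h⟩

end Pool.Agent.Lib.MP_8dfcc7_al
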