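import Pool.Agent.Lib.MP_8dfcc7_al.PrimeSum
import Pool.Agent.Lib.MP_8dfcc7_al.Generate

/-!
# The equality holds for almost all denominators
-/

set_option autoImplicit false

namespace Pool.Agent.Lib.MP_8dfcc7_al

open Filter CongruenceSubgroup

theorem totient_prod_le (S : Finset ℕ) (hS : ∀ p ∈ S, p.Prime) :
    ((∏ p ∈ S, p).totient : ℝ) ≤ ((∏ p ∈ S, p : ℕ) : ℝ) * Real.exp (-∑ p ∈ S, (1 : ℝ) / p) := by
  classical
  induction S using Finset.induction_on with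
  | empty => simp
  | insert p S hp ih =>
    have hpp : p.Prime := hS p (Finset.mem_insert_self _ _)
    have hSS : ∀ q ∈ S, q.Prime := fun q hq => hS q (Finset.mem_insert_of_mem hq)
    have hcop : Nat.Coprime p (∏ q ∈ S, q) := by
      apply Nat.Coprime.prod_right
      intro q hq
      rw [Nat.coprime_primes hpp (hSS q hq)]
      rintro rfl
      exact hp hq
    rw [Finset.prod_insert hp, Finset.sum_insert hp, Nat.totient_mul hcop, Nat.totient_prime hpp]
    push_cast [hpp.one_le]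
    have h1 := ih hSS
    push_cast at h1
    have hp0 : (0 : ℝ) < p := by exact_mod_cast hpp.pos
    have h2 : (p : ℝ) - 1 ≤ p * Real.exp (-(1 / p)) := by
      have := Real.add_one_le_exp (-(1 / (p : ℝ)))
      have h3 := mul_le_mul_of_nonneg_left this hp0.le
      have h4 : (p : ℝ) * (-(1 / p) + 1) = p - 1 := by field_simp; ring
      rwa [h4] at h3
    rw [neg_add, Real.exp_add]
    have h0 : (0 : ℝ) ≤ (∏ p ∈ S, p).totient := by positivity
    calc ((p : ℝ) - 1) * (∏ p ∈ S, p).totient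
        ≤ (p * Real.exp (-(1 / p))) * (∏ p ∈ S, p).totient :=
          mul_le_mul_of_nonneg_right h2 h0
      _ ≤ (p * Real.exp (-(1 / p))) * ((∏ q ∈ S, (q : ℝ)) * Real.exp (-∑ p ∈ S, (1 : ℝ) / p)) := by
          refine mul_le_mul_of_nonneg_left h1 (by positivity)
      _ = _ := by ring

/-- A modulus made of primes of a given class, most residues of which share a factor with it. -/
theorem exists_modulus (q : ℕ) [NeZero q] (a : ZMod q) (ha : IsUnit a) (ε : ℝ) (hε : 0 < ε) :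
    ∃ Q : ℕ, Q ≠ 0 ∧ ((Q.totient : ℝ) ≤ ε * Q) ∧ ∀ p : ℕ, p.Prime → p ∣ Q → (p : ZMod q) = a := by
  classical
  have h1 := (not_summable_iff_tendsto_nat_atTop_of_nonneg
    (fun n => div_nonneg (ind_nonneg a n) (Nat.cast_nonneg n))).mp (not_summable_inv q a ha)
  obtain ⟨N, hN⟩ := (h1.eventually_ge_atTop (-Real.log ε)).exists
  set S : Finset ℕ := (Finset.range N).filter (fun n : ℕ => n.Prime ∧ (n : ZMod q) = a) with hS
  have hSp : ∀ p ∈ S, p.Prime := fun p hp => (Finset.mem_filter.mp hp).2.1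
  refine ⟨∏ p ∈ S, p, Finset.prod_ne_zero_iff.mpr (fun p hp => (hSp p hp).ne_zero), ?_, ?_⟩
  · refine (totient_prod_le S hSp).trans ?_
    rw [mul_comm]
    refine mul_le_mul_of_nonneg_right ?_ (Nat.cast_nonneg _)
    rw [← Real.exp_log hε, Real.exp_le_exp]
    have h2 : ∑ i ∈ Finset.range N, ind a i / i = ∑ p ∈ S, (1 : ℝ) / p := by
      rw [hS, Finset.sum_filter]
      refine Finset.sum_congr rfl (fun n _ => ?_)
      unfold ind
      split_ifs <;> simp
    rw [← h2]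
    linarith
  · intro p hp hpQ
    obtain ⟨r, hr, hpr⟩ := (hp.prime.dvd_finsetProd_iff _).mp hpQ
    have := (Nat.prime_dvd_prime_iff_eq hp (hSp r hr)).mp hpr
    rw [this]
    exact (Finset.mem_filter.mp hr).2.2

/-- natural density zero -/
def DZ (S : Set ℕ) : Prop :=
  Tendsto (fun N : ℕ => (((S ∩ Set.Icc 1 N).ncard : ℕ) : ℝ) / N) atTop (nhds 0)

theorem DZ.mono {S T : Set ℕ} (h : S ⊆ T) (hT : DZ T) : DZ S := by
  refine squeeze_zero (fun N => by positivity) (fun N => ?_) hT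
  refine div_le_div_of_nonneg_right ?_ (Nat.cast_nonneg _)
  have : (S ∩ Set.Icc 1 N).ncard ≤ (T ∩ Set.Icc 1 N).ncard :=
    Set.ncard_le_ncard (Set.inter_subset_inter_left _ h) ((Set.finite_Icc 1 N).inter_of_right _)
  exact_mod_cast this

theorem DZ.union {S T : Set ℕ} (hS : DZ S) (hT : DZ T) : DZ (S ∪ T) := by
  have h := hS.add hT
  rw [add_zero] at h
  refine squeeze_zero (fun N => by positivity) (fun N => ?_) h
  rw [← add_div]
  refine div_le_div_of_nonneg_right ?_ (Nat.cast_nonneg _)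
  have : ((S ∪ T) ∩ Set.Icc 1 N).ncard ≤ (S ∩ Set.Icc 1 N).ncard + (T ∩ Set.Icc 1 N).ncard := by
    rw [Set.union_inter_distrib_right]
    exact Set.ncard_union_le _ _
  exact_mod_cast this

theorem DZ.empty : DZ ∅ := by
  unfold DZ
  simp

theorem DZ.biUnion {ι : Type*} (I : Set ι) (hI : I.Finite) (S : ι → Set ℕ) (h : ∀ i ∈ I, DZ (S i)) :
    DZ (⋃ i ∈ I, S i) := by
  induction I, hI using Set.Finite.induction_on with
  | empty => simpa using DZ.empty
  | insert ha hs ih =>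
    rw [Set.biUnion_insert]
    exact (h _ (Set.mem_insert _ _)).union (ih (fun i hi => h i (Set.mem_insert_of_mem _ hi)))

/-- Almost all shifted integers have a prime divisor in a given class. -/
theorem dz_prime (q : ℕ) [NeZero q] (a : ZMod q) (ha : IsUnit a) (b : ℤ) :
    DZ {t : ℕ | ∀ l : ℕ, l.Prime → (l : ZMod q) = a → ¬ (l : ℤ) ∣ (t : ℤ) - b} := by
  classical
  unfold DZ
  rw [Metric.tendsto_atTop]
  intro δ hδ
  obtain ⟨Q, hQ0, hQt, hQp⟩ := exists_modulus q a ha (δ / 2) (by positivity)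
  set c : ℕ := ((-b) % (Q : ℤ)).toNat with hc
  have hcb : (Q : ℤ) ∣ (c : ℤ) + b := by
    rw [hc, Int.toNat_of_nonneg (Int.emod_nonneg _ (by exact_mod_cast hQ0))]
    have := Int.emod_add_mul_ediv (-b) Q
    exact ⟨-((-b) / Q), by linear_combination this⟩
  have hcount : ∀ N : ℕ, ((({t : ℕ | ∀ l : ℕ, l.Prime → (l : ZMod q) = a → ¬ (l : ℤ) ∣ (t : ℤ) - b} ∩
      Set.Icc 1 N).ncard : ℕ) : ℝ) ≤ δ / 2 * N + (Q.totient : ℝ) := by
    intro N
    have hsub : ({t : ℕ | ∀ l : ℕ, l.Prime → (l : ZMod q) = a → ¬ (l : ℤ) ∣ (t : ℤ) - b} ∩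
      Set.Icc 1 N) ⊆
        ((((Finset.Ico (1 + c) (1 + c + N)).filter (fun x => Q.Coprime x)).image (fun x => x - c) :
          Finset ℕ) : Set ℕ) := by
      rintro t ⟨hbad, ht1, htN⟩
      rw [Finset.mem_coe, Finset.mem_image]
      refine ⟨t + c, ?_, by omega⟩
      rw [Finset.mem_filter, Finset.mem_Ico]
      refine ⟨by omega, ?_⟩
      by_contra hnc
      obtain ⟨p, hp, hpQ, hpt⟩ := Nat.Prime.not_coprime_iff_dvd.mp hnc
      refine hbad p hp (hQp p hp hpQ) ?_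
      have h1 : (p : ℤ) ∣ (c : ℤ) + b := (Int.natCast_dvd_natCast.mpr hpQ).trans hcb
      have h2 : (p : ℤ) ∣ ((t + c : ℕ) : ℤ) := Int.natCast_dvd_natCast.mpr hpt
      have h3 := dvd_sub h2 h1
      have e : ((t + c : ℕ) : ℤ) - ((c : ℤ) + b) = (t : ℤ) - b := by push_cast; ring
      rwa [e] at h3
    have h1 := Set.ncard_le_ncard hsub (Finset.finite_toSet _)
    rw [Set.ncard_coe_finset] at h1
    have h2 : (((Finset.Ico (1 + c) (1 + c + N)).filter (fun x => Q.Coprime x)).image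
        (fun x => x - c)).card ≤ Q.totient * (N / Q + 1) :=
      Finset.card_image_le.trans (Nat.Ico_filter_coprime_le (1 + c) N hQ0)
    have h7 : ((({t : ℕ | ∀ l : ℕ, l.Prime → (l : ZMod q) = a → ¬ (l : ℤ) ∣ (t : ℤ) - b} ∩
        Set.Icc 1 N).ncard : ℕ) : ℝ) ≤ Q.totient * (((N / Q : ℕ) : ℝ) + 1) := by
      exact_mod_cast h1.trans h2
    have h8 : ((N / Q : ℕ) : ℝ) ≤ (N : ℝ) / Q := Nat.cast_div_le
    have h9 : (0 : ℝ) < Q := by exact_mod_cast Nat.pos_of_ne_zero hQ0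
    have h10 : (Q.totient : ℝ) * ((N : ℝ) / Q) ≤ δ / 2 * N := by
      rw [mul_div_assoc', div_le_iff₀ h9]
      have := mul_le_mul_of_nonneg_right hQt (Nat.cast_nonneg (α := ℝ) N)
      linarith
    have h11 : (0 : ℝ) ≤ Q.totient := Nat.cast_nonneg _
    calc _ ≤ _ := h7
      _ ≤ Q.totient * ((N : ℝ) / Q + 1) := mul_le_mul_of_nonneg_left (by linarith) h11
      _ = Q.totient * ((N : ℝ) / Q) + Q.totient := by ring
      _ ≤ _ := by linarith
  obtain ⟨N₀, hN₀⟩ := exists_nat_gt (2 * (Q.totient : ℝ) / δ)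
  refine ⟨N₀ + 1, fun N hN => ?_⟩
  have hNpos : (0 : ℝ) < N := by
    have : 0 < N := by omega
    exact_mod_cast this
  rw [Real.dist_eq, sub_zero, abs_of_nonneg (by positivity), div_lt_iff₀ hNpos]
  refine lt_of_le_of_lt (hcount N) ?_
  have h1 : 2 * (Q.totient : ℝ) / δ < N := lt_of_lt_of_le hN₀ (by exact_mod_cast (by omega : N₀ ≤ N))
  rw [div_lt_iff₀ hδ] at h1
  linarith

theorem isUnit_intCast {n : ℕ} {a : ℤ} (h : IsCoprime a (n : ℤ)) : IsUnit ((a : ℤ) : ZMod n) := by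
  obtain ⟨u, v, huv⟩ := h
  have : ((u * a + v * n : ℤ) : ZMod n) = 1 := by rw [huv]; simp
  push_cast at this
  rw [ZMod.natCast_self, mul_zero, add_zero] at this
  exact IsUnit.of_mul_eq_one_right _ this

/-- The unipotent matrix with entry `1/t` lies in the group for almost all `t`. -/
theorem dz_upper (s : ℤ) (hs : s ≠ 0) :
    DZ {t : ℕ | 1 ≤ t ∧ IsCoprime s (t : ℤ) ∧
      upper (1 / (((t : ℕ) : ℤ) : ℝ)) ∉ Gam ((s : ℝ) / ((t : ℕ) : ℤ))} := by
  classical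
  by_cases h1 : s.natAbs = 1
  · refine DZ.empty.mono ?_
    rintro t ⟨ht1, hcop, hbad⟩
    exfalso
    apply hbad
    have hs2 : s * s = 1 := by
      rw [← Int.natAbs_mul_self, h1]; norm_num
    have ht : (t : ℤ) ≠ 0 := by omega
    apply upper_inv_mem s t (s * (t + 1)) (-(t + 1)) ht (by omega)
    linear_combination (t + 1 : ℤ) * (t + 1) * hs2
  · have hq0 : NeZero s.natAbs := ⟨Int.natAbs_ne_zero.mpr hs⟩
    have hU : DZ (⋃ a ∈ (Set.univ : Set (ZMod s.natAbs)ˣ),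
        {t : ℕ | ∀ l : ℕ, l.Prime → (l : ZMod s.natAbs) = (a : ZMod s.natAbs) →
          ¬ (l : ℤ) ∣ (t : ℤ) - (-1)}) :=
      DZ.biUnion _ Set.finite_univ _ (fun a _ => dz_prime _ _ a.isUnit _)
    refine hU.mono ?_
    rintro t ⟨ht1, hcop, hbad⟩
    have hu : IsUnit ((t : ℕ) : ZMod s.natAbs) := by
      have h2 : IsCoprime (t : ℤ) ((s.natAbs : ℕ) : ℤ) := by
        rw [Int.natCast_natAbs]
        exact (hcop.symm.abs_right)
      have := isUnit_intCast h2
      rwa [Int.cast_natCast] at this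
    obtain ⟨a, ha⟩ := hu
    rw [Set.mem_iUnion₂]
    refine ⟨a, Set.mem_univ _, ?_⟩
    intro p hp hpa hpt
    apply hbad
    rw [ha] at hpa
    have h2 : (s : ℤ) ∣ (t : ℤ) - p := by
      rw [← Int.natAbs_dvd, ← ZMod.intCast_zmod_eq_zero_iff_dvd]
      push_cast
      rw [hpa, sub_self]
    obtain ⟨n, hn⟩ := h2
    obtain ⟨k, hk⟩ := hpt
    have ht : (t : ℤ) ≠ 0 := by omega
    have hk1 : k ≠ 1 := by
      rintro rfl
      apply h1
      have : s * (-n) = 1 := by linear_combination hn - hk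
      exact Int.isUnit_iff_natAbs_eq.mp (IsUnit.of_mul_eq_one _ this)
    apply upper_inv_mem s t n k ht hk1
    rw [← hn]
    linear_combination -hk

/-- A given element of `Γ_1(s)` lies in the group for almost all `t` for which the unipotent
matrix with entry `1/t` does. -/
theorem dz_elt (s : ℤ) (hs : s ≠ 0) (γ : Matrix.SpecialLinearGroup (Fin 2) ℤ)
    (hγ : γ ∈ Gamma1 s.natAbs) :
    DZ {t : ℕ | 1 ≤ t ∧ IsCoprime s (t : ℤ) ∧
      upper (1 / (((t : ℕ) : ℤ) : ℝ)) ∈ Gam ((s : ℝ) / ((t : ℕ) : ℤ)) ∧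
      toReal γ ∉ Gam ((s : ℝ) / ((t : ℕ) : ℤ))} := by
  classical
  rw [Gamma1_mem] at hγ
  obtain ⟨h00, -, h10⟩ := hγ
  have hw : s ∣ γ.1 1 0 := by
    rw [← Int.natAbs_dvd, ← ZMod.intCast_zmod_eq_zero_iff_dvd]
    exact h10
  have ha : s ∣ γ.1 0 0 - 1 := by
    rw [← Int.natAbs_dvd, ← ZMod.intCast_zmod_eq_zero_iff_dvd]
    push_cast
    rw [h00, sub_self]
  obtain ⟨w, hw⟩ := hw
  obtain ⟨a', ha'⟩ := ha
  set a : ℤ := γ.1 0 0 with haa
  have hdet := γ.2
  rw [Matrix.det_fin_two, ← haa, hw] at hdet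
  obtain ⟨κ, hκ⟩ : ∃ κ : ℤ, w + κ * a ≠ 0 := by
    by_cases h : w = 0
    · refine ⟨1, ?_⟩
      rw [h, zero_add, one_mul]
      rintro h0
      rw [h, h0] at hdet
      simp at hdet
    · exact ⟨0, by simpa using h⟩
  set w' : ℤ := w + κ * a with hw'
  have hq : s * w' ≠ 0 := mul_ne_zero hs hκ
  have hq0 : NeZero (s * w').natAbs := ⟨Int.natAbs_ne_zero.mpr hq⟩
  have hcop : IsCoprime a (((s * w').natAbs : ℕ) : ℤ) := by
    rw [Int.natCast_natAbs]
    apply IsCoprime.abs_right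
    refine ⟨γ.1 1 1 + γ.1 0 1 * s * κ, -γ.1 0 1, ?_⟩
    rw [hw']
    linear_combination hdet
  refine (dz_prime (s * w').natAbs ((a : ℤ) : ZMod _) (isUnit_intCast hcop) w').mono ?_
  rintro t ⟨ht1, hst, hE, hbad⟩ l hl hla hlt
  apply hbad
  have ht : (t : ℤ) ≠ 0 := by omega
  have h2 : s * w' ∣ (l : ℤ) - a := by
    rw [← Int.natAbs_dvd, ← ZMod.intCast_zmod_eq_zero_iff_dvd]
    push_cast
    rw [hla, sub_self]
  obtain ⟨x, hx⟩ := h2
  obtain ⟨y, hy⟩ := hlt
  have hz : (1 : ℤ) - l = s * (-(a' + x * w')) := by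
    linear_combination -hx - ha'
  have hmem : lower ((s : ℝ) * ((κ : ℤ) : ℝ)) * toReal γ ∈ Gam ((s : ℝ) / ((t : ℕ) : ℤ)) := by
    refine mem_of_cond hs ht hE ?_ a w' l x y (-(a' + x * w')) ?_ ?_ ?_ ?_ hz
    · intro i j
      change InZt t (((lower ((s : ℝ) * ((κ : ℤ) : ℝ))).1 * (toReal γ).1) i j)
      rw [Matrix.mul_apply, Fin.sum_univ_two]
      have hγR : ∀ i j, InZt t ((toReal γ).1 i j) := fun i j => by
        rw [toReal_apply]; exact inZt_int _
      have hlR : ∀ i j, InZt t ((lower ((s : ℝ) * ((κ : ℤ) : ℝ))).1 i j) := 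
        (lower_mem_gamOne (s := s) (inZt_int κ)).1
      exact ((hlR _ _).mul (hγR _ _)).add ((hlR _ _).mul (hγR _ _))
    · rw [lower_mul_00, toReal_apply]
    · rw [lower_mul_10, toReal_apply, toReal_apply, hw, hw', haa]
      push_cast
      ring
    · linear_combination hx
    · linear_combination hy
  exact mem_step (lower_mem_of_inZt hs ht hE (inZt_int κ)) hmem

/-- The main theorem: for a fixed numerator `s`, the equality holds for almost all `t`. -/
theorem dz_main (s : ℤ) (hs : s ≠ 0) :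
    DZ {t : ℕ | 1 ≤ t ∧ IsCoprime s (t : ℤ) ∧
      (Gam ((s : ℝ) / ((t : ℕ) : ℤ)) : Set SL2) ≠ GamOne s t} := by
  classical
  have hq0 : NeZero s.natAbs := ⟨Int.natAbs_ne_zero.mpr hs⟩
  have hfgSL : Group.FG (Matrix.SpecialLinearGroup (Fin 2) ℤ) := by
    rw [Group.fg_iff]
    exact ⟨_, SpecialLinearGroup.SL2Z_generators, by simp⟩
  have hfg : Group.FG (Gamma1 s.natAbs) := inferInstance
  rw [Group.fg_iff_subgroup_fg] at hfg
  obtain ⟨S, hS⟩ := hfg
  have hSm : ∀ γ ∈ S, γ ∈ Gamma1 s.natAbs := by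
    intro γ hγ
    rw [← hS]
    exact Subgroup.subset_closure hγ
  have h1 : DZ (⋃ γ ∈ (S : Set (Matrix.SpecialLinearGroup (Fin 2) ℤ)),
      {t : ℕ | 1 ≤ t ∧ IsCoprime s (t : ℤ) ∧
        upper (1 / (((t : ℕ) : ℤ) : ℝ)) ∈ Gam ((s : ℝ) / ((t : ℕ) : ℤ)) ∧
        toReal γ ∉ Gam ((s : ℝ) / ((t : ℕ) : ℤ))}) :=
    DZ.biUnion _ (Finset.finite_toSet S) _ (fun γ hγ => dz_elt s hs γ (hSm γ hγ))
  refine ((dz_upper s hs).union h1).mono ?_
  rintro t ⟨ht1, hcop, hne⟩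
  by_contra hnot
  rw [Set.mem_union, not_or, Set.mem_iUnion₂] at hnot
  obtain ⟨n1, n2⟩ := hnot
  have ht : ((t : ℕ) : ℤ) ≠ 0 := by omega
  have hE : upper (1 / (((t : ℕ) : ℤ) : ℝ)) ∈ Gam ((s : ℝ) / ((t : ℕ) : ℤ)) := by
    by_contra h
    exact n1 ⟨ht1, hcop, h⟩
  apply hne
  refine gam_eq hs ht hcop hE ?_
  have h2 : Gamma1 s.natAbs ≤ (Gam ((s : ℝ) / ((t : ℕ) : ℤ))).comap toReal := by
    rw [← hS, Subgroup.closure_le]
    intro γ hγ
    by_contra h
    exact n2 ⟨γ, hγ, ht1, hcop, hE, h⟩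
  exact fun γ hγ => h2 hγ

end Pool.Agent.Lib.MP_8dfcc7_al
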