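import Pool.Agent.Lib.MP_8dfcc7_al.Criterion

/-!
# From elementary matrices to the full congruence group
-/

set_option autoImplicit false

namespace Pool.Agent.Lib.MP_8dfcc7_al

open Matrix CongruenceSubgroup

section InZt

variable {t : ℤ}

theorem inZt_int (n : ℤ) : InZt t (n : ℝ) := ⟨n, 0, by simp⟩

theorem inZt_zero : InZt t 0 := ⟨0, 0, by simp⟩

theorem inZt_one : InZt t 1 := ⟨1, 0, by simp⟩

theorem InZt.add {x y : ℝ} (hx : InZt t x) (hy : InZt t y) : InZt t (x + y) := by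
  obtain ⟨a, i, ha⟩ := hx
  obtain ⟨b, j, hb⟩ := hy
  refine ⟨a * t ^ j + b * t ^ i, i + j, ?_⟩
  push_cast
  rw [← ha, ← hb, pow_add]; ring

theorem InZt.mul {x y : ℝ} (hx : InZt t x) (hy : InZt t y) : InZt t (x * y) := by
  obtain ⟨a, i, ha⟩ := hx
  obtain ⟨b, j, hb⟩ := hy
  refine ⟨a * b, i + j, ?_⟩
  push_cast
  rw [← ha, ← hb, pow_add]; ring

theorem InZt.neg {x : ℝ} (hx : InZt t x) : InZt t (-x) := by
  obtain ⟨a, i, ha⟩ := hx
  exact ⟨-a, i, by push_cast; rw [← ha]; ring⟩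

theorem InZt.sub {x y : ℝ} (hx : InZt t x) (hy : InZt t y) : InZt t (x - y) := by
  rw [sub_eq_add_neg]; exact hx.add hy.neg

theorem inZt_div_pow (ht : t ≠ 0) (a : ℤ) (j : ℕ) : InZt t ((a : ℝ) / (t : ℝ) ^ j) := by
  have ht' : (t : ℝ) ≠ 0 := by exact_mod_cast ht
  exact ⟨a, j, by field_simp⟩

theorem InZt.eq_div (ht : t ≠ 0) {x : ℝ} (hx : InZt t x) :
    ∃ (a : ℤ) (j : ℕ), x = (a : ℝ) / (t : ℝ) ^ j := by
  have ht' : (t : ℝ) ≠ 0 := by exact_mod_cast ht
  obtain ⟨a, j, h⟩ := hx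
  exact ⟨a, j, by rw [← h]; field_simp⟩

variable {s : ℤ}

theorem CongMod.symm {x y : ℝ} (h : CongMod s t x y) : CongMod s t y x := by
  obtain ⟨u, hu, h⟩ := h
  exact ⟨-u, hu.neg, by linear_combination -h⟩

theorem CongMod.refl (x : ℝ) : CongMod s t x x := ⟨0, inZt_zero, by ring⟩

theorem CongMod.trans {x y z : ℝ} (h : CongMod s t x y) (h' : CongMod s t y z) :
    CongMod s t x z := by
  obtain ⟨u, hu, h⟩ := h
  obtain ⟨v, hv, h'⟩ := h'
  exact ⟨u + v, hu.add hv, by linear_combination h + h'⟩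

theorem CongMod.add {x y x' y' : ℝ} (h : CongMod s t x y) (h' : CongMod s t x' y') :
    CongMod s t (x + x') (y + y') := by
  obtain ⟨u, hu, h⟩ := h
  obtain ⟨v, hv, h'⟩ := h'
  exact ⟨u + v, hu.add hv, by linear_combination h + h'⟩

theorem CongMod.mul {x y x' y' : ℝ} (h : CongMod s t x y) (h' : CongMod s t x' y')
    (hx : InZt t x) (hy' : InZt t y') : CongMod s t (x * x') (y * y') := by
  obtain ⟨u, hu, h⟩ := h
  obtain ⟨v, hv, h'⟩ := h'
  exact ⟨x * v + u * y', (hx.mul hv).add (hu.mul hy'), by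
    linear_combination x * h' + y' * h⟩

theorem CongMod.neg {x y : ℝ} (h : CongMod s t x y) : CongMod s t (-x) (-y) := by
  obtain ⟨u, hu, h⟩ := h
  exact ⟨-u, hu.neg, by linear_combination -h⟩

end InZt

theorem mul_apply00 (g h : SL2) : (g * h).1 0 0 = g.1 0 0 * h.1 0 0 + g.1 0 1 * h.1 1 0 := by
  change (g.1 * h.1) 0 0 = _
  rw [Matrix.mul_apply, Fin.sum_univ_two]

theorem mul_apply01 (g h : SL2) : (g * h).1 0 1 = g.1 0 0 * h.1 0 1 + g.1 0 1 * h.1 1 1 := by
  change (g.1 * h.1) 0 1 = _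
  rw [Matrix.mul_apply, Fin.sum_univ_two]

theorem mul_apply10 (g h : SL2) : (g * h).1 1 0 = g.1 1 0 * h.1 0 0 + g.1 1 1 * h.1 1 0 := by
  change (g.1 * h.1) 1 0 = _
  rw [Matrix.mul_apply, Fin.sum_univ_two]

theorem mul_apply11 (g h : SL2) : (g * h).1 1 1 = g.1 1 0 * h.1 0 1 + g.1 1 1 * h.1 1 1 := by
  change (g.1 * h.1) 1 1 = _
  rw [Matrix.mul_apply, Fin.sum_univ_two]

theorem gamOne_mul {s t : ℤ} {g h : SL2} (hg : g ∈ GamOne s t) (hh : h ∈ GamOne s t) :
    g * h ∈ GamOne s t := by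
  obtain ⟨g1, g2, g3, g4⟩ := hg
  obtain ⟨h1, h2, h3, h4⟩ := hh
  refine ⟨?_, ?_, ?_, ?_⟩
  · intro i j
    change InZt t ((g.1 * h.1) i j)
    rw [Matrix.mul_apply, Fin.sum_univ_two]
    exact ((g1 _ _).mul (h1 _ _)).add ((g1 _ _).mul (h1 _ _))
  · change CongMod s t ((g * h).1 0 0) 1
    rw [mul_apply00]
    have e1 := g2.mul h2 (g1 0 0) inZt_one
    have e2 := (CongMod.refl (s := s) (t := t) (g.1 0 1)).mul h4 (g1 0 1) inZt_zero
    have := e1.add e2
    rwa [mul_one, mul_zero, add_zero] at this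
  · change CongMod s t ((g * h).1 1 1) 1
    rw [mul_apply11]
    have e1 := g3.mul h3 (g1 1 1) inZt_one
    have e2 := g4.mul (CongMod.refl (s := s) (t := t) (h.1 0 1)) (g1 1 0) (h1 0 1)
    have := e2.add e1
    rwa [mul_one, zero_mul, zero_add] at this
  · change CongMod s t ((g * h).1 1 0) 0
    rw [mul_apply10]
    have e1 := g4.mul h2 (g1 1 0) inZt_one
    have e2 := g3.mul h4 (g1 1 1) inZt_zero
    have := e1.add e2
    rwa [mul_one, one_mul, add_zero] at this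

theorem coe_inv (g : SL2) : (g⁻¹).1 = !![g.1 1 1, -g.1 0 1; -g.1 1 0, g.1 0 0] := by
  rw [Matrix.SpecialLinearGroup.coe_inv, Matrix.adjugate_fin_two]

theorem gamOne_inv {s t : ℤ} {g : SL2} (hg : g ∈ GamOne s t) : g⁻¹ ∈ GamOne s t := by
  obtain ⟨g1, g2, g3, g4⟩ := hg
  have e := coe_inv g
  refine ⟨?_, ?_, ?_, ?_⟩
  · intro i j
    rw [e]
    fin_cases i <;> fin_cases j
    · exact g1 1 1
    · exact (g1 0 1).neg
    · exact (g1 1 0).neg
    · exact g1 0 0
  · change CongMod s t ((g⁻¹).1 0 0) 1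
    rw [e]; exact g3
  · change CongMod s t ((g⁻¹).1 1 1) 1
    rw [e]; exact g2
  · change CongMod s t ((g⁻¹).1 1 0) 0
    rw [e]
    have := g4.neg
    rwa [neg_zero] at this

theorem upper_mem_gamOne {s t : ℤ} {x : ℝ} (hx : InZt t x) : upper x ∈ GamOne s t := by
  refine ⟨?_, ?_, ?_, ?_⟩
  · intro i j
    rw [coe_upper]
    fin_cases i <;> fin_cases j
    · exact inZt_one
    · exact hx
    · exact inZt_zero
    · exact inZt_one
  · rw [coe_upper]; exact CongMod.refl _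
  · rw [coe_upper]; exact CongMod.refl _
  · rw [coe_upper]; exact CongMod.refl _

theorem lower_mem_gamOne {s t : ℤ} {x : ℝ} (hx : InZt t x) : lower (s * x) ∈ GamOne s t := by
  refine ⟨?_, ?_, ?_, ?_⟩
  · intro i j
    rw [coe_lower]
    fin_cases i <;> fin_cases j
    · exact inZt_one
    · exact inZt_zero
    · exact (inZt_int s).mul hx
    · exact inZt_one
  · rw [coe_lower]; exact CongMod.refl _
  · rw [coe_lower]; exact CongMod.refl _
  · rw [coe_lower]
    exact ⟨x, hx, by change (s : ℝ) * x - 0 = _; ring⟩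

/-- The known inclusion. -/
theorem gam_subset (s t : ℤ) (ht : t ≠ 0) {g : SL2} (hg : g ∈ Gam ((s : ℝ) / t)) :
    g ∈ GamOne s t := by
  have ht' : (t : ℝ) ≠ 0 := by exact_mod_cast ht
  unfold Gam at hg
  induction hg using Subgroup.closure_induction with
  | mem x hx =>
    rcases hx with rfl | rfl
    · exact upper_mem_gamOne inZt_one
    · have : (s : ℝ) / t = s * (((1 : ℤ) : ℝ) / (t : ℝ) ^ 1) := by
        rw [pow_one]; push_cast; ring
      rw [this]
      exact lower_mem_gamOne (inZt_div_pow ht 1 1)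
  | one =>
    rw [← upper_zero]
    exact upper_mem_gamOne inZt_zero
  | mul x y _ _ hx hy => exact gamOne_mul hx hy
  | inv x _ hx => exact gamOne_inv hx

/-- A matrix with first column `(1, 0)` is upper unipotent. -/
theorem eq_upper (g : SL2) (h0 : g.1 0 0 = 1) (h1 : g.1 1 0 = 0) : g = upper (g.1 0 1) := by
  have hdet := g.2
  rw [Matrix.det_fin_two, h0, h1] at hdet
  apply sl_ext
  rw [coe_upper]
  ext i j
  fin_cases i <;> fin_cases j
  · exact h0
  · rfl
  · exact h1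
  · change g.1 1 1 = 1
    linarith

theorem lower_mul_00 (y : ℝ) (g : SL2) : (lower y * g).1 0 0 = g.1 0 0 := by
  rw [mul_apply00, coe_lower]; simp

theorem lower_mul_01 (y : ℝ) (g : SL2) : (lower y * g).1 0 1 = g.1 0 1 := by
  rw [mul_apply01, coe_lower]; simp

theorem lower_mul_10 (y : ℝ) (g : SL2) : (lower y * g).1 1 0 = y * g.1 0 0 + g.1 1 0 := by
  rw [mul_apply10, coe_lower]; simp

theorem upper_mul_00 (y : ℝ) (g : SL2) : (upper y * g).1 0 0 = g.1 0 0 + y * g.1 1 0 := by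
  rw [mul_apply00, coe_upper]; simp

theorem upper_mul_10 (y : ℝ) (g : SL2) : (upper y * g).1 1 0 = g.1 1 0 := by
  rw [mul_apply10, coe_upper]; simp

/-- Membership of an upper unipotent matrix with entry in `ℤ[1/t]`. -/
theorem upper_mem_of_inZt {s t : ℤ} (ht : t ≠ 0) (hE : upper (1 / (t : ℝ)) ∈ Gam ((s : ℝ) / t))
    {x : ℝ} (hx : InZt t x) : upper x ∈ Gam ((s : ℝ) / t) := by
  obtain ⟨a, j, rfl⟩ := hx.eq_div ht
  exact upper_pow_mem s t ht hE a j

theorem lower_mem_of_inZt {s t : ℤ} (hs : s ≠ 0) (ht : t ≠ 0)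
    (hE : upper (1 / (t : ℝ)) ∈ Gam ((s : ℝ) / t))
    {x : ℝ} (hx : InZt t x) : lower (s * x) ∈ Gam ((s : ℝ) / t) := by
  obtain ⟨a, j, rfl⟩ := hx.eq_div ht
  exact lower_pow_mem s t hs ht hE a j

/-- If some product of elements of the group with `g` has first column `(1, 0)`, then `g` lies in
the group. -/
theorem mem_of_mul {s t : ℤ} (ht : t ≠ 0)
    (hE : upper (1 / (t : ℝ)) ∈ Gam ((s : ℝ) / t)) {e g : SL2} (he : e ∈ Gam ((s : ℝ) / t))
    (hg : ∀ i j : Fin 2, InZt t (g.1 i j)) (h0 : (e * g).1 0 0 = 1) (h1 : (e * g).1 1 0 = 0) :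
    g ∈ Gam ((s : ℝ) / t) := by
  have h2 : e * g ∈ Gam ((s : ℝ) / t) := by
    rw [eq_upper (e * g) h0 h1]
    apply upper_mem_of_inZt ht hE
    rw [mul_apply01]
    have he' := (gam_subset s t ht he).1
    exact ((he' 0 0).mul (hg 0 1)).add ((he' 0 1).mul (hg 1 1))
  exact (Subgroup.mul_mem_cancel_left _ he).mp h2

/-- The condition for an element of `Γ_1(s)`. -/
theorem mem_of_cond {s t : ℤ} (hs : s ≠ 0) (ht : t ≠ 0)
    (hE : upper (1 / (t : ℝ)) ∈ Gam ((s : ℝ) / t)) {g : SL2}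
    (hg : ∀ i j : Fin 2, InZt t (g.1 i j)) (a w l x y z : ℤ)
    (ha : g.1 0 0 = a) (hw : g.1 1 0 = s * w) (hl : l = a + x * (s * w))
    (hy : t - w = y * l) (hz : 1 - l = s * z) : g ∈ Gam ((s : ℝ) / t) := by
  have ht' : (t : ℝ) ≠ 0 := by exact_mod_cast ht
  have hl' : (l : ℝ) = a + x * (s * w) := by exact_mod_cast hl
  have hy' : (t : ℝ) - w = y * l := by exact_mod_cast hy
  have hz' : (1 : ℝ) - l = s * z := by exact_mod_cast hz
  set e : SL2 := lower (s * (-t : ℤ)) * (upper ((z : ℝ) / (t : ℝ) ^ 1) *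
    (lower (s * (y : ℤ)) * upper ((x : ℤ) : ℝ))) with he
  have hmem : e ∈ Gam ((s : ℝ) / t) := by
    rw [he]
    refine (Gam _).mul_mem (lower_mem_of_inZt hs ht hE (inZt_int _)) ?_
    refine (Gam _).mul_mem (upper_mem_of_inZt ht hE (inZt_div_pow ht z 1)) ?_
    refine (Gam _).mul_mem (lower_mem_of_inZt hs ht hE (inZt_int _)) ?_
    exact upper_int_mem _ x
  have c00 : (e * g).1 0 0 = 1 := by
    rw [he]
    simp only [mul_assoc]
    rw [lower_mul_00, upper_mul_00, lower_mul_00, lower_mul_10, upper_mul_00, upper_mul_10, ha, hw,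
      ← hl', pow_one]
    field_simp
    linear_combination (-(s * z) : ℝ) * hy' - (t : ℝ) * hz'
  have c10 : (e * g).1 1 0 = 0 := by
    have h1 := c00
    rw [he] at h1 ⊢
    simp only [mul_assoc] at h1 ⊢
    rw [lower_mul_00] at h1
    rw [lower_mul_10, h1, upper_mul_10, lower_mul_10, upper_mul_00, upper_mul_10, ha, hw, ← hl']
    push_cast
    linear_combination (-s : ℝ) * hy'
  exact mem_of_mul ht hE hmem hg c00 c10

end Pool.Agent.Lib.MP_8dfcc7_al
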