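import Pool.Agent.Lib.MP_8dfcc7_al.Defs

/-!
# Words in the two generators
-/

set_option autoImplicit false

namespace Pool.Agent.Lib.MP_8dfcc7_al

theorem coe_upper (x : ℝ) : (upper x : Matrix (Fin 2) (Fin 2) ℝ) = !![1, x; 0, 1] := rfl

theorem coe_lower (x : ℝ) : (lower x : Matrix (Fin 2) (Fin 2) ℝ) = !![1, 0; x, 1] := rfl

theorem sl_ext {g h : SL2}
    (H : (g : Matrix (Fin 2) (Fin 2) ℝ) = (h : Matrix (Fin 2) (Fin 2) ℝ)) : g = h :=
  Subtype.ext H

theorem upper_mul (x y : ℝ) : upper x * upper y = upper (x + y) := by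
  apply sl_ext
  rw [Matrix.SpecialLinearGroup.coe_mul, coe_upper, coe_upper, coe_upper]
  simp [add_comm]

theorem lower_mul (x y : ℝ) : lower x * lower y = lower (x + y) := by
  apply sl_ext
  rw [Matrix.SpecialLinearGroup.coe_mul, coe_lower, coe_lower, coe_lower]
  simp

theorem upper_zero : upper 0 = 1 := by
  apply Subtype.ext
  ext i j
  fin_cases i <;> fin_cases j <;> simp [upper]

theorem lower_zero : lower 0 = 1 := by
  apply Subtype.ext
  ext i j
  fin_cases i <;> fin_cases j <;> simp [lower]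

/-- `upper` as a homomorphism. -/
def upperHom : Multiplicative ℝ →* SL2 where
  toFun x := upper x.toAdd
  map_one' := upper_zero
  map_mul' _ _ := (upper_mul _ _).symm

/-- `lower` as a homomorphism. -/
def lowerHom : Multiplicative ℝ →* SL2 where
  toFun x := lower x.toAdd
  map_one' := lower_zero
  map_mul' _ _ := (lower_mul _ _).symm

theorem upper_zpow (x : ℝ) (n : ℤ) : upper x ^ n = upper (n * x) := by
  have h := map_zpow upperHom (Multiplicative.ofAdd x) n
  have h2 : (Multiplicative.ofAdd x) ^ n = Multiplicative.ofAdd (n * x) := by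
    rw [← ofAdd_zsmul, zsmul_eq_mul]
  rw [h2] at h
  exact h.symm

theorem lower_zpow (x : ℝ) (n : ℤ) : lower x ^ n = lower (n * x) := by
  have h := map_zpow lowerHom (Multiplicative.ofAdd x) n
  have h2 : (Multiplicative.ofAdd x) ^ n = Multiplicative.ofAdd (n * x) := by
    rw [← ofAdd_zsmul, zsmul_eq_mul]
  rw [h2] at h
  exact h.symm

theorem upper_int_mem (q : ℝ) (n : ℤ) : upper n ∈ Gam q := by
  have h : upper 1 ∈ Gam q := Subgroup.subset_closure (by simp)
  have := (Gam q).zpow_mem h n
  rwa [upper_zpow, mul_one] at this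

theorem lower_int_mem (q : ℝ) (n : ℤ) : lower (n * q) ∈ Gam q := by
  have h : lower q ∈ Gam q := Subgroup.subset_closure (by simp)
  have := (Gam q).zpow_mem h n
  rwa [lower_zpow] at this

theorem upper_mem_zpow (q x : ℝ) (h : upper x ∈ Gam q) (n : ℤ) : upper (n * x) ∈ Gam q := by
  have := (Gam q).zpow_mem h n
  rwa [upper_zpow] at this

theorem upper_injective : Function.Injective upper := by
  intro x y h
  have := congrArg (fun g : SL2 => (g : Matrix (Fin 2) (Fin 2) ℝ) 0 1) h
  simpa [upper] using this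

theorem upper_mem_zpowers_iff (x : ℝ) : upper x ∈ Subgroup.zpowers (upper 1) ↔ ∃ n : ℤ, (n : ℝ) = x := by
  rw [Subgroup.mem_zpowers_iff]
  constructor
  · rintro ⟨n, hn⟩
    rw [upper_zpow, mul_one] at hn
    exact ⟨n, upper_injective hn⟩
  · rintro ⟨n, hn⟩
    refine ⟨n, ?_⟩
    rw [upper_zpow, mul_one, hn]

theorem upperNe_of_mem (q x : ℝ) (h : upper x ∈ Gam q) (hx : ∀ n : ℤ, (n : ℝ) ≠ x) : UpperNe q := by
  refine ⟨upper x, h, by simp [upper], ?_⟩
  rw [upper_mem_zpowers_iff]
  rintro ⟨n, hn⟩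
  exact hx n hn

/-- The main identity. -/
theorem word_identity (s t y m m' n₁ n₂ c : ℝ) (ht : t ≠ 0) (hy : y ≠ 0)
    (h₁ : 1 + s * n₁ * m = t * y) (h₂ : 1 + s * n₂ * m' = t * y) (h₃ : m + m' = y * c) :
    lower (s * m') * upper n₂ * lower (-c * (s / t)) * upper n₁ * lower (s * m) =
      upper ((n₁ + n₂) / (t * y)) := by
  have e1 : lower (s * m') * upper n₂ * lower (-c * (s / t)) * upper n₁ * lower (s * m) =
      lower (s * m') * (upper n₂ * (lower (-c * (s / t)) * (upper n₁ * lower (s * m)))) := by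
    simp only [mul_assoc]
  rw [e1]
  apply sl_ext
  simp only [Matrix.SpecialLinearGroup.coe_mul, coe_upper, coe_lower]
  have hty : t * y ≠ 0 := mul_ne_zero ht hy
  have hc : c = (m + m') / y := by rw [h₃]; field_simp
  have a1 : n₁ * (s * m) = t * y - 1 := by linarith
  have a2 : n₂ * (s * m') = t * y - 1 := by linarith
  have b1 : (s * m) + -c * (s / t) * (1 + n₁ * (s * m)) = - (s * m') := by
    rw [a1, hc]; field_simp; ring
  have b2 : (-c * (s / t)) * n₁ * n₂ * (t * y) = - ((t * y - 1) * (n₁ + n₂)) := by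
    rw [hc]; field_simp
    linear_combination (-n₂) * a1 - n₁ * a2
  ext i j
  fin_cases i <;> fin_cases j
  · simp
    linear_combination a1 + n₂ * b1 - a2
  · simp
    rw [eq_div_iff hty]
    linear_combination b2
  · simp
    linear_combination b1 + (s * m') * (a1 + n₂ * b1 - a2)
  · have b3 : s * m' * (n₁ + n₂) = (c * s / t) * n₁ * (t * y) := by
      rw [hc]; field_simp
      linear_combination a2 - a1
    have b4 : (-c * (s / t)) * n₁ * n₂ = - (n₁ + n₂) + (n₁ + n₂) / (t * y) := by
      have := b2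
      field_simp at this ⊢
      linear_combination this
    have b5 : s * m' * ((n₁ + n₂) / (t * y)) = (c * s / t) * n₁ := by
      rw [mul_div_assoc', div_eq_iff hty]
      exact b3
    simp
    linear_combination (s * m') * b4 + b5

end Pool.Agent.Lib.MP_8dfcc7_al
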