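import Pool.Agent.Lib.MP_8dfcc7_al.Norm
import Pool.Agent.Lib.MP_8dfcc7_al.Words

/-!
# Alternating words and their values
-/

set_option autoImplicit false

namespace Pool.Agent.Lib.MP_8dfcc7_al

/-- the value of the alternating word with exponent list `w`, starting with the letter `s`. -/
def evw {G : Type} [Group G] (g : Bool → G) : Bool → List ℤ → G
  | _, [] => 1
  | s, n :: w => g s ^ n * evw g (!s) w

/-- the letter reached after `n` steps. -/
def par (s : Bool) (n : ℕ) : Bool := xor s n.bodd

lemma par_zero (s : Bool) : par s 0 = s := by simp [par]

lemma par_succ (s : Bool) (n : ℕ) : par s (n + 1) = par (!s) n := by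
  unfold par
  rw [Nat.bodd_succ]
  cases s <;> cases n.bodd <;> rfl

lemma par_succ' (s : Bool) (n : ℕ) : par s (n + 1) = !(par s n) := by
  unfold par
  rw [Nat.bodd_succ]
  cases s <;> cases n.bodd <;> rfl

lemma par_par (s : Bool) (m n : ℕ) : par (par s m) n = par s (m + n) := by
  unfold par
  rw [Nat.bodd_add]
  cases s <;> cases m.bodd <;> cases n.bodd <;> rfl

lemma par_two_mul (s : Bool) (n : ℕ) : par s (2 * n) = s := by
  unfold par
  simp

variable {G : Type} [Group G] (g : Bool → G)

lemma evw_append (u : List ℤ) : ∀ (s : Bool) (v : List ℤ),
    evw g s (u ++ v) = evw g s u * evw g (par s u.length) v := by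
  induction u with
  | nil => intro s v; simp [evw, par_zero]
  | cons n u ih =>
    intro s v
    simp only [List.cons_append, evw, List.length_cons, par_succ]
    rw [ih (!s) v, mul_assoc]

lemma evw_inv (u : List ℤ) : ∀ (s : Bool),
    (evw g s u)⁻¹ = evw g (par s (u.length + 1)) (u.map Neg.neg).reverse := by
  induction u with
  | nil => intro s; simp [evw]
  | cons n u ih =>
    intro s
    simp only [evw, List.map_cons, List.reverse_cons, List.length_cons, mul_inv_rev]
    rw [evw_append, ih (!s)]
    have h1 : par (!s) (u.length + 1) = par s (u.length + 1 + 1) := by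
      rw [par_succ s (u.length + 1)]
    have h2 : par (par s (u.length + 1 + 1)) (List.map Neg.neg u).reverse.length = s := by
      rw [List.length_reverse, List.length_map, par_par]
      have : u.length + 1 + 1 + u.length = 2 * (u.length + 1) := by ring
      rw [this, par_two_mul]
    rw [h1, h2]
    simp [evw]

lemma map_evw {H : Type} [Group H] (f : G →* H) (w : List ℤ) : ∀ s : Bool,
    f (evw g s w) = evw (fun b => f (g b)) s w := by
  induction w with
  | nil => intro s; simp [evw]
  | cons n w ih => intro s; simp only [evw, map_mul, map_zpow, ih]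

/-- the difference of two distinct words of the same length. -/
lemma exists_diff (w : List ℤ) : ∀ (w' : List ℤ) (s : Bool), w.length = w'.length → w ≠ w' →
    (∀ x ∈ w, x ≠ 0) → (∀ x ∈ w', x ≠ 0) →
    ∃ v : List ℤ, (∀ x ∈ v, x ≠ 0) ∧ (∃ j, v.length = 2 * j + 1 ∧ j < w.length) ∧
      (evw g s w)⁻¹ * evw g s w' = evw g (par s (w.length + 1)) v := by
  induction w with
  | nil =>
    intro w' s hl hne _ _
    exfalso
    apply hne
    symm
    rw [← List.length_eq_zero_iff]
    exact hl.symm
  | cons n u ih =>
    intro w' s hl hne h0 h0'
    cases w' with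
    | nil => simp at hl
    | cons n' u' =>
      by_cases hn : n = n'
      · subst hn
        have hl' : u.length = u'.length := by simpa using hl
        have hne' : u ≠ u' := fun h => hne (by rw [h])
        obtain ⟨v, hv0, ⟨j, hj, hj'⟩, hv⟩ := ih u' (!s) hl' hne'
          (fun x hx => h0 x (List.mem_cons_of_mem _ hx))
          (fun x hx => h0' x (List.mem_cons_of_mem _ hx))
        refine ⟨v, hv0, ⟨j, hj, by simp; omega⟩, ?_⟩
        rw [List.length_cons, par_succ s (u.length + 1), ← hv]
        simp only [evw]
        group
      · have hl' : u.length = u'.length := by simpa using hl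
        refine ⟨(u.map Neg.neg).reverse ++ (n' - n) :: u', ?_, ⟨u.length, ?_, by simp⟩, ?_⟩
        · intro x hx
          rw [List.mem_append, List.mem_reverse, List.mem_map, List.mem_cons] at hx
          rcases hx with ⟨y, hy, rfl⟩ | rfl | hx
          · simp only [Neg.neg, ne_eq]
            have := h0 y (List.mem_cons_of_mem _ hy)
            intro h
            exact this (Int.neg_eq_zero.1 h)
          · intro h
            exact hn (by omega)
          · exact h0' x (List.mem_cons_of_mem _ hx)
        · simp only [List.length_append, List.length_reverse, List.length_map, List.length_cons]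
          omega
        · rw [evw_append]
          simp only [evw, mul_inv_rev]
          rw [evw_inv]
          have h1 : par (!s) (u.length + 1) = par s ((n :: u).length + 1) := by
            rw [List.length_cons, par_succ s (u.length + 1)]
          have h2 : par (par s ((n :: u).length + 1)) (List.map Neg.neg u).reverse.length = s := by
            rw [List.length_reverse, List.length_map, par_par, List.length_cons]
            have : u.length + 1 + 1 + u.length = 2 * (u.length + 1) := by ring
            rw [this, par_two_mul]
          rw [h1, h2, zpow_sub]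
          group

/-- the generators `A` and `B_q`. -/
noncomputable def gq (q : ℝ) : Bool → SL2
  | true => upper 1
  | false => lower q

/-- the value in `SL(2, ℝ)` of an alternating word starting with `A`. -/
noncomputable def val (q : ℝ) (w : List ℤ) : SL2 := evw (gq q) true w

/-- words with `k` syllable pairs, all exponents nonzero. -/
def IsW (k : ℕ) (w : List ℤ) : Prop := w.length = 2 * k ∧ ∀ x ∈ w, x ≠ 0

lemma val_append (q : ℝ) (k : ℕ) (u v : List ℤ) (hu : IsW k u) :
    val q (u ++ v) = val q u * val q v := by
  unfold val
  rw [evw_append, hu.1, par_two_mul]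

lemma IsW.append {k l : ℕ} {u v : List ℤ} (hu : IsW k u) (hv : IsW l v) :
    IsW (k + l) (u ++ v) := by
  refine ⟨?_, ?_⟩
  · rw [List.length_append, hu.1, hv.1]; ring
  · intro x hx
    rcases List.mem_append.1 hx with h | h
    · exact hu.2 x h
    · exact hv.2 x h

lemma IsW.nil : IsW 0 [] := ⟨rfl, by simp⟩

end Pool.Agent.Lib.MP_8dfcc7_al
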