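import Pool.Agent.Lib.MP_8dfcc7_al.Ev

/-!
# Distinct alternating words are distinct in the free group, and a lattice point bound
-/

set_option autoImplicit false

namespace Pool.Agent.Lib.MP_8dfcc7_al

/-- the action on the plane. -/
def mv (M : SL2) (e : ℝ × ℝ) : ℝ × ℝ :=
  (M.1 0 0 * e.1 + M.1 0 1 * e.2, M.1 1 0 * e.1 + M.1 1 1 * e.2)

lemma mv_mul (M N : SL2) (e : ℝ × ℝ) : mv (M * N) e = mv M (mv N e) := by
  obtain ⟨h1, h2, h3, h4⟩ := mul_entries M N
  unfold mv
  rw [h1, h2, h3, h4]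
  ext <;> simp only <;> ring

lemma mv_one (e : ℝ × ℝ) : mv 1 e = e := by
  unfold mv
  ext <;> simp

lemma mv_upper (x : ℝ) (e : ℝ × ℝ) : mv (upper x) e = (e.1 + x * e.2, e.2) := by
  unfold mv upper
  ext <;> simp

lemma mv_lower (x : ℝ) (e : ℝ × ℝ) : mv (lower x) e = (e.1, x * e.1 + e.2) := by
  unfold mv lower
  ext <;> simp

/-- the ping-pong sets. -/
def Ty : Bool → ℝ × ℝ → Prop
  | true, e => |e.2| < 2 * |e.1|
  | false, e => 2 * |e.1| < |e.2|

lemma gq_zpow_true (q : ℝ) (n : ℤ) : gq q true ^ n = upper n := by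
  show upper 1 ^ n = upper n
  rw [upper_zpow, mul_one]

lemma gq_zpow_false (q : ℝ) (n : ℤ) : gq q false ^ n = lower (n * q) := by
  show lower q ^ n = lower (n * q)
  rw [lower_zpow]

lemma one_le_abs_int {n : ℤ} (hn : n ≠ 0) : (1 : ℝ) ≤ |(n : ℝ)| := by
  exact_mod_cast Int.one_le_abs hn

lemma ty_step (s : Bool) (n : ℤ) (hn : n ≠ 0) (e : ℝ × ℝ) (h : Ty (!s) e) :
    Ty s (mv (gq 4 s ^ n) e) := by
  have h1 := one_le_abs_int hn
  cases s with
  | true =>
    rw [gq_zpow_true, mv_upper]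
    simp only [Ty, Bool.not_true] at h ⊢
    have h2 : |(n : ℝ) * e.2| ≤ |e.1 + n * e.2| + |e.1| := by
      have := abs_sub (e.1 + n * e.2) e.1
      simpa using this
    rw [abs_mul] at h2
    nlinarith [abs_nonneg e.2, abs_nonneg e.1]
  | false =>
    rw [gq_zpow_false, mv_lower]
    simp only [Ty, Bool.not_false] at h ⊢
    have h2 : |(n : ℝ) * 4 * e.1| ≤ |n * 4 * e.1 + e.2| + |e.2| := by
      have := abs_sub (n * 4 * e.1 + e.2) e.2
      simpa using this
    rw [abs_mul, abs_mul] at h2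
    have h3 : |(4 : ℝ)| = 4 := by norm_num
    rw [h3] at h2
    nlinarith [abs_nonneg e.2, abs_nonneg e.1]

lemma int_eq_of_abs_lt {n n' : ℤ} {a b : ℝ} (ha : 0 < a) (h : |((n : ℝ) - n') * b| < a)
    (hb : a ≤ |b|) : n = n' := by
  by_contra hne
  have h1 := one_le_abs_int (sub_ne_zero.2 hne)
  push_cast at h1
  rw [abs_mul] at h
  nlinarith [abs_nonneg b]

lemma ty_inj (s : Bool) (n n' : ℤ) (e e' : ℝ × ℝ) (h : Ty (!s) e) (h' : Ty (!s) e')
    (heq : mv (gq 4 s ^ n) e = mv (gq 4 s ^ n') e') : n = n' ∧ e = e' := by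
  cases s with
  | true =>
    rw [gq_zpow_true, gq_zpow_true, mv_upper, mv_upper, Prod.mk.injEq] at heq
    simp only [Ty, Bool.not_true] at h h'
    obtain ⟨h1, h2⟩ := heq
    have h3 : ((n : ℝ) - n') * e.2 = e'.1 - e.1 := by rw [← h2] at h1; linarith
    have hn : n = n' := by
      apply int_eq_of_abs_lt (a := |e.2|) (b := e.2) _ _ le_rfl
      · linarith [abs_nonneg e.1]
      · rw [h3]
        have := abs_sub e'.1 e.1
        rw [← h2] at h'
        linarith
    subst hn
    refine ⟨rfl, Prod.ext ?_ h2⟩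
    rw [← h2] at h1
    linarith
  | false =>
    rw [gq_zpow_false, gq_zpow_false, mv_lower, mv_lower, Prod.mk.injEq] at heq
    simp only [Ty, Bool.not_false] at h h'
    obtain ⟨h1, h2⟩ := heq
    have h3 : ((n : ℝ) - n') * (4 * e.1) = e'.2 - e.2 := by rw [← h1] at h2; linarith
    have hn : n = n' := by
      apply int_eq_of_abs_lt (a := |4 * e.1|) (b := 4 * e.1) _ _ le_rfl
      · rw [abs_mul]
        have : |(4 : ℝ)| = 4 := by norm_num
        rw [this]
        linarith [abs_nonneg e.2]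
      · rw [h3, abs_mul]
        have : |(4 : ℝ)| = 4 := by norm_num
        rw [this]
        have := abs_sub e'.2 e.2
        rw [← h1] at h'
        linarith
    subst hn
    refine ⟨rfl, Prod.ext h1 ?_⟩
    rw [← h1] at h2
    linarith

lemma ty_evw (w : List ℤ) : ∀ (s : Bool) (e : ℝ × ℝ), (∀ x ∈ w, x ≠ 0) →
    Ty (par s w.length) e → Ty s (mv (evw (gq 4) s w) e) := by
  induction w with
  | nil => intro s e _ h; simpa [evw, mv_one, par_zero] using h
  | cons n w ih =>
    intro s e h0 h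
    rw [List.length_cons, par_succ] at h
    simp only [evw, mv_mul]
    exact ty_step s n (h0 n (by simp)) _ (ih (!s) e (fun x hx => h0 x (List.mem_cons_of_mem _ hx)) h)

lemma evw4_inj (w : List ℤ) : ∀ (w' : List ℤ) (s : Bool) (e : ℝ × ℝ), w.length = w'.length →
    (∀ x ∈ w, x ≠ 0) → (∀ x ∈ w', x ≠ 0) → Ty (par s w.length) e →
    mv (evw (gq 4) s w) e = mv (evw (gq 4) s w') e → w = w' := by
  induction w with
  | nil =>
    intro w' s e hl _ _ _ _
    symm
    rw [← List.length_eq_zero_iff]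
    exact hl.symm
  | cons n w ih =>
    intro w' s e hl h0 h0' he heq
    cases w' with
    | nil => simp at hl
    | cons n' w' =>
      have hl' : w.length = w'.length := by simpa using hl
      rw [List.length_cons, par_succ] at he
      simp only [evw, mv_mul] at heq
      have h1 := ty_evw w (!s) e (fun x hx => h0 x (List.mem_cons_of_mem _ hx)) he
      have h2 := ty_evw w' (!s) e (fun x hx => h0' x (List.mem_cons_of_mem _ hx)) (by rwa [← hl'])
      obtain ⟨h3, h4⟩ := ty_inj s n n' _ _ h1 h2 heq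
      rw [h3, ih w' (!s) e hl' (fun x hx => h0 x (List.mem_cons_of_mem _ hx))
        (fun x hx => h0' x (List.mem_cons_of_mem _ hx)) he h4]

lemma val_four_inj {k : ℕ} {w w' : List ℤ} (hw : IsW k w) (hw' : IsW k w')
    (h : val 4 w = val 4 w') : w = w' := by
  unfold val at h
  refine evw4_inj w w' true (1, 0) (by rw [hw.1, hw'.1]) hw.2 hw'.2 ?_ (by rw [h])
  rw [hw.1, par_two_mul]
  simp [Ty]

lemma val_inj_of_free (q : ℝ) (hq : Function.Injective (FreeGroup.lift (gq q))) {k : ℕ}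
    {w w' : List ℤ} (hw : IsW k w) (hw' : IsW k w') (h : val q w = val q w') : w = w' := by
  have e (p : ℝ) (u : List ℤ) : val p u =
      FreeGroup.lift (gq p) (evw (fun b => FreeGroup.of b) true u) := by
    rw [map_evw]
    simp only [FreeGroup.lift_apply_of]
    rfl
  rw [e, e] at h
  have h2 := hq h
  refine val_four_inj hw hw' ?_
  rw [e, e, h2]

/-- integrality of the values. -/
lemma evw_integral (s t : ℤ) (ht : t ≠ 0) (w : List ℤ) : ∀ b : Bool,
    ∀ i j : Fin 2, ∃ a : ℤ,
      (evw (gq ((s : ℝ) / t)) b w).1 i j * (t : ℝ) ^ w.length = a := by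
  have ht' : (t : ℝ) ≠ 0 := by exact_mod_cast ht
  induction w with
  | nil =>
    intro b i j
    fin_cases i <;> fin_cases j <;> simp [evw]
    · exact ⟨1, by simp⟩
    · exact ⟨0, by simp⟩
    · exact ⟨0, by simp⟩
    · exact ⟨1, by simp⟩
  | cons n w ih =>
    intro b i j
    obtain ⟨a00, h00⟩ := ih (!b) 0 0
    obtain ⟨a01, h01⟩ := ih (!b) 0 1
    obtain ⟨a10, h10⟩ := ih (!b) 1 0
    obtain ⟨a11, h11⟩ := ih (!b) 1 1
    simp only [evw, List.length_cons]
    obtain ⟨m1, m2, m3, m4⟩ := mul_entries (gq ((s : ℝ) / t) b ^ n)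
      (evw (gq ((s : ℝ) / t)) (!b) w)
    cases b with
    | true =>
      rw [gq_zpow_true] at *
      have u1 : (upper (n : ℝ)).1 0 0 = 1 := by simp [upper]
      have u2 : (upper (n : ℝ)).1 0 1 = n := by simp [upper]
      have u3 : (upper (n : ℝ)).1 1 0 = 0 := by simp [upper]
      have u4 : (upper (n : ℝ)).1 1 1 = 1 := by simp [upper]
      rw [u1, u2] at m1 m2
      rw [u3, u4] at m3 m4
      fin_cases i <;> fin_cases j
      · refine ⟨t * (a00 + n * a10), ?_⟩
        simp only [Fin.zero_eta]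
        rw [m1, pow_succ]
        push_cast
        rw [← h00, ← h10]
        ring
      · refine ⟨t * (a01 + n * a11), ?_⟩
        simp only [Fin.zero_eta, Fin.mk_one]
        rw [m2, pow_succ]
        push_cast
        rw [← h01, ← h11]
        ring
      · refine ⟨t * a10, ?_⟩
        simp only [Fin.zero_eta, Fin.mk_one]
        rw [m3, pow_succ]
        push_cast
        rw [← h10]
        ring
      · refine ⟨t * a11, ?_⟩
        simp only [Fin.mk_one]
        rw [m4, pow_succ]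
        push_cast
        rw [← h11]
        ring
    | false =>
      rw [gq_zpow_false] at *
      have u1 : (lower ((n : ℝ) * (s / t))).1 0 0 = 1 := by simp [lower]
      have u2 : (lower ((n : ℝ) * (s / t))).1 0 1 = 0 := by simp [lower]
      have u3 : (lower ((n : ℝ) * (s / t))).1 1 0 = n * (s / t) := by simp [lower]
      have u4 : (lower ((n : ℝ) * (s / t))).1 1 1 = 1 := by simp [lower]
      rw [u1, u2] at m1 m2
      rw [u3, u4] at m3 m4
      fin_cases i <;> fin_cases j
      · refine ⟨t * a00, ?_⟩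
        simp only [Fin.zero_eta]
        rw [m1, pow_succ]
        push_cast
        rw [← h00]
        ring
      · refine ⟨t * a01, ?_⟩
        simp only [Fin.zero_eta, Fin.mk_one]
        rw [m2, pow_succ]
        push_cast
        rw [← h01]
        ring
      · refine ⟨n * s * a00 + t * a10, ?_⟩
        simp only [Fin.zero_eta, Fin.mk_one]
        rw [m3, pow_succ]
        push_cast
        rw [← h00, ← h10]
        field_simp
      · refine ⟨n * s * a01 + t * a11, ?_⟩
        simp only [Fin.mk_one]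
        rw [m4, pow_succ]
        push_cast
        rw [← h01, ← h11]
        field_simp

lemma abs_entry_le (g : SL2) (h : nrm g ≤ 24) (i j : Fin 2) : |g.1 i j| ≤ 5 := by
  unfold nrm at h
  apply abs_le_of_sq_le_sq _ (by norm_num)
  fin_cases i <;> fin_cases j <;> simp only [Fin.zero_eta, Fin.mk_one] <;>
    nlinarith [sq_nonneg (g.1 0 0), sq_nonneg (g.1 0 1), sq_nonneg (g.1 1 0), sq_nonneg (g.1 1 1)]

lemma lattice_count (s t : ℤ) (ht : 0 < t)
    (hfree : Function.Injective (FreeGroup.lift (gq ((s : ℝ) / t)))) (k : ℕ)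
    (C : Finset (List ℤ)) (hC : ∀ w ∈ C, IsW k w ∧ nrm (val ((s : ℝ) / t) w) ≤ 24) :
    (C.card : ℝ) ≤ (11 * (t : ℝ) ^ (2 * k)) ^ 4 := by
  classical
  set q : ℝ := (s : ℝ) / t with hq
  set T : ℤ := t ^ (2 * k) with hT
  have hT1 : 1 ≤ T := by
    rw [hT]
    exact one_le_pow₀ (by omega)
  set f : List ℤ → (ℤ × ℤ) × (ℤ × ℤ) := fun w =>
    ((⌊(val q w).1 0 0 * T⌋, ⌊(val q w).1 0 1 * T⌋),
      (⌊(val q w).1 1 0 * T⌋, ⌊(val q w).1 1 1 * T⌋)) with hf
  have hint : ∀ w ∈ C, ∀ i j : Fin 2, ((⌊(val q w).1 i j * T⌋ : ℤ) : ℝ) = (val q w).1 i j * T := by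
    intro w hw i j
    obtain ⟨a, ha⟩ := evw_integral s t (by omega) w true i j
    have h2 : (val q w).1 i j * T = a := by
      rw [← ha, hT, (hC w hw).1.1]
      push_cast
      rfl
    rw [h2, Int.floor_intCast]
  have hTr : (1 : ℝ) ≤ (T : ℝ) := by exact_mod_cast hT1
  have hmaps : ∀ w ∈ C, f w ∈ (Finset.Icc (-(5 * T)) (5 * T) ×ˢ Finset.Icc (-(5 * T)) (5 * T)) ×ˢ
      (Finset.Icc (-(5 * T)) (5 * T) ×ˢ Finset.Icc (-(5 * T)) (5 * T)) := by
    intro w hw
    have key : ∀ i j : Fin 2, ⌊(val q w).1 i j * T⌋ ∈ Finset.Icc (-(5 * T)) (5 * T) := by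
      intro i j
      have h1 := abs_entry_le _ (hC w hw).2 i j
      have h2 := hint w hw i j
      rw [abs_le] at h1
      rw [Finset.mem_Icc]
      constructor
      · have : ((-(5 * T) : ℤ) : ℝ) ≤ ((⌊(val q w).1 i j * T⌋ : ℤ) : ℝ) := by
          rw [h2]
          push_cast
          nlinarith
        exact_mod_cast this
      · have : ((⌊(val q w).1 i j * T⌋ : ℤ) : ℝ) ≤ ((5 * T : ℤ) : ℝ) := by
          rw [h2]
          push_cast
          nlinarith
        exact_mod_cast this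
    simp only [hf, Finset.mem_product]
    exact ⟨⟨key 0 0, key 0 1⟩, key 1 0, key 1 1⟩
  have hinj : Set.InjOn f C := by
    intro w hw w' hw' heq
    have hw := Finset.mem_coe.1 hw
    have hw' := Finset.mem_coe.1 hw'
    simp only [hf, Prod.mk.injEq] at heq
    obtain ⟨⟨e1, e2⟩, e3, e4⟩ := heq
    refine val_inj_of_free q hfree (hC w hw).1 (hC w' hw').1 ?_
    have key : ∀ i j : Fin 2, ⌊(val q w).1 i j * T⌋ = ⌊(val q w').1 i j * T⌋ →
        (val q w).1 i j = (val q w').1 i j := by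
      intro i j h
      have h1 := hint w hw i j
      have h2 := hint w' hw' i j
      rw [h, h2] at h1
      have : (T : ℝ) ≠ 0 := by positivity
      exact (mul_right_cancel₀ this h1).symm
    apply Subtype.ext
    ext i j
    fin_cases i <;> fin_cases j
    · exact key 0 0 e1
    · exact key 0 1 e2
    · exact key 1 0 e3
    · exact key 1 1 e4
  have hcard := Finset.card_le_card_of_injOn f hmaps hinj
  rw [Finset.card_product, Finset.card_product, Int.card_Icc] at hcard
  have h5 : ((5 * T + 1 - -(5 * T)).toNat : ℝ) ≤ 11 * (T : ℝ) := by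
    have : ((5 * T + 1 - -(5 * T)).toNat : ℤ) ≤ 11 * T := by
      rw [Int.toNat_of_nonneg (by linarith)]
      linarith
    exact_mod_cast this
  have hcard' : (C.card : ℝ) ≤ (((5 * T + 1 - -(5 * T)).toNat : ℝ)) ^ 4 := by
    have : C.card ≤ ((5 * T + 1 - -(5 * T)).toNat) ^ 4 := by
      calc C.card ≤ _ := hcard
        _ = _ := by ring
    exact_mod_cast this
  have hTT : (T : ℝ) = (t : ℝ) ^ (2 * k) := by rw [hT]; push_cast; rfl
  rw [← hTT]
  exact hcard'.trans (pow_le_pow_left₀ (by positivity) h5 4)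

/-- exponentially many words of bounded value. -/
def Good (q P : ℝ) : Prop :=
  ∀ K : ℕ, ∃ k : ℕ, K ≤ k ∧ ∃ C : Finset (List ℤ),
    (∀ w ∈ C, IsW k w ∧ nrm (val q w) ≤ 24) ∧ Real.exp (P * k) ≤ C.card

lemma Good.le_of_free {s t : ℤ} (ht : 0 < t)
    (hfree : Function.Injective (FreeGroup.lift (gq ((s : ℝ) / t)))) {P : ℝ}
    (h : Good ((s : ℝ) / t) P) : P ≤ 8 * Real.log (11 * t) := by
  obtain ⟨k, hk, C, hC, hP⟩ := h 1
  have h1 := lattice_count s t ht hfree k C hC
  have ht1 : (1 : ℝ) ≤ t := by exact_mod_cast ht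
  have hk1 : (1 : ℝ) ≤ k := by exact_mod_cast hk
  have h2 : (11 * (t : ℝ) ^ (2 * k)) ^ 4 ≤ (11 * t : ℝ) ^ (8 * k) := by
    calc (11 * (t : ℝ) ^ (2 * k)) ^ 4 = 11 ^ 4 * (t : ℝ) ^ (8 * k) := by ring
      _ ≤ 11 ^ (8 * k) * (t : ℝ) ^ (8 * k) := by
          apply mul_le_mul_of_nonneg_right _ (by positivity)
          exact pow_le_pow_right₀ (by norm_num) (by omega)
      _ = _ := by rw [mul_pow]
  have h3 : Real.exp (P * k) ≤ Real.exp (8 * Real.log (11 * t) * k) := by
    refine (hP.trans (h1.trans h2)).trans (le_of_eq ?_)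
    rw [show 8 * Real.log (11 * (t : ℝ)) * k = ((8 * k : ℕ) : ℝ) * Real.log (11 * t) by
      push_cast; ring, Real.exp_nat_mul, Real.exp_log (by positivity)]
  have h4 := Real.exp_le_exp.1 h3
  exact le_of_mul_le_mul_right h4 (by linarith)

end Pool.Agent.Lib.MP_8dfcc7_al
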