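import Mathlib

/-!
# The free group of rank two is residually finite and Hopfian
-/

set_option autoImplicit false

namespace Pool.Agent.Lib.MP_8dfcc7_al

/-- the two transvections of the plane, as permutations. -/
def tv (R : Type) [CommRing R] : Bool → Equiv.Perm (R × R)
  | true =>
    { toFun := fun v => (v.1 + 3 * v.2, v.2)
      invFun := fun v => (v.1 - 3 * v.2, v.2)
      left_inv := fun v => by simp
      right_inv := fun v => by simp }
  | false =>
    { toFun := fun v => (v.1, v.2 + 3 * v.1)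
      invFun := fun v => (v.1, v.2 - 3 * v.1)
      left_inv := fun v => by simp
      right_inv := fun v => by simp }

/-- reduction of vectors. -/
def redv {R S : Type} [CommRing R] [CommRing S] (f : R →+* S) (v : R × R) : S × S := (f v.1, f v.2)

lemma redv_tv {R S : Type} [CommRing R] [CommRing S] (f : R →+* S) (b : Bool) (v : R × R) :
    redv f (tv R b v) = tv S b (redv f v) := by
  have h3 : f 3 = 3 := map_ofNat f 3
  cases b <;> simp [redv, tv, h3]

lemma redv_tv_inv {R S : Type} [CommRing R] [CommRing S] (f : R →+* S) (b : Bool) (v : R × R) :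
    redv f ((tv R b)⁻¹ v) = (tv S b)⁻¹ (redv f v) := by
  rw [Equiv.Perm.eq_inv_iff_eq, ← redv_tv]
  simp

lemma redv_lift {R S : Type} [CommRing R] [CommRing S] (f : R →+* S) (w : FreeGroup Bool) :
    ∀ v : R × R, redv f (FreeGroup.lift (tv R) w v) = FreeGroup.lift (tv S) w (redv f v) := by
  induction w using FreeGroup.induction_on with
  | C1 => intro v; simp
  | of b => intro v; simp [redv_tv]
  | inv_of b _ => intro v; simp only [map_inv, FreeGroup.lift_apply_of, redv_tv_inv]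
  | mul x y hx hy =>
    intro v
    simp only [map_mul, Equiv.Perm.mul_apply, hx, hy]

/-- nonzero integer vectors. -/
abbrev NZ : Type := {v : ℤ × ℤ // v ≠ 0}

lemma tv_zero (b : Bool) : tv ℤ b 0 = 0 := by
  cases b <;> simp [tv]

lemma tv_ne_zero_iff (b : Bool) (v : ℤ × ℤ) : v ≠ 0 ↔ tv ℤ b v ≠ 0 := by
  rw [not_iff_not]
  constructor
  · rintro rfl
    exact tv_zero b
  · intro h
    rw [← tv_zero b] at h
    exact (tv ℤ b).injective h

/-- the restricted permutations. -/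
def tvn (b : Bool) : Equiv.Perm NZ := (tv ℤ b).subtypePerm (fun v => (tv_ne_zero_iff b v).symm)

lemma tvn_coe (b : Bool) (v : NZ) : (tvn b v : ℤ × ℤ) = tv ℤ b v.1 := rfl

lemma tvn_inv_coe (b : Bool) (v : NZ) : ((tvn b)⁻¹ v : ℤ × ℤ) = (tv ℤ b)⁻¹ v.1 := by
  rw [Equiv.Perm.eq_inv_iff_eq, ← tvn_coe]
  simp

lemma lift_tvn_coe (w : FreeGroup Bool) :
    ∀ v : NZ, (FreeGroup.lift tvn w v : ℤ × ℤ) = FreeGroup.lift (tv ℤ) w v.1 := by
  induction w using FreeGroup.induction_on with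
  | C1 => intro v; simp
  | of b => intro v; simp [tvn_coe]
  | inv_of b _ => intro v; simp only [map_inv, FreeGroup.lift_apply_of, tvn_inv_coe]
  | mul x y hx hy =>
    intro v
    simp only [map_mul, Equiv.Perm.mul_apply, hx, hy]

/-- attracting sets. -/
def setX : Bool → Set NZ
  | true => {v | v.1.2 ^ 2 < v.1.1 ^ 2 ∧ 0 ≤ v.1.1 * v.1.2}
  | false => {v | v.1.1 ^ 2 < v.1.2 ^ 2 ∧ 0 ≤ v.1.1 * v.1.2}

/-- repelling sets. -/
def setY : Bool → Set NZ
  | true => {v | v.1.2 ^ 2 < v.1.1 ^ 2 ∧ v.1.1 * v.1.2 < 0}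
  | false => {v | v.1.1 ^ 2 < v.1.2 ^ 2 ∧ v.1.1 * v.1.2 < 0}

lemma tv_true_inv (v : ℤ × ℤ) : (tv ℤ true)⁻¹ v = (v.1 - 3 * v.2, v.2) := rfl

lemma tv_false_inv (v : ℤ × ℤ) : (tv ℤ false)⁻¹ v = (v.1, v.2 - 3 * v.1) := rfl

lemma nz_sq (v : NZ) : 0 < v.1.1 ^ 2 + v.1.2 ^ 2 := by
  have h := v.2
  by_contra hcon
  apply h
  have h1 : v.1.1 = 0 := by nlinarith [sq_nonneg v.1.1, sq_nonneg v.1.2]
  have h2 : v.1.2 = 0 := by nlinarith [sq_nonneg v.1.1, sq_nonneg v.1.2]
  exact Prod.ext h1 h2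

lemma aux_pos (x y : ℤ) (h0 : 0 < x ^ 2 + y ^ 2) (h : y ^ 2 < x ^ 2 → 0 ≤ x * y) :
    y ^ 2 < (x + 3 * y) ^ 2 ∧ 0 ≤ (x + 3 * y) * y := by
  by_cases hc : y ^ 2 < x ^ 2
  · have := h hc
    constructor <;> nlinarith [sq_nonneg y, sq_nonneg x]
  · push Not at hc
    have hy : 0 < y ^ 2 := by nlinarith
    constructor <;> nlinarith [sq_nonneg (x + y)]

lemma aux_neg (x y : ℤ) (h0 : 0 < x ^ 2 + y ^ 2) (h : y ^ 2 < x ^ 2 → x * y < 0) :
    y ^ 2 < (x - 3 * y) ^ 2 ∧ (x - 3 * y) * y < 0 := by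
  by_cases hc : y ^ 2 < x ^ 2
  · have := h hc
    constructor <;> nlinarith [sq_nonneg y, sq_nonneg x]
  · push Not at hc
    have hy : 0 < y ^ 2 := by nlinarith
    constructor <;> nlinarith [sq_nonneg (x - y)]

lemma lift_tvn_injective : Function.Injective (FreeGroup.lift tvn) := by
  refine FreeGroup.injective_lift_of_ping_pong tvn setX setY ?_ ?_ ?_ ?_ ?_ ?_
  · intro b
    cases b
    · exact ⟨⟨(0, 1), by simp⟩, by simp [setX]⟩
    · exact ⟨⟨(1, 0), by simp⟩, by simp [setX]⟩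
  · intro b c hbc
    rw [Function.onFun, Set.disjoint_left]
    cases b <;> cases c <;> simp only [setX, Set.mem_ofPred_eq] <;> first
      | exact absurd rfl hbc
      | (rintro v ⟨h1, _⟩ ⟨h2, _⟩; exact absurd h1 (not_lt.2 h2.le))
  · intro b c hbc
    rw [Function.onFun, Set.disjoint_left]
    cases b <;> cases c <;> simp only [setY, Set.mem_ofPred_eq] <;> first
      | exact absurd rfl hbc
      | (rintro v ⟨h1, _⟩ ⟨h2, _⟩; exact absurd h1 (not_lt.2 h2.le))
  · intro b c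
    rw [Set.disjoint_left]
    cases b <;> cases c <;> simp only [setX, setY, Set.mem_ofPred_eq] <;>
      (rintro v ⟨_, h1⟩ ⟨_, h2⟩; exact absurd h2 (not_lt.2 h1))
  · intro b v hv
    obtain ⟨u, hu, rfl⟩ := hv
    have h0 := nz_sq u
    rw [Set.mem_compl_iff] at hu
    cases b
    · simp only [setY, Set.mem_ofPred_eq, not_and, not_lt] at hu
      have := aux_pos u.1.2 u.1.1 (by linarith) (fun h => by rw [mul_comm]; exact hu h)
      simp only [Equiv.Perm.smul_def, setX, Set.mem_ofPred_eq, tvn_coe]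
      show u.1.1 ^ 2 < (u.1.2 + 3 * u.1.1) ^ 2 ∧ 0 ≤ u.1.1 * (u.1.2 + 3 * u.1.1)
      exact ⟨this.1, by rw [mul_comm]; exact this.2⟩
    · simp only [setY, Set.mem_ofPred_eq, not_and, not_lt] at hu
      have := aux_pos u.1.1 u.1.2 h0 hu
      simp only [Equiv.Perm.smul_def, setX, Set.mem_ofPred_eq, tvn_coe]
      exact this
  · intro b v hv
    obtain ⟨u, hu, rfl⟩ := hv
    have h0 := nz_sq u
    rw [Set.mem_compl_iff] at hu
    cases b
    · simp only [setX, Set.mem_ofPred_eq, not_and, not_le] at hu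
      have := aux_neg u.1.2 u.1.1 (by linarith) (fun h => by rw [mul_comm]; exact hu h)
      simp only [Equiv.Perm.smul_def, setY, Set.mem_ofPred_eq, Pi.inv_apply, tvn_inv_coe,
        tv_false_inv]
      exact ⟨this.1, by rw [mul_comm]; exact this.2⟩
    · simp only [setX, Set.mem_ofPred_eq, not_and, not_le] at hu
      have := aux_neg u.1.1 u.1.2 h0 hu
      simp only [Equiv.Perm.smul_def, setY, Set.mem_ofPred_eq, Pi.inv_apply, tvn_inv_coe,
        tv_true_inv]
      exact this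

/-- residual finiteness. -/
theorem exists_finite_quotient (w : FreeGroup Bool) (hw : w ≠ 1) :
    ∃ (Q : Type) (_ : Group Q) (_ : Finite Q) (f : FreeGroup Bool →* Q), f w ≠ 1 := by
  have h1 : FreeGroup.lift tvn w ≠ 1 := by
    intro h
    exact hw (lift_tvn_injective (by rw [h, map_one]))
  obtain ⟨v, hv⟩ : ∃ v : NZ, FreeGroup.lift tvn w v ≠ v := by
    by_contra hcon
    push Not at hcon
    exact h1 (Equiv.ext hcon)
  have hv2 : FreeGroup.lift (tv ℤ) w v.1 ≠ v.1 := by
    rw [← lift_tvn_coe]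
    exact fun h => hv (Subtype.ext h)
  set u := FreeGroup.lift (tv ℤ) w v.1 with hu
  -- a modulus
  set n : ℕ := (u.1 - v.1.1).natAbs + (u.2 - v.1.2).natAbs + 1 with hn
  have : NeZero n := ⟨by omega⟩
  refine ⟨Equiv.Perm (ZMod n × ZMod n), inferInstance, inferInstance,
    FreeGroup.lift (tv (ZMod n)), ?_⟩
  intro h
  have h3 := redv_lift (Int.castRingHom (ZMod n)) w v.1
  rw [h, ← hu, Equiv.Perm.one_apply] at h3
  unfold redv at h3
  rw [Prod.mk.injEq] at h3
  obtain ⟨e1, e2⟩ := h3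
  have d1 : (n : ℤ) ∣ u.1 - v.1.1 := by
    rw [← ZMod.intCast_zmod_eq_zero_iff_dvd]
    simpa [sub_eq_zero] using e1
  have d2 : (n : ℤ) ∣ u.2 - v.1.2 := by
    rw [← ZMod.intCast_zmod_eq_zero_iff_dvd]
    simpa [sub_eq_zero] using e2
  have z1 : u.1 - v.1.1 = 0 := by
    apply Int.eq_zero_of_dvd_of_natAbs_lt_natAbs d1
    rw [Int.natAbs_natCast]
    omega
  have z2 : u.2 - v.1.2 = 0 := by
    apply Int.eq_zero_of_dvd_of_natAbs_lt_natAbs d2
    rw [Int.natAbs_natCast]
    omega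
  apply hv2
  exact Prod.ext (by linarith) (by linarith)

/-- the Hopf property. -/
theorem hopf (φ : FreeGroup Bool →* FreeGroup Bool) (hφ : Function.Surjective φ) :
    Function.Injective φ := by
  rw [injective_iff_map_eq_one]
  intro w hw
  by_contra hne
  obtain ⟨Q, _, _, f, hf⟩ := exists_finite_quotient w hne
  have : Finite (FreeGroup Bool →* Q) := Finite.of_equiv _ (FreeGroup.lift (α := Bool) (β := Q))
  have hinj : Function.Injective (fun g : FreeGroup Bool →* Q => g.comp φ) := by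
    intro g g' h
    exact (MonoidHom.cancel_right hφ).1 h
  obtain ⟨g, hg⟩ := Finite.surjective_of_injective hinj f
  apply hf
  rw [← hg]
  simp [hw]

end Pool.Agent.Lib.MP_8dfcc7_al
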