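import Pool.Agent.Lib.MP_8dfcc7_al.Recur

/-!
# The growth rate of bounded words can always be increased
-/

set_option autoImplicit false

namespace Pool.Agent.Lib.MP_8dfcc7_al

/-- one syllable pair of size about `2 ^ κ`. -/
def blk (κ : ℕ) (p : ℕ × ℕ) : List ℤ :=
  [((2 ^ p.1 + p.2 % 2 ^ p.1 : ℕ) : ℤ), ((2 ^ (κ - p.1) + p.2 / 2 ^ p.1 : ℕ) : ℤ)]

/-- the family of one syllable pairs. -/
def fam (κ : ℕ) : Finset (List ℤ) :=
  (Finset.range (κ + 1) ×ˢ Finset.range (2 ^ κ)).image (blk κ)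

lemma blk_bounds {κ : ℕ} {p : ℕ × ℕ} (h1 : p.1 ≤ κ) (h2 : p.2 < 2 ^ κ) :
    2 ^ p.1 + p.2 % 2 ^ p.1 < 2 ^ (p.1 + 1) ∧ 2 ^ (κ - p.1) + p.2 / 2 ^ p.1 < 2 ^ (κ - p.1 + 1) := by
  constructor
  · have := Nat.mod_lt p.2 (show 0 < 2 ^ p.1 by positivity)
    rw [pow_succ]
    omega
  · have : p.2 / 2 ^ p.1 < 2 ^ (κ - p.1) := by
      apply Nat.div_lt_of_lt_mul
      rwa [← pow_add, Nat.add_sub_cancel' h1]
    rw [pow_succ]
    omega

lemma fam_isW (κ : ℕ) : ∀ w ∈ fam κ, IsW 1 w := by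
  intro w hw
  rw [fam, Finset.mem_image] at hw
  obtain ⟨p, _, rfl⟩ := hw
  refine ⟨rfl, ?_⟩
  intro x hx
  simp only [blk, List.mem_cons, List.not_mem_nil, or_false] at hx
  have h1 : 0 < 2 ^ p.1 := by positivity
  have h2 : 0 < 2 ^ (κ - p.1) := by positivity
  rcases hx with rfl | rfl
  · have : 0 < 2 ^ p.1 + p.2 % 2 ^ p.1 := Nat.add_pos_left h1 _
    exact_mod_cast this.ne'
  · have : 0 < 2 ^ (κ - p.1) + p.2 / 2 ^ p.1 := Nat.add_pos_left h2 _
    exact_mod_cast this.ne'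

lemma fam_card (κ : ℕ) : (fam κ).card = (κ + 1) * 2 ^ κ := by
  rw [fam, Finset.card_image_of_injOn, Finset.card_product, Finset.card_range, Finset.card_range]
  rintro ⟨i, c⟩ h ⟨i', c'⟩ h' heq
  simp only [Finset.coe_product, Finset.coe_range, Set.mem_prod, Set.mem_Iio] at h h'
  simp only [blk, List.cons.injEq, and_true] at heq
  obtain ⟨e1, e2⟩ := heq
  have e1 : 2 ^ i + c % 2 ^ i = 2 ^ i' + c' % 2 ^ i' := by exact_mod_cast e1
  have e2 : 2 ^ (κ - i) + c / 2 ^ i = 2 ^ (κ - i') + c' / 2 ^ i' := by exact_mod_cast e2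
  have b1 := (blk_bounds (κ := κ) (p := (i, c)) (by simp only; omega) h.2).1
  have b2 := (blk_bounds (κ := κ) (p := (i', c')) (by simp only; omega) h'.2).1
  simp only at b1 b2
  have hi : i = i' := by
    have l1 : 2 ^ i < 2 ^ (i' + 1) :=
      lt_of_le_of_lt (Nat.le_add_right _ (c % 2 ^ i)) (e1 ▸ b2)
    have l2 : 2 ^ i' < 2 ^ (i + 1) :=
      lt_of_le_of_lt (Nat.le_add_right _ (c' % 2 ^ i')) (e1 ▸ b1)
    have := (Nat.pow_lt_pow_iff_right (by norm_num)).1 l1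
    have := (Nat.pow_lt_pow_iff_right (by norm_num)).1 l2
    omega
  subst hi
  have e3 : c % 2 ^ i = c' % 2 ^ i := by omega
  have e4 : c / 2 ^ i = c' / 2 ^ i := by omega
  have : c = c' := by rw [← Nat.div_add_mod c (2 ^ i), ← Nat.div_add_mod c' (2 ^ i), e3, e4]
  rw [this]

lemma fam_nrm (q : ℝ) (hq : |q| ≤ 4) (κ : ℕ) :
    ∀ w ∈ fam κ, nrm (val q w) ≤ (864 * 4 ^ κ : ℕ) := by
  intro w hw
  rw [fam, Finset.mem_image] at hw
  obtain ⟨⟨i, c⟩, hp, rfl⟩ := hw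
  rw [Finset.mem_product, Finset.mem_range, Finset.mem_range] at hp
  obtain ⟨hp1, hp2⟩ := hp
  simp only at hp1 hp2
  obtain ⟨b1, b2⟩ := blk_bounds (κ := κ) (p := (i, c)) (by simp only; omega) hp2
  simp only at b1 b2
  set n : ℕ := 2 ^ i + c % 2 ^ i with hn
  set m : ℕ := 2 ^ (κ - i) + c / 2 ^ i with hm
  have hn1 : 1 ≤ n := Nat.add_pos_left (by positivity) _
  have hm1 : 1 ≤ m := Nat.add_pos_left (by positivity) _
  have hval : val q (blk κ (i, c)) = upper n * lower (m * q) := by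
    simp only [blk, val, evw]
    rw [gq_zpow_true, Bool.not_true, gq_zpow_false, mul_one]
    simp only [hn, hm, Int.cast_natCast]
  rw [hval]
  have hnm : n * m ≤ 2 ^ (κ + 2) := by
    calc n * m ≤ 2 ^ (i + 1) * 2 ^ (κ - i + 1) := Nat.mul_le_mul b1.le b2.le
      _ = 2 ^ (κ + 2) := by rw [← pow_add]; congr 1; omega
  have hn' : (1 : ℝ) ≤ n := by exact_mod_cast hn1
  have hm' : (1 : ℝ) ≤ m := by exact_mod_cast hm1
  have hq2 : q ^ 2 ≤ 16 := by
    rw [← sq_abs]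
    nlinarith [abs_nonneg q]
  have hnm' : (n : ℝ) * m ≤ 2 ^ (κ + 2) := by exact_mod_cast hnm
  have h1 : 2 + (n : ℝ) ^ 2 ≤ 3 * (n : ℝ) ^ 2 := by nlinarith
  have h2 : 2 + ((m : ℝ) * q) ^ 2 ≤ 18 * (m : ℝ) ^ 2 := by
    rw [mul_pow]
    nlinarith [sq_nonneg (m : ℝ)]
  calc nrm (upper (n : ℝ) * lower (m * q)) ≤ nrm (upper (n : ℝ)) * nrm (lower (m * q)) :=
        nrm_mul_le _ _
    _ = (2 + (n : ℝ) ^ 2) * (2 + ((m : ℝ) * q) ^ 2) := by rw [nrm_upper, nrm_lower]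
    _ ≤ (3 * (n : ℝ) ^ 2) * (18 * (m : ℝ) ^ 2) := by
        apply mul_le_mul h1 h2 (by positivity) (by positivity)
    _ = 54 * ((n : ℝ) * m) ^ 2 := by ring
    _ ≤ 54 * ((2 : ℝ) ^ (κ + 2)) ^ 2 := by gcongr
    _ = ((864 * 4 ^ κ : ℕ) : ℝ) := by
        push_cast
        rw [← pow_mul, show (κ + 2) * 2 = 2 * κ + 4 by ring, pow_add, pow_mul]
        norm_num
        ring

lemma exp_four_gt : (48 : ℝ) < Real.exp 4 := by
  have h := Real.exp_one_gt_d9
  have h2 : Real.exp 4 = Real.exp 1 ^ 4 := by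
    rw [← Real.exp_nat_mul]
    norm_num
  rw [h2]
  calc (48 : ℝ) < (2.7182818283 : ℝ) ^ 4 := by norm_num
    _ < _ := pow_lt_pow_left₀ h (by norm_num) (by norm_num)

theorem Good.improve (q : ℝ) (hq : |q| ≤ 4) (P0 Pm : ℝ) (hP0 : 0 < P0) :
    ∃ δ : ℝ, 0 < δ ∧ ∀ P : ℝ, P0 ≤ P → P ≤ Pm → Good q P → Good q (P + δ) := by
  classical
  obtain ⟨κ, hκ1, hκ2⟩ : ∃ κ : ℕ, 864 * Real.exp (2 * Pm + 1) + 864 + P0 ≤ κ ∧ 1 ≤ κ := by
    refine ⟨⌈864 * Real.exp (2 * Pm + 1) + 864 + P0⌉₊, Nat.le_ceil _, ?_⟩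
    rw [Nat.one_le_ceil_iff]
    positivity
  have hexp : 0 < Real.exp (2 * Pm + 1) := Real.exp_pos _
  have hκP : P0 ≤ κ := by linarith
  have hκ864 : (864 : ℝ) ≤ κ + 1 := by linarith
  have hκr : (1 : ℝ) ≤ κ := by exact_mod_cast hκ2
  have hκsq : 864 * Real.exp (2 * Pm + 1) ≤ ((κ : ℝ) + 1) ^ 2 := by nlinarith
  refine ⟨P0 / (8 * κ), by positivity, ?_⟩
  intro P hP1 hP2 hG
  set δ := P0 / (8 * κ) with hδ
  obtain ⟨k, hk, C, hC, hcard⟩ := hG ⌈18 * κ / P0 + 1⌉₊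
  have hk' : 18 * κ / P0 + 1 ≤ (k : ℝ) := (Nat.le_ceil _).trans (by exact_mod_cast hk)
  have hk2 : 18 * κ < P0 * k := by
    have : 18 * κ / P0 < (k : ℝ) := by linarith
    rw [div_lt_iff₀ hP0] at this
    linarith
  have hkpos : (0 : ℝ) < k := by
    have : 0 ≤ 18 * κ / P0 := by positivity
    linarith
  set j : ℕ := ⌊(P0 * k - 4) / κ⌋₊ with hj
  have hj1 : (κ : ℝ) * j + 4 ≤ P0 * k := by
    have h0 : 0 ≤ (P0 * k - 4) / κ := by
      apply div_nonneg _ (by linarith)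
      linarith
    have := Nat.floor_le h0
    rw [← hj, le_div_iff₀ (by linarith)] at this
    linarith
  have hj2 : P0 * k - 4 < κ * (j + 1) := by
    have := Nat.lt_floor_add_one ((P0 * k - 4) / κ)
    rw [← hj, div_lt_iff₀ (by linarith)] at this
    linarith
  have hjk : (j : ℝ) ≤ k := by
    have : (κ : ℝ) * j ≤ κ * k := by nlinarith
    exact le_of_mul_le_mul_left this (by linarith)
  set X : ℝ := (C.card : ℝ) with hX
  have hXexp : Real.exp (P * k) ≤ X := hcard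
  have hXpos : 0 < X := lt_of_lt_of_le (Real.exp_pos _) hXexp
  have hB := fam_isW κ
  have hGW := conc_isW hB j
  set B' : Finset (List ℤ) := Finset.image₂ (fun u v => u ++ v) C (conc (fam κ) j) with hB'
  have hB'W : ∀ w ∈ B', IsW (k + j) w := by
    intro w hw
    rw [hB', Finset.mem_image₂] at hw
    obtain ⟨u, hu, v, hv, rfl⟩ := hw
    have h1 := (hC u hu).1
    have h2 := hGW v hv
    rw [one_mul] at h2
    exact h1.append h2
  have hB'card : B'.card = C.card * ((κ + 1) * 2 ^ κ) ^ j := by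
    rw [hB', Finset.card_image₂_iff.2, conc_card hB j, fam_card]
    rintro ⟨u, v⟩ h1 ⟨u', v'⟩ h2 h
    simp only [Set.mem_prod, Finset.mem_coe] at h1 h2
    have hl : u.length = u'.length := by rw [(hC u h1.1).1.1, (hC u' h2.1).1.1]
    obtain ⟨h3, h4⟩ := List.append_inj h hl
    exact Prod.ext h3 h4
  set τ : ℕ := 48 * (864 * 4 ^ κ) ^ j with hτ
  have hB'nrm : ∀ w ∈ B', nrm (val q w) ≤ τ := by
    intro w hw
    rw [hB', Finset.mem_image₂] at hw
    obtain ⟨u, hu, v, hv, rfl⟩ := hw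
    rw [val_append q k u v (hC u hu).1]
    have h1 := (hC u hu).2
    have h2 := conc_nrm hB (fam_nrm q hq κ) j v hv
    have h3 := nrm_pos (val q u)
    have h4 := nrm_pos (val q v)
    calc nrm (val q u * val q v) ≤ nrm (val q u) * nrm (val q v) := nrm_mul_le _ _
      _ ≤ 24 * (2 * ((864 * 4 ^ κ : ℕ) : ℝ) ^ j) := mul_le_mul h1 h2 h4.le (by norm_num)
      _ = τ := by rw [hτ]; push_cast; ring
  -- numerical facts
  have hXe : Real.exp (κ * j + 4) ≤ X := by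
    refine le_trans (Real.exp_le_exp.2 ?_) hXexp
    nlinarith
  have h2e : (2 : ℝ) ≤ Real.exp 1 := by
    have := Real.exp_one_gt_d9
    linarith
  have hX48 : 48 * (2 : ℝ) ^ (κ * j) < X := by
    have h1 : (2 : ℝ) ^ (κ * j) ≤ Real.exp (κ * j) := by
      calc (2 : ℝ) ^ (κ * j) ≤ Real.exp 1 ^ (κ * j) := pow_le_pow_left₀ (by norm_num) h2e _
        _ = Real.exp (κ * j) := by rw [← Real.exp_nat_mul]; push_cast; ring_nf
    have h2 := exp_four_gt
    rw [Real.exp_add] at hXe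
    have h3 : 0 < (2 : ℝ) ^ (κ * j) := by positivity
    nlinarith
  have h4pow : (4 : ℝ) ^ κ = 2 ^ κ * 2 ^ κ := by
    rw [← mul_pow]; norm_num
  have hPδ : 0 ≤ P + δ := by
    have hδ0 : 0 < δ := by positivity
    linarith
  refine good_of_block q (P + δ) hPδ (k + j) B' hB'W τ hB'nrm ?_ ?_
  · have : (τ : ℝ) < (B'.card : ℝ) := by
      rw [hB'card, hτ]
      push_cast
      rw [← hX]
      calc (48 : ℝ) * (864 * 4 ^ κ) ^ j = 48 * (2 : ℝ) ^ (κ * j) * (864 * 2 ^ κ) ^ j := by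
            rw [h4pow, pow_mul, mul_pow, mul_pow, mul_pow]; ring
        _ < X * (864 * 2 ^ κ) ^ j := by
            apply mul_lt_mul_of_pos_right hX48 (by positivity)
        _ ≤ X * (((κ : ℝ) + 1) * 2 ^ κ) ^ j := by gcongr
    exact_mod_cast this
  · rw [hB'card, hτ]
    push_cast
    rw [← hX]
    have hpow : (864 * Real.exp (2 * Pm + 1)) ^ j ≤ (((κ : ℝ) + 1) ^ 2) ^ j :=
      pow_le_pow_left₀ (by positivity) hκsq j
    have hX2 : Real.exp (P * k) ^ 2 ≤ X ^ 2 := pow_le_pow_left₀ (Real.exp_pos _).le hXexp 2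
    have hkey : (P + δ) * (2 * (k + j)) + 4 ≤ 2 * (P * k) + j * (2 * Pm + 1) := by
      have hδ1 : δ * (8 * κ) = P0 := by rw [hδ]; field_simp
      have hδ0 : 0 < δ := by positivity
      have e1 : 2 * δ * (k + j) ≤ 4 * δ * k := by nlinarith
      have e2 : 2 * (4 * δ * k) * κ = P0 * k := by rw [← hδ1]; ring
      have e3 : κ * (4 + 4 * δ * k) ≤ κ * (j : ℝ) := by nlinarith
      have e4 : 4 + 4 * δ * k ≤ (j : ℝ) := le_of_mul_le_mul_left e3 (by linarith)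
      have e5 : (j : ℝ) * P ≤ j * Pm := by gcongr
      nlinarith
    have h48 := exp_four_gt
    calc Real.exp ((P + δ) * (2 * (k + j))) * (48 * (864 * 4 ^ κ) ^ j)
        < Real.exp ((P + δ) * (2 * (k + j))) * (Real.exp 4 * (864 * 4 ^ κ) ^ j) := by
          gcongr
      _ = Real.exp ((P + δ) * (2 * (k + j)) + 4) * (864 ^ j * (4 ^ κ) ^ j) := by
          rw [Real.exp_add, mul_pow]; ring
      _ ≤ Real.exp (2 * (P * k) + j * (2 * Pm + 1)) * (864 ^ j * (4 ^ κ) ^ j) := by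
          gcongr
      _ = Real.exp (P * k) ^ 2 * (864 * Real.exp (2 * Pm + 1)) ^ j * (4 ^ κ) ^ j := by
          rw [Real.exp_add, mul_pow, ← Real.exp_nat_mul, ← Real.exp_nat_mul]
          push_cast
          ring
      _ ≤ X ^ 2 * (((κ : ℝ) + 1) ^ 2) ^ j * (4 ^ κ) ^ j := by
          gcongr
      _ = (X * ((κ + 1) * 2 ^ κ) ^ j) ^ 2 := by
          rw [h4pow]
          generalize (κ : ℝ) + 1 = a
          generalize (2 : ℝ) ^ κ = b
          ring

end Pool.Agent.Lib.MP_8dfcc7_al
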