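import Pool.Agent.Lib.MP_8dfcc7_al.Defs

/-!
# The square norm on `SL(2, ℝ)` and a pigeonhole principle for near pairs
-/

set_option autoImplicit false

namespace Pool.Agent.Lib.MP_8dfcc7_al

/-- the sum of the squares of the entries of a matrix in `SL(2, ℝ)`. -/
noncomputable def nrm (g : SL2) : ℝ :=
  (g.1 0 0) ^ 2 + (g.1 0 1) ^ 2 + (g.1 1 0) ^ 2 + (g.1 1 1) ^ 2

lemma det_eq (g : SL2) : g.1 0 0 * g.1 1 1 - g.1 0 1 * g.1 1 0 = 1 := by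
  have h := g.2
  rwa [Matrix.det_fin_two] at h

lemma mul_entries (g h : SL2) :
    (g * h).1 0 0 = g.1 0 0 * h.1 0 0 + g.1 0 1 * h.1 1 0 ∧
    (g * h).1 0 1 = g.1 0 0 * h.1 0 1 + g.1 0 1 * h.1 1 1 ∧
    (g * h).1 1 0 = g.1 1 0 * h.1 0 0 + g.1 1 1 * h.1 1 0 ∧
    (g * h).1 1 1 = g.1 1 0 * h.1 0 1 + g.1 1 1 * h.1 1 1 := by
  refine ⟨?_, ?_, ?_, ?_⟩ <;>
    simp [Matrix.SpecialLinearGroup.coe_mul, Matrix.mul_apply, Fin.sum_univ_two]

lemma inv_entries (g : SL2) :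
    (g⁻¹).1 0 0 = g.1 1 1 ∧ (g⁻¹).1 0 1 = - g.1 0 1 ∧
    (g⁻¹).1 1 0 = - g.1 1 0 ∧ (g⁻¹).1 1 1 = g.1 0 0 := by
  rw [Matrix.SpecialLinearGroup.SL2_inv_expl]
  refine ⟨?_, ?_, ?_, ?_⟩ <;> simp

lemma nrm_inv (g : SL2) : nrm g⁻¹ = nrm g := by
  obtain ⟨h1, h2, h3, h4⟩ := inv_entries g
  unfold nrm
  rw [h1, h2, h3, h4]
  ring

lemma nrm_mul_le (g h : SL2) : nrm (g * h) ≤ nrm g * nrm h := by
  obtain ⟨h1, h2, h3, h4⟩ := mul_entries g h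
  unfold nrm
  rw [h1, h2, h3, h4]
  nlinarith [sq_nonneg (g.1 0 0 * h.1 1 0 - g.1 0 1 * h.1 0 0),
    sq_nonneg (g.1 0 0 * h.1 1 1 - g.1 0 1 * h.1 0 1),
    sq_nonneg (g.1 1 0 * h.1 1 0 - g.1 1 1 * h.1 0 0),
    sq_nonneg (g.1 1 0 * h.1 1 1 - g.1 1 1 * h.1 0 1)]

lemma two_le_nrm (g : SL2) : 2 ≤ nrm g := by
  have h := det_eq g
  unfold nrm
  nlinarith [sq_nonneg (g.1 0 0 - g.1 1 1), sq_nonneg (g.1 0 1 + g.1 1 0)]

lemma nrm_pos (g : SL2) : 0 < nrm g := by linarith [two_le_nrm g]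

lemma nrm_one : nrm (1 : SL2) = 2 := by
  unfold nrm
  simp
  norm_num

lemma nrm_upper (x : ℝ) : nrm (upper x) = 2 + x ^ 2 := by
  unfold nrm upper
  simp
  ring

lemma nrm_lower (x : ℝ) : nrm (lower x) = 2 + x ^ 2 := by
  unfold nrm lower
  simp
  ring

/-- the cell of a matrix. -/
noncomputable def cell (g : SL2) : ℤ × ℤ :=
  (Int.log 2 ((g.1 1 0) ^ 2 + (g.1 1 1) ^ 2),
    ⌊(g.1 0 0 * g.1 1 0 + g.1 0 1 * g.1 1 1) / ((g.1 1 0) ^ 2 + (g.1 1 1) ^ 2) *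
      (2 : ℝ) ^ (Int.log 2 ((g.1 1 0) ^ 2 + (g.1 1 1) ^ 2))⌋)

lemma row_pos (g : SL2) : 0 < (g.1 1 0) ^ 2 + (g.1 1 1) ^ 2 := by
  have h := det_eq g
  by_contra hcon
  have h0 : (g.1 1 0) = 0 := by nlinarith [sq_nonneg (g.1 1 0), sq_nonneg (g.1 1 1)]
  have h1 : (g.1 1 1) = 0 := by nlinarith [sq_nonneg (g.1 1 0), sq_nonneg (g.1 1 1)]
  rw [h0, h1] at h
  simp at h

lemma row_mul (g : SL2) : ((g.1 0 0) ^ 2 + (g.1 0 1) ^ 2) * ((g.1 1 0) ^ 2 + (g.1 1 1) ^ 2) =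
    (g.1 0 0 * g.1 1 0 + g.1 0 1 * g.1 1 1) ^ 2 + 1 := by
  have h := det_eq g
  have h2 : (g.1 0 0 * g.1 1 1 - g.1 0 1 * g.1 1 0) ^ 2 = 1 := by rw [h]; norm_num
  nlinarith [h2]

lemma nrm_inv_mul_eq (g h : SL2) :
    nrm (g⁻¹ * h) = ((g.1 1 0) ^ 2 + (g.1 1 1) ^ 2) * ((h.1 0 0) ^ 2 + (h.1 0 1) ^ 2)
      - 2 * (g.1 0 0 * g.1 1 0 + g.1 0 1 * g.1 1 1) * (h.1 0 0 * h.1 1 0 + h.1 0 1 * h.1 1 1)
      + ((g.1 0 0) ^ 2 + (g.1 0 1) ^ 2) * ((h.1 1 0) ^ 2 + (h.1 1 1) ^ 2) := by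
  obtain ⟨h1, h2, h3, h4⟩ := mul_entries g⁻¹ h
  obtain ⟨e1, e2, e3, e4⟩ := inv_entries g
  unfold nrm
  rw [h1, h2, h3, h4, e1, e2, e3, e4]
  ring

/-- the analytic heart of the pigeonhole. -/
lemma near_aux (M N X M' N' X' P : ℝ) (hN : 0 < N) (hN' : 0 < N') (h : M * N = X ^ 2 + 1)
    (h' : M' * N' = X' ^ 2 + 1) (hP : 0 < P) (h1 : P ≤ N) (h2 : N < 2 * P) (h3 : P ≤ N')
    (h4 : N' < 2 * P) (hx : |X / N * P - X' / N' * P| < 1) :
    N * M' - 2 * X * X' + M * N' ≤ 8 := by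
  have hM : M = (X ^ 2 + 1) / N := by rw [← h]; field_simp
  have hM' : M' = (X' ^ 2 + 1) / N' := by rw [← h']; field_simp
  have key : N * M' - 2 * X * X' + M * N' = N * N' * (X / N - X' / N') ^ 2 + N / N' + N' / N := by
    rw [hM, hM']
    field_simp
    ring
  rw [key]
  have a1 : N / N' ≤ 2 := by rw [div_le_iff₀ hN']; nlinarith
  have a2 : N' / N ≤ 2 := by rw [div_le_iff₀ hN]; nlinarith
  have a3 : (X / N - X' / N') ^ 2 * P ^ 2 ≤ 1 := by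
    have : (X / N - X' / N') ^ 2 * P ^ 2 = (X / N * P - X' / N' * P) ^ 2 := by ring
    rw [this, ← sq_abs]
    nlinarith [abs_nonneg (X / N * P - X' / N' * P)]
  have a4 : N * N' ≤ 4 * P ^ 2 := by nlinarith
  have a5 : N * N' * (X / N - X' / N') ^ 2 ≤ 4 * P ^ 2 * (X / N - X' / N') ^ 2 :=
    mul_le_mul_of_nonneg_right a4 (sq_nonneg _)
  nlinarith

lemma nrm_le_of_cell_eq (g h : SL2) (hc : cell g = cell h) : nrm (g⁻¹ * h) ≤ 8 := by
  rw [nrm_inv_mul_eq]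
  unfold cell at hc
  rw [Prod.mk.injEq] at hc
  obtain ⟨hc1, hc2⟩ := hc
  have hN := row_pos g
  have hN' := row_pos h
  have l1 := Int.zpow_log_le_self (R := ℝ) (b := 2) (by norm_num) hN
  have l2 := Int.lt_zpow_succ_log_self (R := ℝ) (b := 2) (by norm_num)
    ((g.1 1 0) ^ 2 + (g.1 1 1) ^ 2)
  have l3 := Int.zpow_log_le_self (R := ℝ) (b := 2) (by norm_num) hN'
  have l4 := Int.lt_zpow_succ_log_self (R := ℝ) (b := 2) (by norm_num)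
    ((h.1 1 0) ^ 2 + (h.1 1 1) ^ 2)
  rw [← hc1] at l3 l4 hc2
  push_cast at l1 l2 l3 l4
  rw [zpow_add_one₀ (by norm_num)] at l2 l4
  refine near_aux _ _ _ _ _ _ ((2 : ℝ) ^ (Int.log 2 ((g.1 1 0) ^ 2 + (g.1 1 1) ^ 2))) hN hN'
    (row_mul g) (row_mul h) (by positivity) l1 (by linarith) l3 (by linarith) ?_
  exact Int.abs_sub_lt_one_of_floor_eq_floor hc2

lemma cell_mem (g : SL2) (n K : ℕ) (T : ℝ) (hT : nrm g ≤ T) (hn : T ≤ 2 ^ n) (hK : T ≤ K) :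
    cell g ∈ Finset.Icc (-(n : ℤ)) n ×ˢ Finset.Icc (-(K : ℤ)) K := by
  have hN := row_pos g
  have hrow := row_mul g
  have l1 := Int.zpow_log_le_self (R := ℝ) (b := 2) (by norm_num) hN
  have l2 := Int.lt_zpow_succ_log_self (R := ℝ) (b := 2) (by norm_num)
    ((g.1 1 0) ^ 2 + (g.1 1 1) ^ 2)
  push_cast at l1 l2
  unfold nrm at hT
  unfold cell
  generalize hM : (g.1 0 0) ^ 2 + (g.1 0 1) ^ 2 = M at *
  generalize hNN : (g.1 1 0) ^ 2 + (g.1 1 1) ^ 2 = N at *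
  generalize hX : g.1 0 0 * g.1 1 0 + g.1 0 1 * g.1 1 1 = X at *
  have hMN : M + N ≤ T := by linarith
  have hM0 : 0 < M := by
    by_contra hcon
    nlinarith [sq_nonneg X]
  have hNT : N ≤ 2 ^ n := by linarith
  have hNT' : 1 ≤ N * 2 ^ n := by
    have : M ≤ 2 ^ n := by linarith
    nlinarith [sq_nonneg X]
  have hXT : |X| ≤ K := by
    have h1 : |X| ^ 2 ≤ M * N := by rw [sq_abs]; linarith
    have h2 : M * N ≤ (M + N) ^ 2 := by nlinarith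
    have h3 : |X| ≤ M + N := by
      exact (pow_le_pow_iff_left₀ (abs_nonneg X) (by positivity) two_ne_zero).1 (h1.trans h2)
    linarith
  have hfl : |X / N * (2 : ℝ) ^ (Int.log 2 N)| ≤ K := by
    have e : X / N * (2 : ℝ) ^ (Int.log 2 N) = X * ((2 : ℝ) ^ (Int.log 2 N) / N) := by ring
    rw [e, abs_mul]
    have h1 : |(2 : ℝ) ^ (Int.log 2 N) / N| ≤ 1 := by
      rw [abs_of_nonneg (by positivity), div_le_one hN]
      exact l1
    calc |X| * |(2 : ℝ) ^ (Int.log 2 N) / N| ≤ |X| * 1 :=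
          mul_le_mul_of_nonneg_left h1 (abs_nonneg _)
      _ ≤ K := by linarith
  rw [Finset.mem_product, Finset.mem_Icc, Finset.mem_Icc]
  refine ⟨⟨?_, ?_⟩, ?_, ?_⟩
  · have : (2 : ℝ) ^ (-(n : ℤ)) < 2 ^ (Int.log 2 N + 1) := by
      refine lt_of_le_of_lt ?_ l2
      rw [zpow_neg, zpow_natCast, inv_le_iff_one_le_mul₀ (by positivity)]
      linarith
    have := (zpow_lt_zpow_iff_right₀ (by norm_num : (1 : ℝ) < 2)).1 this
    simp only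
    omega
  · have : (2 : ℝ) ^ (Int.log 2 N) ≤ 2 ^ (n : ℤ) := by
      rw [zpow_natCast]
      linarith
    exact (zpow_le_zpow_iff_right₀ (by norm_num : (1 : ℝ) < 2)).1 this
  · simp only
    rw [Int.le_floor]
    push_cast
    exact (abs_le.1 hfl).1
  · simp only
    have h1 := Int.floor_le (X / N * (2 : ℝ) ^ (Int.log 2 N))
    have h2 := (abs_le.1 hfl).2
    have : ((⌊X / N * (2 : ℝ) ^ (Int.log 2 N)⌋ : ℤ) : ℝ) ≤ ((K : ℤ) : ℝ) := by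
      push_cast
      linarith
    exact_mod_cast this

open Classical in
lemma near_pairs {α : Type} (S : Finset α) (f : α → SL2) (n K : ℕ) (T : ℝ)
    (h : ∀ a ∈ S, nrm (f a) ≤ T) (hn : T ≤ 2 ^ n) (hK : T ≤ K) :
    S.card ^ 2 ≤ ((2 * n + 1) * (2 * K + 1)) *
      ((S ×ˢ S).filter (fun p => nrm ((f p.1)⁻¹ * f p.2) ≤ 8)).card := by
  set C : Finset (ℤ × ℤ) := Finset.Icc (-(n : ℤ)) n ×ˢ Finset.Icc (-(K : ℤ)) K with hC
  have hCcard : C.card = (2 * n + 1) * (2 * K + 1) := by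
    rw [hC, Finset.card_product, Int.card_Icc, Int.card_Icc]
    congr 1 <;> omega
  have hmaps : ∀ a ∈ S, cell (f a) ∈ C := fun a ha => cell_mem (f a) n K T (h a ha) hn hK
  have h1 : S.card = ∑ c ∈ C, (S.filter (fun a => cell (f a) = c)).card :=
    Finset.card_eq_sum_card_fiberwise hmaps
  have h2 : (∑ c ∈ C, (S.filter (fun a => cell (f a) = c)).card) ^ 2 ≤
      C.card * ∑ c ∈ C, (S.filter (fun a => cell (f a) = c)).card ^ 2 := by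
    have := @sq_sum_le_card_mul_sum_sq (ℤ × ℤ) ℤ _ _ _ _ C
      (fun c => ((S.filter (fun a => cell (f a) = c)).card : ℤ))
    exact_mod_cast this
  have h3 : ∑ c ∈ C, (S.filter (fun a => cell (f a) = c)).card ^ 2 ≤
      ((S ×ˢ S).filter (fun p => nrm ((f p.1)⁻¹ * f p.2) ≤ 8)).card := by
    have h4 : ((S ×ˢ S).filter (fun p => cell (f p.1) = cell (f p.2))).card =
        ∑ c ∈ C, (S.filter (fun a => cell (f a) = c)).card ^ 2 := by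
      rw [Finset.card_eq_sum_card_fiberwise (f := fun p : α × α => cell (f p.1)) (t := C)]
      · refine Finset.sum_congr rfl (fun c _ => ?_)
        rw [sq, ← Finset.card_product]
        congr 1
        ext ⟨a, b⟩
        simp only [Finset.mem_filter, Finset.mem_product]
        constructor
        · rintro ⟨⟨⟨h1, h2⟩, h3⟩, h4⟩
          exact ⟨⟨h1, h4⟩, h2, by rw [← h3, h4]⟩
        · rintro ⟨⟨h1, h4⟩, h2, h3⟩
          exact ⟨⟨⟨h1, h2⟩, by rw [h3, h4]⟩, h4⟩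
      · intro p hp
        rw [Finset.coe_filter] at hp
        exact hmaps _ (Finset.mem_product.1 hp.1).1
    rw [← h4]
    refine Finset.card_le_card (fun p hp => ?_)
    rw [Finset.mem_filter] at hp ⊢
    exact ⟨hp.1, nrm_le_of_cell_eq _ _ hp.2⟩
  calc S.card ^ 2 = (∑ c ∈ C, (S.filter (fun a => cell (f a) = c)).card) ^ 2 := by rw [← h1]
    _ ≤ _ := h2
    _ ≤ _ := by rw [hCcard]; exact Nat.mul_le_mul_left _ h3

end Pool.Agent.Lib.MP_8dfcc7_al
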