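import Pool.Agent.Lib.MP_8dfcc7_al.Start
import Pool.Agent.Lib.MP_8dfcc7_al.Hopf

/-!
# `Γ_q` is not a free group
-/

set_option autoImplicit false

namespace Pool.Agent.Lib.MP_8dfcc7_al

/-- inverting the second generator. -/
def flipHom : FreeGroup Bool →* FreeGroup Bool :=
  FreeGroup.lift (fun b => bif b then FreeGroup.of true else (FreeGroup.of false)⁻¹)

lemma flip_flip (w : FreeGroup Bool) : flipHom (flipHom w) = w := by
  have h : flipHom.comp flipHom = MonoidHom.id (FreeGroup Bool) := by
    ext b
    cases b <;> simp [flipHom]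
  exact DFunLike.congr_fun h w

lemma flip_injective : Function.Injective flipHom :=
  Function.LeftInverse.injective flip_flip

lemma lift_flip (q : ℝ) : (FreeGroup.lift (gq q)).comp flipHom = FreeGroup.lift (gq (-q)) := by
  ext b
  cases b
  · simp only [flipHom, MonoidHom.comp_apply, FreeGroup.lift_apply_of, cond_false, map_inv]
    show ((lower q)⁻¹ : SL2) _ _ = (lower (-q)) _ _
    have : (lower q)⁻¹ = lower (-q) := by
      rw [inv_eq_iff_mul_eq_one, lower_mul, add_neg_cancel, lower_zero]
    rw [this]
  · simp only [flipHom, MonoidHom.comp_apply, FreeGroup.lift_apply_of, cond_true]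
    rfl

theorem not_injective (q : ℚ) (h0 : q ≠ 0) (h4 : |q| < 4) :
    ¬ Function.Injective (FreeGroup.lift (gq (q : ℝ))) := by
  have pos : ∀ r : ℚ, 0 < r → r < 4 → ¬ Function.Injective (FreeGroup.lift (gq (r : ℝ))) := by
    intro r hr0 hr4
    have e : (r : ℝ) = ((r.num : ℤ) : ℝ) / ((r.den : ℤ) : ℝ) := by
      rw [Int.cast_natCast]
      exact (Rat.cast_def r)
    have h1 : (0 : ℝ) < (r : ℝ) := by exact_mod_cast hr0
    have h2 : (r : ℝ) < 4 := by exact_mod_cast hr4
    rw [e] at h1 h2 ⊢
    exact not_injective_pos r.num r.den (by exact_mod_cast r.den_pos) h1 h2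
  rcases lt_or_gt_of_ne h0 with h | h
  · intro hinj
    have h1 : 0 < -q := by linarith
    have h2 : -q < 4 := by rw [abs_of_neg h] at h4; exact h4
    apply pos (-q) h1 h2
    push_cast
    rw [← lift_flip]
    exact hinj.comp flip_injective
  · exact pos q h (by rwa [abs_of_pos h] at h4)

/-- the generators inside `Γ_q`. -/
noncomputable def gens (q : ℝ) : Bool → Gam q
  | true => ⟨upper 1, Subgroup.subset_closure (by simp)⟩
  | false => ⟨lower q, Subgroup.subset_closure (by simp)⟩

lemma gens_coe (q : ℝ) (b : Bool) : (gens q b : SL2) = gq q b := by cases b <;> rfl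

lemma gens_surjective (q : ℝ) : Function.Surjective (FreeGroup.lift (gens q)) := by
  rw [← MonoidHom.range_eq_top, eq_top_iff]
  rintro ⟨g, hg⟩ _
  have h : ∀ g (hg : g ∈ Gam q), ∃ w, (FreeGroup.lift (gens q) w : SL2) = g := by
    intro g hg
    unfold Gam at hg
    induction hg using Subgroup.closure_induction with
    | mem x hx =>
      rcases hx with rfl | hx
      · exact ⟨FreeGroup.of true, by rw [FreeGroup.lift_apply_of]; rfl⟩
      · rw [Set.mem_singleton_iff] at hx
        subst hx
        exact ⟨FreeGroup.of false, by rw [FreeGroup.lift_apply_of]; rfl⟩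
    | one => exact ⟨1, by rw [map_one]; rfl⟩
    | mul x y _ _ hx hy =>
      obtain ⟨w, hw⟩ := hx
      obtain ⟨v, hv⟩ := hy
      exact ⟨w * v, by rw [map_mul, Subgroup.coe_mul, hw, hv]⟩
    | inv x _ hx =>
      obtain ⟨w, hw⟩ := hx
      exact ⟨w⁻¹, by rw [map_inv, Subgroup.coe_inv, hw]⟩
  obtain ⟨w, hw⟩ := h g hg
  exact ⟨w, Subtype.ext hw⟩

lemma lift_gens_coe (q : ℝ) (w : FreeGroup Bool) :
    (FreeGroup.lift (gens q) w : SL2) = FreeGroup.lift (gq q) w := by
  have h : (Gam q).subtype.comp (FreeGroup.lift (gens q)) = FreeGroup.lift (gq q) := by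
    apply FreeGroup.ext_hom
    intro b
    simp only [MonoidHom.comp_apply, FreeGroup.lift_apply_of, Subgroup.coe_subtype, gens_coe]
  exact DFunLike.congr_fun h w

lemma gens_not_commute (q : ℝ) (hq : q ≠ 0) : ¬ Commute (gens q true) (gens q false) := by
  intro h
  have h1 : (upper 1 * lower q : SL2) = lower q * upper 1 := by
    have h2 : ((gens q true * gens q false : Gam q) : SL2) =
        ((gens q false * gens q true : Gam q) : SL2) := by rw [h.eq]
    rw [Subgroup.coe_mul, Subgroup.coe_mul, gens_coe, gens_coe] at h2
    exact h2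
  have h2 : (upper 1 * lower q : SL2).1 0 0 = (lower q * upper 1 : SL2).1 0 0 := by rw [h1]
  rw [(mul_entries _ _).1, (mul_entries _ _).1] at h2
  simp [upper, lower] at h2
  exact hq h2

/-- a free group on at most one generator is commutative. -/
lemma commute_of_subsingleton {ι : Type} [Subsingleton ι] (x y : FreeGroup ι) : Commute x y := by
  have h1 : ∀ (i : ι) (x : FreeGroup ι), Commute x (FreeGroup.of i) := by
    intro i x
    induction x using FreeGroup.induction_on with
    | C1 => exact Commute.one_left _
    | of j => rw [Subsingleton.elim i j]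
    | inv_of j h => exact h.inv_left
    | mul x y hx hy => exact hx.mul_left hy
  induction y using FreeGroup.induction_on with
  | C1 => exact Commute.one_right _
  | of j => exact h1 j x
  | inv_of j h => exact h.inv_right
  | mul a b ha hb => exact ha.mul_right hb

/-- a nonabelian free group generated by two elements has rank two. -/
lemma equiv_bool {G : Type} [Group G] {ι : Type} (b : FreeGroupBasis ι G) (g : Bool → G)
    (hs : Function.Surjective (FreeGroup.lift g)) (hc : ¬ Commute (g true) (g false)) :
    Nonempty (ι ≃ Bool) := by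
  classical
  -- homomorphisms to the group of order two
  set Z := Multiplicative (ZMod 2) with hZ
  let T : (ι → Z) → (Bool → Z) := fun f c => b.lift f (g c)
  have hT : Function.Injective T := by
    intro f f' h
    have h2 : (b.lift f).comp (FreeGroup.lift g) = (b.lift f').comp (FreeGroup.lift g) := by
      apply FreeGroup.ext_hom
      intro c
      simp only [MonoidHom.comp_apply, FreeGroup.lift_apply_of]
      exact congrFun h c
    have h3 : b.lift f = b.lift f' := (MonoidHom.cancel_right hs).1 h2
    exact b.lift.injective h3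
  have hno : IsEmpty (Fin 3 ↪ ι) := by
    refine ⟨fun e => ?_⟩
    have h1 : Function.Injective (fun f : Fin 3 → Z => Function.extend e f 1) := by
      intro f f' h
      funext i
      have := congrFun h (e i)
      simpa [Function.Injective.extend_apply e.injective] using this
    have h2 := Fintype.card_le_of_injective _ (hT.comp h1)
    simp [hZ, Fintype.card_pi, ZMod.card] at h2
  have hfin : Finite ι := by
    by_contra h
    rw [not_finite_iff_infinite] at h
    exact hno.false ((Fin.valEmbedding (n := 3)).trans (Infinite.natEmbedding ι))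
  have : Fintype ι := Fintype.ofFinite ι
  have hcard : Fintype.card ι ≤ 2 := by
    by_contra h
    push Not at h
    have : Nonempty (Fin 3 ↪ ι) := by
      rw [Function.Embedding.nonempty_iff_card_le, Fintype.card_fin]
      omega
    exact hno.false this.some
  have hge : 2 ≤ Fintype.card ι := by
    by_contra h
    push Not at h
    have : Subsingleton ι := by
      rw [← Fintype.card_le_one_iff_subsingleton]
      omega
    apply hc
    have h3 := commute_of_subsingleton (b.repr (g true)) (b.repr (g false))
    have h4 := h3.map b.repr.symm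
    rwa [MulEquiv.symm_apply_apply, MulEquiv.symm_apply_apply] at h4
  exact ⟨Fintype.equivOfCardEq (by rw [Fintype.card_bool]; omega)⟩

theorem not_isFreeGroup (q : ℚ) (h0 : q ≠ 0) (h4 : |q| < 4) : ¬ IsFreeGroup (Gam (q : ℝ)) := by
  intro hfree
  obtain ⟨ι, ⟨b⟩⟩ := hfree.nonempty_basis
  have hqr : (q : ℝ) ≠ 0 := by exact_mod_cast h0
  obtain ⟨e⟩ := equiv_bool b (gens q) (gens_surjective q) (gens_not_commute q hqr)
  set ψ := (b.reindex e).repr with hψ
  have hsur : Function.Surjective (ψ.toMonoidHom.comp (FreeGroup.lift (gens (q : ℝ)))) :=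
    ψ.surjective.comp (gens_surjective q)
  have hinj := hopf _ hsur
  have hinj2 : Function.Injective (FreeGroup.lift (gens (q : ℝ))) := by
    have : Function.Injective (ψ ∘ (FreeGroup.lift (gens (q : ℝ)))) := hinj
    exact this.of_comp
  apply not_injective q h0 h4
  intro x y hxy
  apply hinj2
  apply Subtype.ext
  rw [lift_gens_coe, lift_gens_coe, hxy]

end Pool.Agent.Lib.MP_8dfcc7_al
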