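import Mathlib

/-!
# The sum of the reciprocals of the primes in an arithmetic progression diverges
-/

set_option autoImplicit false

namespace Pool.Agent.Lib.MP_8dfcc7_al

open ArithmeticFunction vonMangoldt LSeries

/-- indicator of the primes in the residue class `a`. -/
noncomputable def ind {q : ℕ} (a : ZMod q) (n : ℕ) : ℝ :=
  open Classical in if n.Prime ∧ (n : ZMod q) = a then 1 else 0

theorem ind_nonneg {q : ℕ} (a : ZMod q) (n : ℕ) : 0 ≤ ind a n := by
  unfold ind; split_ifs <;> norm_num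

theorem ind_le_one {q : ℕ} (a : ZMod q) (n : ℕ) : ind a n ≤ 1 := by
  unfold ind; split_ifs <;> norm_num

theorem step_ineq {n : ℕ} (hn : 1 ≤ n) (δ : ℝ) :
    (δ / 2) * Real.log n * (n : ℝ) ^ (-(1 + δ)) ≤
      (n : ℝ) ^ (-(1 + δ / 2)) - (n : ℝ) ^ (-(1 + δ)) := by
  have hn0 : (0 : ℝ) < n := by exact_mod_cast hn
  have e1 : (n : ℝ) ^ (-(1 + δ / 2)) = (n : ℝ) ^ (-(1 + δ)) * Real.exp (δ / 2 * Real.log n) := by
    rw [Real.rpow_def_of_pos hn0, Real.rpow_def_of_pos hn0, ← Real.exp_add]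
    congr 1
    ring
  rw [e1]
  have h1 := Real.add_one_le_exp (δ / 2 * Real.log n)
  have h2 : 0 < (n : ℝ) ^ (-(1 + δ)) := Real.rpow_pos_of_pos hn0 _
  nlinarith

theorem not_summable_inv (q : ℕ) [NeZero q] (a : ZMod q) (ha : IsUnit a) :
    ¬ Summable (fun n : ℕ => ind a n / n) := by
  intro hsum
  obtain ⟨C, hC⟩ := LSeries_residueClass_lower_bound ha
  set C1 := ∑' n : ℕ, (if n.Prime then 0 else residueClass a n) / n with hC1
  have hs1 := summable_residueClass_non_primes_div a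
  set x : ℕ → ℝ := fun k => 1 + (1 / 2 : ℝ) ^ k with hx
  have hx1 : ∀ k, 1 < x k := fun k => by simp only [hx]; linarith [pow_pos (by norm_num : (0:ℝ) < 1/2) k]
  have hx2 : ∀ k, x k ≤ 2 := fun k => by
    simp only [hx]
    have := pow_le_one₀ (n := k) (by norm_num : (0:ℝ) ≤ 1/2) (by norm_num)
    linarith
  -- summability
  have hsR : ∀ k, Summable fun n : ℕ => residueClass a n / (n : ℝ) ^ (x k) := fun k =>
    LSeries.summable_real_of_abscissaOfAbsConv_lt <|
      (abscissaOfAbsConv_residueClass_le_one a).trans_lt <| by exact_mod_cast hx1 k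
  have hle : ∀ k, ∀ n : ℕ, (if n.Prime then 0 else residueClass a n) / (n : ℝ) ^ (x k) ≤
      (if n.Prime then 0 else residueClass a n) / n := by
    intro k n
    rcases n.eq_zero_or_pos with rfl | hn
    · simp
    · refine div_le_div_of_nonneg_left ?_ (mod_cast hn) ?_
      · split_ifs; exacts [le_rfl, residueClass_nonneg a n]
      conv_lhs => rw [← Real.rpow_one n]
      exact Real.rpow_le_rpow_of_exponent_le (by norm_cast) (hx1 k).le
  have hnn : ∀ k, ∀ n : ℕ, 0 ≤ (if n.Prime then 0 else residueClass a n) / (n : ℝ) ^ (x k) := by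
    intro k n
    apply div_nonneg
    · split_ifs; exacts [le_rfl, residueClass_nonneg a n]
    · positivity
  have hsN : ∀ k, Summable fun n : ℕ => (if n.Prime then 0 else residueClass a n) / (n : ℝ) ^ (x k) :=
    fun k => Summable.of_nonneg_of_le (hnn k) (hle k) hs1
  have hNle : ∀ k, ∑' n : ℕ, (if n.Prime then 0 else residueClass a n) / (n : ℝ) ^ (x k) ≤ C1 :=
    fun k => Summable.tsum_le_tsum (hle k) (hsN k) hs1
  have hpr : ∀ n : ℕ, (if n.Prime then residueClass a n else 0) = ind a n * Real.log n := by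
    intro n
    unfold ind residueClass
    by_cases hp : n.Prime
    · by_cases ha' : (n : ZMod q) = a
      · rw [if_pos hp, if_pos ⟨hp, ha'⟩, Set.indicator_of_mem (by exact ha'),
          vonMangoldt_apply_prime hp, one_mul]
      · rw [if_pos hp, if_neg (by tauto), Set.indicator_of_notMem (by exact ha'), zero_mul]
    · rw [if_neg hp, if_neg (by tauto), zero_mul]
  have hsP : ∀ k, Summable fun n : ℕ => ind a n * Real.log n / (n : ℝ) ^ (x k) := by
    intro k
    have := (hsR k).sub (hsN k)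
    refine this.congr (fun n => ?_)
    rw [← hpr, ← sub_div]
    congr 1
    split_ifs <;> simp
  have hP : ∀ k, (q.totient : ℝ)⁻¹ * 2 ^ k - C - C1 ≤ ∑' n : ℕ, ind a n * Real.log n / (n : ℝ) ^ (x k) := by
    intro k
    have h1 := hC (x := x k) ⟨hx1 k, hx2 k⟩
    have h2 : (q.totient : ℝ)⁻¹ / (x k - 1) = (q.totient : ℝ)⁻¹ * 2 ^ k := by
      simp only [hx]
      rw [add_sub_cancel_left, div_eq_mul_inv, ← inv_pow]
      norm_num
    rw [h2] at h1
    have h3 : ∑' n : ℕ, residueClass a n / (n : ℝ) ^ (x k) =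
        ∑' n : ℕ, ind a n * Real.log n / (n : ℝ) ^ (x k) +
        ∑' n : ℕ, (if n.Prime then 0 else residueClass a n) / (n : ℝ) ^ (x k) := by
      rw [← (hsP k).tsum_add (hsN k)]
      refine tsum_congr (fun n => ?_)
      rw [← hpr, ← add_div]
      congr 1
      split_ifs <;> simp
    have h4 := hNle k
    linarith
  -- the function G
  have hsG : ∀ y : ℝ, 1 ≤ y → Summable fun n : ℕ => ind a n * (n : ℝ) ^ (-y) := by
    intro y hy
    refine Summable.of_nonneg_of_le (fun n => mul_nonneg (ind_nonneg a n) (by positivity)) ?_ hsum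
    intro n
    rcases n.eq_zero_or_pos with rfl | hn
    · simp [ind, Nat.not_prime_zero]
    · rw [div_eq_mul_inv]
      refine mul_le_mul_of_nonneg_left ?_ (ind_nonneg a n)
      rw [← Real.rpow_neg_one]
      exact Real.rpow_le_rpow_of_exponent_le (by exact_mod_cast hn) (by linarith)
  set G : ℝ → ℝ := fun y => ∑' n : ℕ, ind a n * (n : ℝ) ^ (-y) with hG
  have hstep : ∀ k, (1 / 2 : ℝ) ^ (k + 1) * ∑' n : ℕ, ind a n * Real.log n / (n : ℝ) ^ (x k) ≤
      G (x (k + 1)) - G (x k) := by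
    intro k
    simp only [hG]
    rw [← tsum_mul_left, ← (hsG _ (hx1 _).le).tsum_sub (hsG _ (hx1 _).le)]
    refine Summable.tsum_le_tsum (fun n => ?_) ((hsP k).mul_left _)
      ((hsG _ (hx1 _).le).sub (hsG _ (hx1 _).le))
    rcases n.eq_zero_or_pos with rfl | hn
    · simp [ind, Nat.not_prime_zero]
    · have h1 := step_ineq hn ((1 / 2 : ℝ) ^ k)
      have e1 : (n : ℝ) ^ (-(1 + (1 / 2 : ℝ) ^ k)) = 1 / (n : ℝ) ^ (x k) := by
        rw [Real.rpow_neg (by positivity)]
        exact (one_div _).symm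
      have e2 : (1 : ℝ) + (1 / 2) ^ k / 2 = x (k + 1) := by
        simp only [hx]; rw [pow_succ]; ring
      rw [e2] at h1
      have h2 := mul_le_mul_of_nonneg_left h1 (ind_nonneg a n)
      calc (1 / 2 : ℝ) ^ (k + 1) * (ind a n * Real.log n / (n : ℝ) ^ (x k))
          = ind a n * ((1 / 2) ^ k / 2 * Real.log n * (n : ℝ) ^ (-(1 + (1 / 2 : ℝ) ^ k))) := by
            rw [e1, pow_succ]; ring
        _ ≤ _ := h2
        _ = _ := by ring
  have htel : ∀ K : ℕ, (q.totient : ℝ)⁻¹ * K / 2 - |C + C1| ≤ G (x K) - G (x 0) := by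
    intro K
    have h1 : ∀ K : ℕ, ∑ k ∈ Finset.range K, ((q.totient : ℝ)⁻¹ / 2 - (1 / 2 : ℝ) ^ (k + 1) * |C + C1|) ≤
        G (x K) - G (x 0) := by
      intro K
      rw [← Finset.sum_range_sub (fun k => G (x k))]
      refine Finset.sum_le_sum (fun k _ => ?_)
      refine le_trans ?_ (hstep k)
      have h2 := mul_le_mul_of_nonneg_left (hP k) (by positivity : (0:ℝ) ≤ (1 / 2) ^ (k + 1))
      refine le_trans ?_ h2
      have h3 : (1 / 2 : ℝ) ^ (k + 1) * 2 ^ k = 1 / 2 := by
        rw [pow_succ, mul_right_comm, ← mul_pow]; norm_num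
      have h4 : (1 / 2 : ℝ) ^ (k + 1) * (C + C1) ≤ (1 / 2 : ℝ) ^ (k + 1) * |C + C1| :=
        mul_le_mul_of_nonneg_left (le_abs_self _) (by positivity)
      have h5 : (1 / 2 : ℝ) ^ (k + 1) * ((q.totient : ℝ)⁻¹ * 2 ^ k - C - C1) =
          (q.totient : ℝ)⁻¹ * ((1 / 2 : ℝ) ^ (k + 1) * 2 ^ k) - (1 / 2 : ℝ) ^ (k + 1) * (C + C1) := by
        ring
      rw [h5, h3]
      linarith
    refine le_trans ?_ (h1 K)
    rw [Finset.sum_sub_distrib, ← Finset.sum_mul]
    have h6 : ∀ K : ℕ, ∑ k ∈ Finset.range K, (1 / 2 : ℝ) ^ (k + 1) = 1 - (1 / 2) ^ K := by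
      intro K
      induction K with
      | zero => simp
      | succ K ih => rw [Finset.sum_range_succ, ih, pow_succ]; ring
    rw [h6]
    simp only [Finset.sum_const, Finset.card_range, nsmul_eq_mul]
    have h7 : (1 - (1 / 2 : ℝ) ^ K) * |C + C1| ≤ |C + C1| := by
      have := abs_nonneg (C + C1)
      have h8 : (0:ℝ) ≤ (1 / 2) ^ K := by positivity
      nlinarith
    have h9 : (K : ℝ) * ((q.totient : ℝ)⁻¹ / 2) = (q.totient : ℝ)⁻¹ * K / 2 := by ring
    linarith
  have hGle : ∀ K : ℕ, G (x K) - G (x 0) ≤ ∑' n : ℕ, ind a n / n := by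
    intro K
    have h1 : G (x K) ≤ ∑' n : ℕ, ind a n / n := by
      refine Summable.tsum_le_tsum (fun n => ?_) (hsG _ (hx1 _).le) hsum
      rcases n.eq_zero_or_pos with rfl | hn
      · simp [ind, Nat.not_prime_zero]
      · rw [div_eq_mul_inv]
        refine mul_le_mul_of_nonneg_left ?_ (ind_nonneg a n)
        rw [← Real.rpow_neg_one]
        exact Real.rpow_le_rpow_of_exponent_le (by exact_mod_cast hn) (by linarith [hx1 K])
    have h2 : 0 ≤ G (x 0) := tsum_nonneg (fun n => mul_nonneg (ind_nonneg a n) (by positivity))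
    exact (sub_le_self _ h2).trans h1
  set T := ∑' n : ℕ, ind a n / n with hT
  have hpos : 0 < (q.totient : ℝ)⁻¹ := inv_pos.mpr (mod_cast q.totient.pos_of_neZero)
  obtain ⟨K, hK⟩ := exists_nat_gt ((T + |C + C1|) / ((q.totient : ℝ)⁻¹ / 2))
  rw [div_lt_iff₀ (by linarith)] at hK
  have key := (htel K).trans (hGle K)
  rw [show (q.totient : ℝ)⁻¹ * K / 2 = (K : ℝ) * ((q.totient : ℝ)⁻¹ / 2) by ring,
    sub_le_iff_le_add] at key
  exact absurd hK (not_lt.mpr key)

end Pool.Agent.Lib.MP_8dfcc7_al
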