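import Pool.Agent.Lib.MP_8dfcc7_al.FreeWord

/-!
# From many words of moderate value to exponentially many words of bounded value
-/

set_option autoImplicit false

namespace Pool.Agent.Lib.MP_8dfcc7_al

/-- `r`-fold concatenations. -/
def conc (B : Finset (List ℤ)) : ℕ → Finset (List ℤ)
  | 0 => {[]}
  | r + 1 => Finset.image₂ (fun u v => u ++ v) B (conc B r)

lemma conc_isW {B : Finset (List ℤ)} {l : ℕ} (hB : ∀ w ∈ B, IsW l w) (r : ℕ) :
    ∀ w ∈ conc B r, IsW (l * r) w := by
  induction r with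
  | zero =>
    intro w hw
    rw [conc, Finset.mem_singleton] at hw
    rw [hw]
    exact IsW.nil
  | succ r ih =>
    intro w hw
    rw [conc, Finset.mem_image₂] at hw
    obtain ⟨u, hu, v, hv, rfl⟩ := hw
    have := (hB u hu).append (ih v hv)
    rwa [show l * (r + 1) = l + l * r by ring]

lemma conc_card {B : Finset (List ℤ)} {l : ℕ} (hB : ∀ w ∈ B, IsW l w) (r : ℕ) :
    (conc B r).card = B.card ^ r := by
  induction r with
  | zero => simp [conc]
  | succ r ih =>
    rw [conc, Finset.card_image₂_iff.2, ih, pow_succ, mul_comm]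
    rintro ⟨u, v⟩ h1 ⟨u', v'⟩ h2 h
    simp only [Set.mem_prod, Finset.mem_coe] at h1 h2
    have hl : u.length = u'.length := by rw [(hB u h1.1).1, (hB u' h2.1).1]
    obtain ⟨h3, h4⟩ := List.append_inj h hl
    exact Prod.ext h3 h4

lemma conc_nrm {q : ℝ} {B : Finset (List ℤ)} {l : ℕ} (hB : ∀ w ∈ B, IsW l w) {τ : ℝ}
    (hτ : ∀ w ∈ B, nrm (val q w) ≤ τ) (r : ℕ) :
    ∀ w ∈ conc B r, nrm (val q w) ≤ 2 * τ ^ r := by
  induction r with
  | zero =>
    intro w hw
    rw [conc, Finset.mem_singleton] at hw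
    rw [hw]
    show nrm (1 : SL2) ≤ _
    rw [nrm_one]
    simp
  | succ r ih =>
    intro w hw
    rw [conc, Finset.mem_image₂] at hw
    obtain ⟨u, hu, v, hv, rfl⟩ := hw
    rw [val_append q l u v (hB u hu)]
    have h1 := hτ u hu
    have h2 := ih v hv
    have h3 := nrm_pos (val q u)
    have h4 := nrm_pos (val q v)
    calc nrm (val q u * val q v) ≤ nrm (val q u) * nrm (val q v) := nrm_mul_le _ _
      _ ≤ τ * (2 * τ ^ r) := mul_le_mul h1 h2 h4.le (by linarith)
      _ = _ := by ring

open Classical in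
/-- near pairs among the `r`-fold concatenations. -/
noncomputable def near (q : ℝ) (B : Finset (List ℤ)) (r : ℕ) : Finset (List ℤ × List ℤ) :=
  (conc B r ×ˢ conc B r).filter (fun p => nrm ((val q p.1)⁻¹ * val q p.2) ≤ 8)

open Classical in
/-- near pairs with given first blocks. -/
noncomputable def nearB (q : ℝ) (B : Finset (List ℤ)) (r : ℕ) (b b' : List ℤ) :
    Finset (List ℤ × List ℤ) :=
  (conc B r ×ˢ conc B r).filter
    (fun p => nrm ((val q b * val q p.1)⁻¹ * (val q b' * val q p.2)) ≤ 8)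

lemma nearB_self (q : ℝ) (B : Finset (List ℤ)) (r : ℕ) (b : List ℤ) :
    nearB q B r b b = near q B r := by
  classical
  unfold nearB near
  refine Finset.filter_congr (fun p _ => ?_)
  have : (val q b * val q p.1)⁻¹ * (val q b * val q p.2) = (val q p.1)⁻¹ * val q p.2 := by group
  rw [this]

lemma near_succ_le (q : ℝ) {B : Finset (List ℤ)} {l : ℕ} (hB : ∀ w ∈ B, IsW l w) (r : ℕ) (M : ℕ)
    (hM : ∀ b ∈ B, ∀ b' ∈ B, b ≠ b' → (nearB q B r b b').card ≤ M) :
    (near q B (r + 1)).card ≤ B.card * (near q B r).card + B.card ^ 2 * M := by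
  classical
  have hsub : near q B (r + 1) ⊆ (B ×ˢ B).biUnion (fun c =>
      (nearB q B r c.1 c.2).image (fun p => (c.1 ++ p.1, c.2 ++ p.2))) := by
    intro p hp
    unfold near at hp
    rw [Finset.mem_filter, Finset.mem_product] at hp
    obtain ⟨⟨h1, h2⟩, h3⟩ := hp
    rw [conc, Finset.mem_image₂] at h1 h2
    obtain ⟨b, hb, x, hx, e1⟩ := h1
    obtain ⟨b', hb', y, hy, e2⟩ := h2
    rw [Finset.mem_biUnion]
    refine ⟨(b, b'), Finset.mem_product.2 ⟨hb, hb'⟩, ?_⟩
    rw [Finset.mem_image]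
    refine ⟨(x, y), ?_, Prod.ext e1 e2⟩
    unfold nearB
    rw [Finset.mem_filter, Finset.mem_product]
    refine ⟨⟨hx, hy⟩, ?_⟩
    rw [← e1, ← e2, val_append q l b x (hB b hb), val_append q l b' y (hB b' hb')] at h3
    exact h3
  calc (near q B (r + 1)).card ≤ _ := Finset.card_le_card hsub
    _ ≤ ∑ c ∈ B ×ˢ B, ((nearB q B r c.1 c.2).image (fun p => (c.1 ++ p.1, c.2 ++ p.2))).card :=
        Finset.card_biUnion_le
    _ ≤ ∑ c ∈ B ×ˢ B, (nearB q B r c.1 c.2).card :=
        Finset.sum_le_sum (fun c _ => Finset.card_image_le)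
    _ ≤ ∑ c ∈ B ×ˢ B, ((if c.1 = c.2 then (near q B r).card else 0) + M) := by
        refine Finset.sum_le_sum (fun c hc => ?_)
        rw [Finset.mem_product] at hc
        by_cases h : c.1 = c.2
        · rw [if_pos h, ← h, nearB_self]
          omega
        · rw [if_neg h]
          have := hM c.1 hc.1 c.2 hc.2 h
          omega
    _ = B.card * (near q B r).card + B.card ^ 2 * M := by
        rw [Finset.sum_add_distrib, Finset.sum_const, Finset.card_product, ← Finset.sum_filter,
          Finset.sum_const]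
        have : (Finset.filter (fun c : List ℤ × List ℤ => c.1 = c.2) (B ×ˢ B)).card = B.card := by
          rw [← Finset.diag_card B]
          congr 1
          ext ⟨x, y⟩
          simp only [Finset.mem_filter, Finset.mem_product, Finset.mem_diag]
          constructor
          · rintro ⟨⟨h1, _⟩, h3⟩
            exact ⟨h1, h3⟩
          · rintro ⟨h1, h3⟩
            exact ⟨⟨h1, h3 ▸ h1⟩, h3⟩
        rw [this]
        simp only [smul_eq_mul]
        ring

lemma offdiag (q : ℝ) {B : Finset (List ℤ)} {l : ℕ} (hB : ∀ w ∈ B, IsW l w) (r : ℕ)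
    {b b' : List ℤ} (hb : b ∈ B) (hb' : b' ∈ B) (hne : b ≠ b') :
    ∃ k : ℕ, r ≤ k ∧ k ≤ 2 * (l * (r + 1)) ∧ ∃ C : Finset (List ℤ),
      (∀ w ∈ C, IsW k w ∧ nrm (val q w) ≤ 24) ∧ C.card = (nearB q B r b b').card := by
  classical
  obtain ⟨v, hv0, ⟨j, hj, hj'⟩, hv⟩ := exists_diff (gq q) b b' true
    (by rw [(hB b hb).1, (hB b' hb').1]) hne (hB b hb).2 (hB b' hb').2
  have hbl : b.length = 2 * l := (hB b hb).1
  rw [hbl, show 2 * l + 1 = 2 * l + 1 from rfl, par_succ', par_two_mul] at hv
  set f : List ℤ × List ℤ → List ℤ := fun p =>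
    1 :: ((p.1.map Neg.neg).reverse ++ (v ++ p.2)) with hf
  have hl1 : 1 ≤ l := by omega
  have hW := conc_isW hB r
  refine ⟨2 * (l * r) + j + 1, by nlinarith, by nlinarith, (nearB q B r b b').image f, ?_, ?_⟩
  · intro w hw
    rw [Finset.mem_image] at hw
    obtain ⟨⟨x, y⟩, hp, rfl⟩ := hw
    unfold nearB at hp
    rw [Finset.mem_filter, Finset.mem_product] at hp
    obtain ⟨⟨hx, hy⟩, hn⟩ := hp
    simp only at hx hy hn
    have hx' := hW x hx
    have hy' := hW y hy
    refine ⟨⟨?_, ?_⟩, ?_⟩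
    · simp only [hf, List.length_cons, List.length_append, List.length_reverse, List.length_map]
      rw [hx'.1, hy'.1, hj]
      ring
    · intro z hz
      simp only [hf] at hz
      rw [List.mem_cons, List.mem_append, List.mem_append, List.mem_reverse, List.mem_map] at hz
      rcases hz with rfl | ⟨u, hu, rfl⟩ | hz | hz
      · norm_num
      · have := hx'.2 u hu
        intro h
        exact this (Int.neg_eq_zero.1 h)
      · exact hv0 z hz
      · exact hy'.2 z hz
    · have hval : val q (f (x, y)) = upper 1 * ((val q b * val q x)⁻¹ * (val q b' * val q y)) := by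
        simp only [hf, val, evw]
        rw [evw_append, evw_append]
        have e1 : (evw (gq q) true x)⁻¹ = evw (gq q) (!true) (x.map Neg.neg).reverse := by
          rw [evw_inv, hx'.1, par_succ', par_two_mul]
        have e2 : par (!true) (x.map Neg.neg).reverse.length = !true := by
          rw [List.length_reverse, List.length_map, hx'.1, par_two_mul]
        have e3 : par (!true) v.length = true := by
          rw [hj, par_succ', par_two_mul]
          rfl
        rw [e2, e3, ← e1, ← hv, zpow_one]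
        show upper 1 * _ = _
        group
      rw [hval]
      calc nrm (upper 1 * ((val q b * val q x)⁻¹ * (val q b' * val q y))) ≤
            nrm (upper 1) * nrm ((val q b * val q x)⁻¹ * (val q b' * val q y)) := nrm_mul_le _ _
        _ ≤ 3 * 8 := by
            rw [nrm_upper]
            have := nrm_pos ((val q b * val q x)⁻¹ * (val q b' * val q y))
            nlinarith
        _ = 24 := by norm_num
  · apply Finset.card_image_of_injOn
    rintro ⟨x, y⟩ hp ⟨x', y'⟩ hp' heq
    have hp := Finset.mem_coe.1 hp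
    have hp' := Finset.mem_coe.1 hp'
    unfold nearB at hp hp'
    rw [Finset.mem_filter, Finset.mem_product] at hp hp'
    have hx := (hW x hp.1.1).1
    have hx' := (hW x' hp'.1.1).1
    simp only [hf, List.cons.injEq, true_and] at heq
    obtain ⟨h1, h2⟩ := List.append_inj heq (by simp [hx, hx'])
    obtain ⟨_, h3⟩ := List.append_inj h2 rfl
    rw [List.reverse_inj] at h1
    have h4 : x = x' := by
      apply List.map_injective_iff.2 _ h1
      intro a c h
      exact neg_injective h
    rw [h4, h3]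

/-- **Amplification.** -/
theorem good_of_block (q P : ℝ) (hP : 0 ≤ P) (l : ℕ) (B : Finset (List ℤ))
    (hB : ∀ w ∈ B, IsW l w) (τ : ℕ) (hτ : ∀ w ∈ B, nrm (val q w) ≤ τ) (h1 : τ < B.card)
    (h2 : Real.exp (P * (2 * l)) * τ < (B.card : ℝ) ^ 2) : Good q P := by
  classical
  set n0 : ℝ := (B.card : ℝ) with hn0
  set β : ℝ := Real.exp (P * (2 * l)) with hβ
  have hBne : B.Nonempty := by
    rw [← Finset.card_pos]; omega
  have hτ1 : (2 : ℝ) ≤ τ := by
    obtain ⟨w, hw⟩ := hBne
    linarith [two_le_nrm (val q w), hτ w hw]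
  have hτn : (τ : ℝ) < n0 := by rw [hn0]; exact_mod_cast h1
  have hn0pos : 0 < n0 := by linarith
  have hβ1 : 1 ≤ β := by
    rw [hβ]
    exact Real.one_le_exp (by positivity)
  -- choose the intermediate growth rate
  obtain ⟨θ, hθ1, hθ2⟩ : ∃ θ : ℝ, max n0 β < θ ∧ θ < n0 ^ 2 / τ := by
    apply exists_between
    rw [max_lt_iff]
    constructor
    · rw [lt_div_iff₀ (by linarith)]
      nlinarith
    · rw [lt_div_iff₀ (by linarith)]
      exact h2
  have hθn : n0 < θ := lt_of_le_of_lt (le_max_left _ _) hθ1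
  have hθβ : β < θ := lt_of_le_of_lt (le_max_right _ _) hθ1
  have hθpos : 0 < θ := by linarith
  by_contra hgood
  unfold Good at hgood
  push Not at hgood
  obtain ⟨K, hK⟩ := hgood
  -- the recursion
  have hrec : ∀ r, K ≤ r → ((near q B (r + 1)).card : ℝ) ≤
      n0 * (near q B r).card + n0 ^ 2 * θ ^ (r + 1) := by
    intro r hr
    have hbound : ∀ b ∈ B, ∀ b' ∈ B, b ≠ b' →
        (nearB q B r b b').card ≤ ⌊θ ^ (r + 1)⌋₊ := by
      intro b hb b' hb' hne
      obtain ⟨k, hk1, hk2, C, hC, hcard⟩ := offdiag q hB r hb hb' hne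
      have h3 := hK k (hr.trans hk1) C hC
      rw [hcard] at h3
      apply Nat.le_floor
      have h4 : Real.exp (P * k) ≤ β ^ (r + 1) := by
        rw [hβ, ← Real.exp_nat_mul]
        apply Real.exp_le_exp.2
        have : (k : ℝ) ≤ 2 * (l * (r + 1)) := by exact_mod_cast hk2
        push_cast
        nlinarith
      have h5 : β ^ (r + 1) ≤ θ ^ (r + 1) := pow_le_pow_left₀ (by linarith) hθβ.le _
      linarith
    have h3 := near_succ_le q hB r _ hbound
    have h4 : ((⌊θ ^ (r + 1)⌋₊ : ℕ) : ℝ) ≤ θ ^ (r + 1) := Nat.floor_le (by positivity)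
    calc ((near q B (r + 1)).card : ℝ) ≤
          ((B.card * (near q B r).card + B.card ^ 2 * ⌊θ ^ (r + 1)⌋₊ : ℕ) : ℝ) := by
            exact_mod_cast h3
      _ = n0 * (near q B r).card + n0 ^ 2 * (⌊θ ^ (r + 1)⌋₊ : ℕ) := by push_cast; rfl
      _ ≤ _ := by gcongr
  -- the resulting bound
  obtain ⟨D, hD0, hD⟩ : ∃ D : ℝ, 0 < D ∧ ∀ r, K ≤ r → ((near q B r).card : ℝ) ≤ D * θ ^ r := by
    refine ⟨max ((near q B K).card / θ ^ K) (n0 ^ 2 * θ / (θ - n0)), ?_, ?_⟩
    · apply lt_max_of_lt_right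
      apply div_pos (by positivity) (by linarith)
    · intro r hr
      induction r, hr using Nat.le_induction with
      | base =>
        calc ((near q B K).card : ℝ) = (near q B K).card / θ ^ K * θ ^ K := by
              field_simp
          _ ≤ _ := by gcongr; exact le_max_left _ _
      | succ r hr ih =>
        set D := max ((near q B K).card / θ ^ K) (n0 ^ 2 * θ / (θ - n0)) with hD
        have h3 := hrec r hr
        have h4 : n0 ^ 2 * θ ≤ D * (θ - n0) := by
          rw [← div_le_iff₀ (by linarith)]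
          exact le_max_right _ _
        have h5 : 0 < θ ^ r := by positivity
        calc ((near q B (r + 1)).card : ℝ) ≤ n0 * (near q B r).card + n0 ^ 2 * θ ^ (r + 1) := h3
          _ ≤ n0 * (D * θ ^ r) + n0 ^ 2 * θ ^ (r + 1) := by gcongr
          _ = θ ^ r * (n0 * D + n0 ^ 2 * θ) := by ring
          _ ≤ θ ^ r * (D * θ) := by
              apply mul_le_mul_of_nonneg_left _ h5.le
              linarith
          _ = _ := by ring
  -- the pigeonhole
  have hpig : ∀ r, K ≤ r → (n0 ^ 2 / (θ * τ)) ^ r ≤ (5 * D) * (2 * τ * r + 3) := by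
    intro r hr
    have hτr : (1 : ℝ) ≤ (τ : ℝ) ^ r := one_le_pow₀ (by linarith)
    have h3 := near_pairs (conc B r) (val q) (τ * r + 1) (2 * τ ^ r) (2 * (τ : ℝ) ^ r)
      (conc_nrm hB hτ r) (by
        rw [pow_succ, pow_mul, mul_comm]
        apply mul_le_mul_of_nonneg_right _ (by norm_num)
        apply pow_le_pow_left₀ (by positivity)
        have : τ ≤ 2 ^ τ := (Nat.lt_two_pow_self).le
        exact_mod_cast this) (by push_cast; exact le_rfl)
    rw [conc_card hB r] at h3
    have h4 : (n0 ^ r) ^ 2 ≤ ((2 * (τ * r + 1) + 1) * (2 * (2 * τ ^ r) + 1)) *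
        ((near q B r).card : ℝ) := by
      rw [hn0]
      unfold near
      exact_mod_cast h3
    have h5 := hD r hr
    have h6 : (2 * (2 * (τ : ℝ) ^ r) + 1) ≤ 5 * (τ : ℝ) ^ r := by linarith
    have h7 : (n0 ^ r) ^ 2 ≤ ((2 * (τ * r + 1) + 1) * (5 * (τ : ℝ) ^ r)) * (D * θ ^ r) := by
      refine h4.trans ?_
      apply mul_le_mul _ h5 (by positivity) (by positivity)
      apply mul_le_mul_of_nonneg_left h6 (by positivity)
    rw [div_pow, div_le_iff₀ (by positivity), mul_pow, ← pow_mul, mul_comm 2 r, pow_mul]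
    calc (n0 ^ r) ^ 2 ≤ _ := h7
      _ = _ := by ring
  -- contradiction
  set ρ : ℝ := n0 ^ 2 / (θ * τ) with hρ
  have hρ1 : 1 < ρ := by
    rw [hρ, lt_div_iff₀ (by positivity), one_mul]
    rw [lt_div_iff₀ (by linarith)] at hθ2
    exact hθ2
  have lim1 := tendsto_pow_const_div_const_pow_of_one_lt 1 hρ1
  have lim0 := tendsto_pow_const_div_const_pow_of_one_lt 0 hρ1
  have lim : Filter.Tendsto (fun r : ℕ => (5 * D) * (2 * τ * ((r : ℝ) ^ 1 / ρ ^ r) +
      3 * ((r : ℝ) ^ 0 / ρ ^ r))) Filter.atTop (nhds ((5 * D) * (2 * τ * 0 + 3 * 0))) :=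
    ((lim1.const_mul _).add (lim0.const_mul _)).const_mul _
  have hev := lim.eventually (gt_mem_nhds (show (5 * D) * (2 * τ * 0 + 3 * 0) < (1 : ℝ) by norm_num))
  obtain ⟨r, hr1, hr2⟩ := (hev.and (Filter.eventually_ge_atTop K)).exists
  have h3 := hpig r hr2
  have hρr : 0 < ρ ^ r := by positivity
  have h4 : (5 * D) * (2 * τ * ((r : ℝ) ^ 1 / ρ ^ r) + 3 * ((r : ℝ) ^ 0 / ρ ^ r)) =
      (5 * D) * (2 * τ * r + 3) / ρ ^ r := by
    field_simp
  rw [h4, div_lt_one hρr] at hr1
  linarith

end Pool.Agent.Lib.MP_8dfcc7_al
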