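import Pool.Agent.Lib.MP_8dfcc7_al.Improve

/-!
# The elliptic element gives exponentially many bounded words
-/

set_option autoImplicit false

namespace Pool.Agent.Lib.MP_8dfcc7_al

/-- the word of the `n`-th power of `A * B⁻¹`. -/
def pw : ℕ → List ℤ
  | 0 => []
  | n + 1 => 1 :: (-1) :: pw n

lemma pw_isW (n : ℕ) : IsW n (pw n) := by
  induction n with
  | zero => exact IsW.nil
  | succ n ih =>
    refine ⟨?_, ?_⟩
    · simp only [pw, List.length_cons, ih.1]
      ring
    · intro x hx
      simp only [pw, List.mem_cons] at hx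
      rcases hx with rfl | rfl | h
      · norm_num
      · norm_num
      · exact ih.2 x h

lemma pw_cons_inj (n : ℕ) : ∀ (m : ℕ) (u v : List ℤ), pw n ++ 2 :: u = pw m ++ 2 :: v → n = m := by
  induction n with
  | zero =>
    intro m u v h
    cases m with
    | zero => rfl
    | succ m => simp [pw] at h
  | succ n ih =>
    intro m u v h
    cases m with
    | zero => simp [pw] at h
    | succ m =>
      simp only [pw, List.cons_append, List.cons.injEq, true_and] at h
      rw [ih m u v h]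

/-- the invariant quadratic form. -/
lemma pw_form (q : ℝ) (n : ℕ) :
    q * (val q (pw n)).1 0 0 ^ 2 - q * (val q (pw n)).1 0 0 * (val q (pw n)).1 1 0 +
      (val q (pw n)).1 1 0 ^ 2 = q ∧
    q * (val q (pw n)).1 0 1 ^ 2 - q * (val q (pw n)).1 0 1 * (val q (pw n)).1 1 1 +
      (val q (pw n)).1 1 1 ^ 2 = 1 := by
  induction n with
  | zero => simp [pw, val, evw]
  | succ n ih =>
    have h : val q (pw (n + 1)) = (upper 1 * lower (-q)) * val q (pw n) := by
      simp only [pw, val, evw]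
      rw [gq_zpow_true, Bool.not_true, gq_zpow_false, Bool.not_false, mul_assoc]
      simp
    obtain ⟨h1, h2⟩ := ih
    obtain ⟨m1, m2, m3, m4⟩ := mul_entries (upper 1 * lower (-q)) (val q (pw n))
    obtain ⟨e1, e2, e3, e4⟩ := mul_entries (upper 1) (lower (-q))
    have u1 : (upper (1 : ℝ)).1 0 0 = 1 := by simp [upper]
    have u2 : (upper (1 : ℝ)).1 0 1 = 1 := by simp [upper]
    have u3 : (upper (1 : ℝ)).1 1 0 = 0 := by simp [upper]
    have u4 : (upper (1 : ℝ)).1 1 1 = 1 := by simp [upper]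
    have v1 : (lower (-q)).1 0 0 = 1 := by simp [lower]
    have v2 : (lower (-q)).1 0 1 = 0 := by simp [lower]
    have v3 : (lower (-q)).1 1 0 = -q := by simp [lower]
    have v4 : (lower (-q)).1 1 1 = 1 := by simp [lower]
    rw [u1, u2, v1, v3] at e1
    rw [u1, u2, v2, v4] at e2
    rw [u3, u4, v1, v3] at e3
    rw [u3, u4, v2, v4] at e4
    rw [e1, e2] at m1 m2
    rw [e3, e4] at m3 m4
    rw [h, m1, m2, m3, m4]
    constructor
    · linear_combination h1
    · linear_combination h2

lemma pw_bounded (q : ℝ) (h0 : 0 < q) (h4 : q < 4) (n : ℕ) :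
    nrm (val q (pw n)) ≤ (q + 1) ^ 2 / (q - q ^ 2 / 4) := by
  obtain ⟨h1, h2⟩ := pw_form q n
  have hpos : 0 < q - q ^ 2 / 4 := by nlinarith
  rw [le_div_iff₀ hpos]
  unfold nrm
  generalize (val q (pw n)).1 0 0 = a at *
  generalize (val q (pw n)).1 0 1 = b at *
  generalize (val q (pw n)).1 1 0 = c at *
  generalize (val q (pw n)).1 1 1 = d at *
  have key1 : (q + 1) * (q * a ^ 2 - q * a * c + c ^ 2) =
      (q - q ^ 2 / 4) * (a ^ 2 + c ^ 2) + (q * a - q * c / 2) ^ 2 + (c - q * a / 2) ^ 2 := by ring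
  have key2 : (q + 1) * (q * b ^ 2 - q * b * d + d ^ 2) =
      (q - q ^ 2 / 4) * (b ^ 2 + d ^ 2) + (q * b - q * d / 2) ^ 2 + (d - q * b / 2) ^ 2 := by ring
  rw [h1] at key1
  rw [h2] at key2
  nlinarith [sq_nonneg (q * a - q * c / 2), sq_nonneg (c - q * a / 2),
    sq_nonneg (q * b - q * d / 2), sq_nonneg (d - q * b / 2)]

theorem good_start (q : ℝ) (h0 : 0 < q) (h4 : q < 4) : ∃ P : ℝ, 0 < P ∧ Good q P := by
  classical
  set R : ℝ := (q + 1) ^ 2 / (q - q ^ 2 / 4) with hR
  have hRpos : 0 ≤ R := by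
    have : 0 < q - q ^ 2 / 4 := by nlinarith
    positivity
  obtain ⟨N, hN⟩ := exists_nat_ge (R * nrm (val q [2, -1]) * R)
  have hpos := nrm_pos (val q [2, -1])
  have hmid : IsW 1 [2, -1] := ⟨rfl, by simp⟩
  set B : Finset (List ℤ) := (Finset.range (N + 1)).image
    (fun n => pw n ++ ([2, -1] ++ pw (N - n))) with hB
  have hBW : ∀ w ∈ B, IsW (N + 1) w := by
    intro w hw
    rw [hB, Finset.mem_image] at hw
    obtain ⟨n, hn, rfl⟩ := hw
    rw [Finset.mem_range] at hn
    have := (pw_isW n).append (hmid.append (pw_isW (N - n)))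
    rwa [show n + (1 + (N - n)) = N + 1 by omega] at this
  have hBcard : B.card = N + 1 := by
    rw [hB, Finset.card_image_of_injOn, Finset.card_range]
    intro n _ m _ h
    exact pw_cons_inj n m _ _ h
  have hBn : ∀ w ∈ B, nrm (val q w) ≤ N := by
    intro w hw
    rw [hB, Finset.mem_image] at hw
    obtain ⟨n, hn, rfl⟩ := hw
    rw [val_append q n _ _ (pw_isW n), val_append q 1 _ _ hmid]
    have b1 := pw_bounded q h0 h4 n
    have b2 := pw_bounded q h0 h4 (N - n)
    rw [← hR] at b1 b2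
    have p1 := nrm_pos (val q (pw n))
    have p2 := nrm_pos (val q (pw (N - n)))
    calc nrm (val q (pw n) * (val q [2, -1] * val q (pw (N - n))))
        ≤ nrm (val q (pw n)) * nrm (val q [2, -1] * val q (pw (N - n))) := nrm_mul_le _ _
      _ ≤ nrm (val q (pw n)) * (nrm (val q [2, -1]) * nrm (val q (pw (N - n)))) := by
          apply mul_le_mul_of_nonneg_left (nrm_mul_le _ _) p1.le
      _ ≤ R * (nrm (val q [2, -1]) * R) := by gcongr
      _ = R * nrm (val q [2, -1]) * R := by ring
      _ ≤ N := hN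
  have hN2 : 2 ≤ (N : ℝ) := by
    have : (pw 0 ++ ([2, -1] ++ pw (N - 0))) ∈ B := by
      rw [hB, Finset.mem_image]
      exact ⟨0, by simp, rfl⟩
    linarith [hBn _ this, two_le_nrm (val q (pw 0 ++ ([2, -1] ++ pw (N - 0))))]
  have hratio : 1 < ((N : ℝ) + 1) / N := by
    rw [lt_div_iff₀ (by linarith)]
    linarith
  refine ⟨Real.log (((N : ℝ) + 1) / N) / (2 * (N + 1)), ?_, ?_⟩
  · have := Real.log_pos hratio
    positivity
  · refine good_of_block q _ ?_ (N + 1) B hBW N hBn (by omega) ?_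
    · have := Real.log_pos hratio
      positivity
    · have e : Real.log (((N : ℝ) + 1) / N) / (2 * (N + 1)) * (2 * ((N + 1 : ℕ) : ℝ)) =
          Real.log (((N : ℝ) + 1) / N) := by
        push_cast
        field_simp
      rw [e, Real.exp_log (by linarith), hBcard]
      push_cast
      rw [div_mul_cancel₀ _ (by linarith)]
      nlinarith

theorem good_unbounded (q : ℝ) (h0 : 0 < q) (h4 : q < 4) (Pm : ℝ) : ∃ P : ℝ, Pm < P ∧ Good q P := by
  obtain ⟨P0, hP0, hG0⟩ := good_start q h0 h4
  obtain ⟨δ, hδ, hstep⟩ := Good.improve q (by rw [abs_of_pos h0]; exact h4.le) P0 Pm hP0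
  by_contra hcon
  push Not at hcon
  have hle : ∀ P, Good q P → P ≤ Pm := by
    intro P hP
    by_contra h
    exact hcon P (not_le.1 h) hP
  have hall : ∀ n : ℕ, Good q (P0 + n * δ) := by
    intro n
    induction n with
    | zero => simpa using hG0
    | succ n ih =>
      have h1 := hle _ ih
      have h2 : P0 ≤ P0 + n * δ := by
        have : 0 ≤ (n : ℝ) * δ := by positivity
        linarith
      have h3 := hstep _ h2 h1 ih
      have e : P0 + ((n + 1 : ℕ) : ℝ) * δ = P0 + n * δ + δ := by push_cast; ring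
      rw [e]
      exact h3
  obtain ⟨n, hn⟩ := exists_nat_gt ((Pm - P0) / δ)
  rw [div_lt_iff₀ hδ] at hn
  have := hle _ (hall n)
  linarith

theorem not_injective_pos (s t : ℤ) (ht : 0 < t) (h0 : 0 < (s : ℝ) / t) (h4 : (s : ℝ) / t < 4) :
    ¬ Function.Injective (FreeGroup.lift (gq ((s : ℝ) / t))) := by
  intro hfree
  obtain ⟨P, hP, hG⟩ := good_unbounded _ h0 h4 (8 * Real.log (11 * t))
  have := hG.le_of_free ht hfree
  linarith

end Pool.Agent.Lib.MP_8dfcc7_al
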